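import Pool.Agent.Lib.MP_b71113_an.Defs

/-!
Basic facts on holomorphic functions of several variables: Cauchy estimate, holomorphic
dependence of circle integrals on parameters, Osgood lemma, consequences of the identity theorem,
smooth bump functions.
-/

open Set Filter Topology MeasureTheory Metric Complex
open scoped ContDiff Real

namespace Pool.Agent.Lib.MP_b71113_an

variable {E F : Type} [NormedAddCommGroup E] [NormedSpace ℂ E] [NormedAddCommGroup F]
  [NormedSpace ℂ F]

/-- Cauchy estimate for the derivative. -/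
theorem norm_fderiv_le_of_ball {f : E → F} {x : E} {r M : ℝ} (hr : 0 < r)
    (hf : DifferentiableOn ℂ f (ball x r)) (hM : ∀ y ∈ ball x r, ‖f y‖ ≤ M) :
    ‖fderiv ℂ f x‖ ≤ 2 * M / r := by
  refine Complex.norm_fderiv_le_div_of_mapsTo_ball hf (fun y hy => ?_) hr
  rw [mem_closedBall, dist_eq_norm]
  have h1 := hM y hy
  have h2 := hM x (mem_ball_self hr)
  have h3 := norm_sub_le (f y) (f x)
  linarith

/-- Continuity of the derivative in a parameter. -/
theorem continuous_fderiv_param [FiniteDimensional ℂ E] {T : Type} [TopologicalSpace T]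
    {Ψ : E → T → F} {O : Set E} (hO : IsOpen O)
    (hc : ContinuousOn (fun p : E × T => Ψ p.1 p.2) (O ×ˢ univ))
    (hd : ∀ t, DifferentiableOn ℂ (fun w => Ψ w t) O) {x : E} (hx : x ∈ O) :
    Continuous fun t => fderiv ℂ (fun w => Ψ w t) x := by
  have : ProperSpace E := FiniteDimensional.proper ℂ E
  obtain ⟨r, hr, hrO⟩ := nhds_basis_closedBall.mem_iff.1 (hO.mem_nhds hx)
  rw [continuous_iff_continuousAt]
  intro t₀
  rw [ContinuousAt, Metric.tendsto_nhds]
  intro ε hε
  have hev : ∀ᶠ t in 𝓝 t₀, ∀ y ∈ closedBall x r, ‖Ψ y t - Ψ y t₀‖ ≤ ε * r / 4 := by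
    refine (isCompact_closedBall x r).eventually_forall_of_forall_eventually fun y hy => ?_
    have hy' : y ∈ O := hrO hy
    have hca : ContinuousAt (fun p : E × T => Ψ p.1 p.2) (y, t₀) :=
      hc.continuousAt ((hO.prod isOpen_univ).mem_nhds ⟨hy', mem_univ _⟩)
    have h1 : ContinuousAt (fun z : T × E => Ψ z.2 z.1) (t₀, y) :=
      ContinuousAt.comp (f := fun z : T × E => (z.2, z.1)) (g := fun p : E × T => Ψ p.1 p.2)
        hca (by fun_prop)
    have h2 : ContinuousAt (fun z : T × E => Ψ z.2 t₀) (t₀, y) :=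
      ContinuousAt.comp (f := fun z : T × E => (z.2, t₀)) (g := fun p : E × T => Ψ p.1 p.2)
        hca (by fun_prop)
    have h3 : ContinuousAt (fun z : T × E => ‖Ψ z.2 z.1 - Ψ z.2 t₀‖) (t₀, y) := (h1.sub h2).norm
    have h4 : ‖Ψ (t₀, y).2 (t₀, y).1 - Ψ (t₀, y).2 t₀‖ < ε * r / 4 := by
      simp only [sub_self, norm_zero]; positivity
    filter_upwards [h3.eventually (gt_mem_nhds h4)] with z hz using hz.le
  filter_upwards [hev] with t ht
  have hb : ball x r ⊆ O := ball_subset_closedBall.trans hrO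
  have d1 : DifferentiableAt ℂ (fun w => Ψ w t) x := (hd t).differentiableAt (hO.mem_nhds hx)
  have d2 : DifferentiableAt ℂ (fun w => Ψ w t₀) x := (hd t₀).differentiableAt (hO.mem_nhds hx)
  rw [dist_eq_norm, ← fderiv_fun_sub d1 d2]
  have := norm_fderiv_le_of_ball (f := fun w => Ψ w t - Ψ w t₀) hr
    (((hd t).sub (hd t₀)).mono hb) (fun y hy => ht y (ball_subset_closedBall hy))
  refine this.trans_lt ?_
  rw [div_lt_iff₀ hr]
  nlinarith [mul_pos hε hr]

/-- Interval integrals depend holomorphically on parameters. -/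
theorem differentiableOn_intervalIntegral [FiniteDimensional ℂ E] [CompleteSpace F]
    {Ψ : E → ℝ → F} {O : Set E} (hO : IsOpen O) {a b : ℝ}
    (hc : ContinuousOn (fun p : E × ℝ => Ψ p.1 p.2) (O ×ˢ univ))
    (hd : ∀ t, DifferentiableOn ℂ (fun w => Ψ w t) O) :
    DifferentiableOn ℂ (fun w => ∫ θ in a..b, Ψ w θ) O := by
  have : ProperSpace E := FiniteDimensional.proper ℂ E
  intro x hx
  obtain ⟨r, hr, hrO⟩ := nhds_basis_closedBall.mem_iff.1 (hO.mem_nhds hx)
  have hcont : ∀ y ∈ O, Continuous (Ψ y) := fun y hy => by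
    have h2 : Continuous fun θ : ℝ => (y, θ) := by fun_prop
    rw [← continuousOn_univ]
    exact hc.comp h2.continuousOn (fun θ _ => ⟨hy, mem_univ _⟩)
  have hK : IsCompact (closedBall x r ×ˢ uIcc a b) :=
    (isCompact_closedBall x r).prod isCompact_uIcc
  obtain ⟨M, hM⟩ := hK.exists_bound_of_continuousOn
    (hc.mono (prod_mono hrO (subset_univ _)))
  have hr2 : 0 < r / 2 := half_pos hr
  have hsub : ∀ y ∈ ball x (r / 2), ball y (r / 2) ⊆ closedBall x r := fun y hy z hz => by
    rw [mem_ball] at hy hz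
    rw [mem_closedBall]
    have := dist_triangle z y x
    linarith
  refine (intervalIntegral.hasFDerivAt_integral_of_dominated_of_fderiv_le (𝕜 := ℂ)
    (μ := volume) (F := Ψ) (F' := fun y θ => fderiv ℂ (fun w => Ψ w θ) y)
    (bound := fun _ => 2 * M / (r / 2)) (ball_mem_nhds x hr2) ?_ ?_ ?_ ?_ ?_
    ?_).differentiableAt.differentiableWithinAt
  · filter_upwards [hO.mem_nhds hx] with y hy using (hcont y hy).aestronglyMeasurable
  · exact (hcont x hx).intervalIntegrable _ _
  · exact (continuous_fderiv_param hO hc hd hx).aestronglyMeasurable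
  · refine Eventually.of_forall fun θ hθ y hy => ?_
    refine norm_fderiv_le_of_ball hr2 ((hd θ).mono ((hsub y hy).trans hrO)) fun z hz => ?_
    exact hM (z, θ) ⟨hsub y hy hz, uIoc_subset_uIcc hθ⟩
  · exact intervalIntegrable_const
  · refine Eventually.of_forall fun θ _ y hy => ?_
    have hyO : y ∈ O := hrO (hsub y hy (mem_ball_self hr2))
    exact ((hd θ).differentiableAt (hO.mem_nhds hyO)).hasFDerivAt

/-- Circle integrals depend holomorphically on parameters. -/
theorem differentiableOn_circleIntegral [FiniteDimensional ℂ E] [CompleteSpace F]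
    {Φ : E → ℂ → F} {O : Set E} (hO : IsOpen O) {c : ℂ} {R : ℝ} (hR : 0 ≤ R)
    (hc : ContinuousOn (fun p : E × ℂ => Φ p.1 p.2) (O ×ˢ sphere c R))
    (hd : ∀ t ∈ sphere c R, DifferentiableOn ℂ (fun w => Φ w t) O) :
    DifferentiableOn ℂ (fun w => ∮ t in C(c, R), Φ w t) O := by
  have hγ : ∀ θ : ℝ, circleMap c R θ ∈ sphere c R := fun θ => circleMap_mem_sphere c hR θ
  have key : DifferentiableOn ℂ
      (fun w => ∫ θ in (0 : ℝ)..(2 * π), deriv (circleMap c R) θ • Φ w (circleMap c R θ)) O := by
    refine differentiableOn_intervalIntegral hO ?_ ?_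
    · have h1 : Continuous fun p : E × ℝ => deriv (circleMap c R) p.2 := by
        simp only [deriv_circleMap]
        fun_prop
      refine h1.continuousOn.smul ?_
      have h2 : Continuous fun p : E × ℝ => (p.1, circleMap c R p.2) := by fun_prop
      exact hc.comp h2.continuousOn (fun p hp => ⟨hp.1, hγ _⟩)
    · intro θ
      exact (hd _ (hγ θ)).const_smul _
  exact key

/-- The derivative of a holomorphic map is holomorphic. -/
theorem differentiableOn_fderiv_of_isOpen [FiniteDimensional ℂ E] [CompleteSpace F]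
    {f : E → F} {O : Set E} (hO : IsOpen O) (hf : DifferentiableOn ℂ f O) :
    DifferentiableOn ℂ (fderiv ℂ f) O := by
  have hv : ∀ v : E, DifferentiableOn ℂ (fun x => fderiv ℂ f x v) O := by
    intro v x hx
    obtain ⟨r, hr, hrO⟩ := Metric.isOpen_iff.1 hO x hx
    have hρ : 0 < r / 2 / (‖v‖ + 1) := by positivity
    have hmem : ∀ y ∈ ball x (r / 2), ∀ t ∈ closedBall (0 : ℂ) (r / 2 / (‖v‖ + 1)),
        y + t • v ∈ O := fun y hy t ht => by
      apply hrO
      rw [mem_closedBall_zero_iff] at ht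
      rw [mem_ball] at hy ⊢
      have h1 : dist (y + t • v) y = ‖t‖ * ‖v‖ := by
        rw [dist_eq_norm, add_sub_cancel_left, norm_smul]
      have h2 : ‖t‖ * ‖v‖ ≤ r / 2 / (‖v‖ + 1) * (‖v‖ + 1) := by
        gcongr; linarith
      have h3 : r / 2 / (‖v‖ + 1) * (‖v‖ + 1) = r / 2 := by field_simp
      have := dist_triangle (y + t • v) y x
      linarith
    have hint : DifferentiableOn ℂ
        (fun y => ∮ t in C(0, r / 2 / (‖v‖ + 1)), (1 / (t - 0) ^ 2) • f (y + t • v))
        (ball x (r / 2)) := by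
      refine differentiableOn_circleIntegral (Φ := fun y t => (1 / (t - 0) ^ 2) • f (y + t • v))
        isOpen_ball hρ.le ?_ ?_
      · refine ContinuousOn.smul ?_ ?_
        · refine ContinuousOn.div continuousOn_const (by fun_prop) fun p hp => ?_
          have := hp.2
          rw [mem_sphere_zero_iff_norm] at this
          rw [sub_zero]
          refine pow_ne_zero _ fun h0 => ?_
          rw [h0, norm_zero] at this
          exact hρ.ne this
        · exact hf.continuousOn.comp (by fun_prop)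
            fun p hp => hmem _ hp.1 _ (sphere_subset_closedBall hp.2)
      · intro t ht
        exact (hf.comp (by fun_prop)
          fun y hy => hmem _ hy _ (sphere_subset_closedBall ht)).const_smul _
    have heq : ∀ y ∈ ball x (r / 2), fderiv ℂ f y v = (2 * π * I : ℂ)⁻¹ •
        ∮ t in C(0, r / 2 / (‖v‖ + 1)), (1 / (t - 0) ^ 2) • f (y + t • v) := fun y hy => by
      have hg : DifferentiableOn ℂ (fun t : ℂ => f (y + t • v))
          (closedBall 0 (r / 2 / (‖v‖ + 1))) := hf.comp (by fun_prop) (hmem y hy)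
      rw [hg.deriv_eq_smul_circleIntegral hρ, inv_smul_smul₀ two_pi_I_ne_zero]
      have hyO : y + (0 : ℂ) • v ∈ O := hmem y hy 0 (mem_closedBall_self hρ.le)
      have h1 : HasDerivAt (fun t : ℂ => y + t • v) v 0 := by
        simpa using ((hasDerivAt_id (0 : ℂ)).smul_const v).const_add y
      have h2 := (hf.differentiableAt (hO.mem_nhds hyO)).hasFDerivAt.comp_hasDerivAt 0 h1
      have h3 : deriv (fun t : ℂ => f (y + t • v)) 0 = fderiv ℂ f (y + (0 : ℂ) • v) v := h2.deriv
      rw [h3, zero_smul, add_zero]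
    have hd : DifferentiableOn ℂ (fun y => fderiv ℂ f y v) (ball x (r / 2)) :=
      (hint.const_smul _).congr heq
    exact (hd.differentiableAt (ball_mem_nhds x (half_pos hr))).differentiableWithinAt
  have hd : Module.finrank ℂ E = Module.finrank ℂ (Fin (Module.finrank ℂ E) → ℂ) :=
    (Module.finrank_fin_fun ℂ).symm
  let e₁ := ContinuousLinearEquiv.ofFinrankEq hd
  let e₂ := (e₁.arrowCongr (1 : F ≃L[ℂ] F)).trans
    (ContinuousLinearEquiv.piRing (Fin (Module.finrank ℂ E)))
  rw [← Function.id_comp (fderiv ℂ f), ← e₂.symm_comp_self]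
  exact e₂.symm.differentiable.comp_differentiableOn (differentiableOn_pi.mpr fun i => hv _)

theorem contDiffOn_of_differentiableOn [FiniteDimensional ℂ E] {O : Set E} (hO : IsOpen O)
    (n : ℕ) : ∀ {F : Type} [NormedAddCommGroup F] [NormedSpace ℂ F] [CompleteSpace F]
      {f : E → F}, DifferentiableOn ℂ f O → ContDiffOn ℂ n f O := by
  induction n with
  | zero => intro F _ _ _ f hf; simpa using hf.continuousOn
  | succ n ih =>
    intro F _ _ _ f hf
    rw [Nat.cast_succ, contDiffOn_succ_iff_fderiv_of_isOpen hO]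
    exact ⟨hf, fun h => absurd h (by simp), ih (differentiableOn_fderiv_of_isOpen hO hf)⟩
/-- Smooth bump function equal to one on a compact set. -/
theorem exists_bump {V : Type} [NormedAddCommGroup V] [NormedSpace ℝ V] [FiniteDimensional ℝ V]
    {K O : Set V} (hK : IsCompact K) (hO : IsOpen O) (hKO : K ⊆ O) :
    ∃ ψ : V → ℝ, ContDiff ℝ ∞ ψ ∧ HasCompactSupport ψ ∧ tsupport ψ ⊆ O ∧ (∀ x ∈ K, ψ x = 1) ∧
      ∀ x, 0 ≤ ψ x ∧ ψ x ≤ 1 := by
  have : ProperSpace V := FiniteDimensional.proper ℝ V
  obtain ⟨K', hK', hKK', hK'O⟩ := exists_compact_between hK hO hKO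
  obtain ⟨f, h1, h0, hf⟩ := exists_contMDiffMap_one_nhds_of_subset_interior (n := ⊤)
    (modelWithCornersSelf ℝ V) hK.isClosed hKK'
  have hsupp : tsupport f ⊆ K' :=
    closure_minimal (fun x hx => by by_contra hn; exact hx (h0 x hn)) hK'.isClosed
  refine ⟨f, f.contMDiff.contDiff, hK'.of_isClosed_subset (isClosed_tsupport _) hsupp,
    hsupp.trans hK'O, fun x hx => h1.self_of_nhdsSet x hx, fun x => hf x⟩

end Pool.Agent.Lib.MP_b71113_an
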