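import Pool.Agent.Lib.MP_b71113_an.Defs

namespace Pool.Agent.Lib.MP_b71113_an

open scoped Real

/-- `A_c(t) = (4/π) arctan (exp (-π t / (2c)))`: harmonic measure of the vertical side of the
half-strip `(0,∞) × (-c,c)` at the real point `t`. -/
noncomputable def halfMeasure (c t : ℝ) : ℝ := 4 / π * Real.arctan (Real.exp (-(π * t / (2 * c))))

/-- Harmonic measure of the two vertical sides of the rectangle `(a,b) × (-c,c)` at the real
point `x`, by the method of images. -/
noncomputable def rectMeasure (a b c x : ℝ) : ℝ :=
  ∑' r : ℕ, (-1) ^ r * (halfMeasure c (x - a + r * (b - a)) + halfMeasure c (b - x + r * (b - a)))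

/-- Harmonic measure of the vertical sides of `(a,b) × (-c,c)` at the real point `x`, for an
interval `(a,b)` with `-∞ ≤ a < b ≤ +∞`. -/
noncomputable def sideMeasure (a b : EReal) (c x : ℝ) : ℝ :=
  if a = ⊥ then (if b = ⊤ then 0 else halfMeasure c (b.toReal - x))
  else if b = ⊤ then halfMeasure c (x - a.toReal) else rectMeasure a.toReal b.toReal c x

end Pool.Agent.Lib.MP_b71113_an
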