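import Pool.Agent.Lib.MP_b71113_an.Cross
import Pool.Agent.Lib.MP_b71113_an.BoxDefs

/-! The explicit formula for bounded boxes. -/

namespace Pool.Agent.Lib.MP_b71113_an

open Set Filter Topology Complex Metric
open scoped Real

variable {n : ℕ}

/-- The holomorphic function attached to the rectangle `(a,b) × (-c,c)`. -/
noncomputable def fb (a b c : ℝ) (z : ℂ) : ℂ :=
  gg (π / (2 * c) * (b - a)) ((π / (2 * c) : ℝ) * (z - a))

theorem lam_pos {c : ℝ} (hc : 0 < c) : 0 < π / (2 * c) := div_pos Real.pi_pos (by linarith)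

theorem sc_re (a c : ℝ) (z : ℂ) :
    (((π / (2 * c) : ℝ) : ℂ) * (z - a)).re = π / (2 * c) * (z.re - a) := by
  rw [re_ofReal_mul]; simp

theorem sc_im (a c : ℝ) (z : ℂ) :
    (((π / (2 * c) : ℝ) : ℂ) * (z - a)).im = π / (2 * c) * z.im := by
  rw [im_ofReal_mul]; simp

theorem sc_mem {a b c : ℝ} (hc : 0 < c) {z : ℂ} (h1 : a < z.re) (h2 : z.re < b) :
    0 < (((π / (2 * c) : ℝ) : ℂ) * (z - a)).re ∧
      (((π / (2 * c) : ℝ) : ℂ) * (z - a)).re < π / (2 * c) * (b - a) := by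
  rw [sc_re]
  exact ⟨mul_pos (lam_pos hc) (by linarith), mul_lt_mul_of_pos_left (by linarith) (lam_pos hc)⟩

theorem sc_abs_im {c : ℝ} (hc : 0 < c) (a : ℝ) (z : ℂ) :
    |(((π / (2 * c) : ℝ) : ℂ) * (z - a)).im| = π / (2 * c) * |z.im| := by
  rw [sc_im, abs_mul, abs_of_pos (lam_pos hc)]

theorem lam_mul {c : ℝ} (hc : 0 < c) : π / (2 * c) * c = π / 2 := by field_simp

theorem analyticAt_fb {a b c : ℝ} (hc : 0 < c) {z : ℂ} (h1 : a < z.re) (h2 : z.re < b) :
    AnalyticAt ℂ (fb a b c) z :=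
  AnalyticAt.comp (f := fun z : ℂ => ((π / (2 * c) : ℝ) : ℂ) * (z - a))
    (analyticOnNhd_gg _ _ (sc_mem hc h1 h2)) (by fun_prop)

theorem re_fb_mem {a b c : ℝ} (hc : 0 < c) {z : ℂ} (h1 : a < z.re) (h2 : z.re < b)
    (h3 : |z.im| ≤ c) : 0 ≤ (fb a b c z).re ∧ (fb a b c z).re ≤ 1 := by
  refine re_gg_mem (sc_mem hc h1 h2).1 (sc_mem hc h1 h2).2 ?_
  rw [sc_abs_im hc, ← lam_mul hc]
  exact mul_le_mul_of_nonneg_left h3 (lam_pos hc).le

theorem re_fb_top {a b c : ℝ} (hc : 0 < c) {z : ℂ} (h1 : a < z.re) (h2 : z.re < b)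
    (h3 : |z.im| = c) : (fb a b c z).re = 0 := by
  refine re_gg_top (sc_mem hc h1 h2).1 (sc_mem hc h1 h2).2 ?_
  rw [sc_abs_im hc, h3, lam_mul hc]

theorem countable_fb {a b c : ℝ} (hab : a < b) (hc : 0 < c) :
    {z : ℂ | a < z.re ∧ z.re < b ∧ deriv (fb a b c) z = 0}.Countable := by
  have hl : ((π / (2 * c) : ℝ) : ℂ) ≠ 0 := ofReal_ne_zero.2 (lam_pos hc).ne'
  have hinj : Function.Injective fun z : ℂ => ((π / (2 * c) : ℝ) : ℂ) * (z - a) :=
    fun z w h => sub_left_injective (mul_left_cancel₀ hl h)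
  refine ((countable_crit (mul_pos (lam_pos hc) (sub_pos.2 hab))).preimage_of_injOn
    hinj.injOn).mono fun z hz => And.intro (sc_mem hc hz.1 hz.2.1) ?_
  have h1 : HasDerivAt (fun z : ℂ => ((π / (2 * c) : ℝ) : ℂ) * (z - a))
      ((π / (2 * c) : ℝ) : ℂ) z := by
    simpa using ((hasDerivAt_id z).sub_const (a : ℂ)).const_mul ((π / (2 * c) : ℝ) : ℂ)
  have h2 := (differentiableAt_gg (sc_mem hc hz.1 hz.2.1).1
    (sc_mem hc hz.1 hz.2.1).2).hasDerivAt.comp z h1
  have h3 : deriv (fb a b c) z = _ := h2.deriv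
  rw [hz.2.2] at h3
  exact (mul_eq_zero.1 h3.symm).resolve_right hl

theorem edge_fb {a b c c' ε : ℝ} (hab : a < b) (hc : 0 < c) (hcc : c < c') (hε : 0 < ε) :
    ∃ δ > 0, ∀ z : ℂ, a < z.re → z.re < b → (z.re < a + δ ∨ b - δ < z.re) → |z.im| ≤ c →
      1 - ε ≤ (fb a b c' z).re := by
  have hc' := hc.trans hcc
  have hl := lam_pos hc'
  obtain ⟨δ, hδ, h⟩ := edge_one (mul_pos hl (sub_pos.2 hab)) hε (η := π / (2 * c') * c)
    (by rw [← lam_mul hc']; exact mul_lt_mul_of_pos_left hcc hl)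
  refine ⟨δ / (π / (2 * c')), div_pos hδ hl, fun z h1 h2 h3 h4 =>
    h _ (sc_mem hc' h1 h2).1 (sc_mem hc' h1 h2).2 ?_ ?_⟩
  · rw [sc_re]
    rcases h3 with h3 | h3
    · left; rw [← lt_div_iff₀' hl]; linarith
    · right
      have : b - z.re < δ / (π / (2 * c')) := by linarith
      rw [lt_div_iff₀' hl] at this
      linarith
  · rw [sc_abs_im hc']
    exact mul_le_mul_of_nonneg_left h4 hl.le

theorem re_aa_real (c t : ℝ) : (aa ((π / (2 * c) * t : ℝ) : ℂ)).re = halfMeasure c t := by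
  have h : aa ((π / (2 * c) * t : ℝ) : ℂ) = (halfMeasure c t : ℂ) := by
    rw [aa, halfMeasure, ← ofReal_neg, ← ofReal_exp, ← ofReal_arctan]
    push_cast
    congr 4
    ring
  rw [h, ofReal_re]

theorem re_fb_real {a b c x : ℝ} (hc : 0 < c) (h1 : a < x) (h2 : x < b) :
    (fb a b c x).re = rectMeasure a b c x := by
  have hΛ : 0 < π / (2 * c) * (b - a) := mul_pos (lam_pos hc) (by linarith)
  have hm := sc_mem (a := a) (b := b) hc (z := x) (by simpa using h1) (by simpa using h2)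
  have hm' : 0 < (((π / (2 * c) * (b - a) : ℝ) : ℂ) - ((π / (2 * c) : ℝ) : ℂ) * (x - a)).re := by
    rw [sub_re, ofReal_re]; linarith [hm.2]
  rw [fb, gg, ss, ss, ← (summable_ss hΛ hm.1).tsum_add (summable_ss hΛ hm'),
    re_tsum ((summable_ss hΛ hm.1).add (summable_ss hΛ hm')), rectMeasure]
  congr 1
  funext r
  have e : (-1 : ℂ) ^ r = (((-1 : ℝ) ^ r : ℝ) : ℂ) := by push_cast; rfl
  rw [← mul_add, e, re_ofReal_mul, add_re, ← re_aa_real, ← re_aa_real]
  congr 4 <;> push_cast <;> ring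

theorem continuousOn_rect {a b c : ℝ} (hc : 0 < c) : ContinuousOn (rectMeasure a b c) (Ioo a b) := by
  refine ContinuousOn.congr (f := fun x : ℝ => (fb a b c x).re) (fun x hx => ?_)
    fun x hx => (re_fb_real hc hx.1 hx.2).symm
  have := (analyticAt_fb (a := a) (b := b) hc (z := x) (by simpa using hx.1)
    (by simpa using hx.2)).continuousAt
  exact (continuous_re.continuousAt.comp
    (this.comp continuous_ofReal.continuousAt)).continuousWithinAt

theorem rect_not_max {a b c x : ℝ} (hc : 0 < c) (h1 : a < x) (h2 : x < b) :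
    ¬ ∀ᶠ t in 𝓝 x, rectMeasure a b c t ≤ rectMeasure a b c x := by
  intro h
  have hl := lam_pos hc
  refine not_localMax (Λ := π / (2 * c) * (b - a)) (x := π / (2 * c) * (x - a))
    (mul_pos hl (by linarith)) (mul_lt_mul_of_pos_left (by linarith) hl) ?_
  have ht : Tendsto (fun u : ℝ => a + u / (π / (2 * c))) (𝓝 (π / (2 * c) * (x - a))) (𝓝 x) := by
    refine Continuous.tendsto' (by fun_prop) _ _ ?_
    rw [mul_div_cancel_left₀ _ hl.ne']; ring
  filter_upwards [ht.eventually (h.and (Ioo_mem_nhds h1 h2))] with u hu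
  have h3 := hu.1
  rw [← re_fb_real hc hu.2.1 hu.2.2, ← re_fb_real hc h1 h2, fb, fb] at h3
  have e1 : ((π / (2 * c) : ℝ) : ℂ) * ((a + u / (π / (2 * c)) : ℝ) - a) = u := by
    rw [← ofReal_sub, ← ofReal_mul, add_sub_cancel_left, mul_div_cancel₀ _ hl.ne']
  have e2 : ((π / (2 * c) : ℝ) : ℂ) * ((x : ℂ) - a) = (π / (2 * c) * (x - a) : ℝ) := by
    rw [← ofReal_sub, ← ofReal_mul]
  rwa [e1, e2] at h3

theorem half_nonneg (c t : ℝ) : 0 ≤ halfMeasure c t :=
  mul_nonneg (div_nonneg (by norm_num) Real.pi_pos.le) (Real.arctan_nonneg.2 (Real.exp_pos _).le)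

theorem half_le (c t : ℝ) : halfMeasure c t ≤ 4 / π * Real.exp (-(π * t / (2 * c))) :=
  mul_le_mul_of_nonneg_left ((Real.le_tan (Real.arctan_nonneg.2 (Real.exp_pos _).le)
    (Real.arctan_lt_pi_div_two _)).trans (Real.tan_arctan _).le)
    (div_nonneg (by norm_num) Real.pi_pos.le)

theorem half_le' {c c' t L : ℝ} (hc : 0 < c) (hcc : c ≤ c') (ht : 0 ≤ t) (hL : 0 ≤ L) (r : ℕ) :
    halfMeasure c (t + r * L) ≤ 4 / π * Real.exp (-(π / (2 * c') * L)) ^ r := by
  refine (half_le _ _).trans (mul_le_mul_of_nonneg_left ?_ (div_nonneg (by norm_num) Real.pi_pos.le))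
  rw [← Real.exp_nat_mul, Real.exp_le_exp]
  have h1 : π / (2 * c') ≤ π / (2 * c) :=
    div_le_div_of_nonneg_left Real.pi_pos.le (by linarith) (by linarith)
  have h2 : (0 : ℝ) ≤ r * L := by positivity
  have h3 := mul_le_mul_of_nonneg_right h1 h2
  have h4 := mul_nonneg (lam_pos hc).le ht
  have e : π * (t + r * L) / (2 * c) = π / (2 * c) * t + π / (2 * c) * (r * L) := by ring
  rw [e]
  linarith

theorem term_le {a b c c' x : ℝ} (hc : 0 < c) (hcc : c ≤ c') (h1 : a < x) (h2 : x < b) (r : ℕ) :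
    ‖(-1 : ℝ) ^ r * (halfMeasure c (x - a + r * (b - a)) + halfMeasure c (b - x + r * (b - a)))‖ ≤
      8 / π * Real.exp (-(π / (2 * c') * (b - a))) ^ r := by
  rw [norm_mul, norm_pow, norm_neg, norm_one, one_pow, one_mul,
    Real.norm_of_nonneg (add_nonneg (half_nonneg _ _) (half_nonneg _ _))]
  have h3 := half_le' (t := x - a) (L := b - a) hc hcc (by linarith) (by linarith) r
  have h4 := half_le' (t := b - x) (L := b - a) hc hcc (by linarith) (by linarith) r
  have e : 8 / π = 4 / π + 4 / π := by ring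
  rw [e, add_mul]
  linarith

theorem continuousOn_rect_c {a b c x : ℝ} (hc : 0 < c) (h1 : a < x) (h2 : x < b) :
    ContinuousOn (fun t : ℝ => rectMeasure a b (c + t) x) (Icc 0 1) := by
  have hh : ∀ u : ℝ, ContinuousOn (fun t : ℝ => halfMeasure (c + t) u) (Icc 0 1) := by
    intro u
    refine continuousOn_const.mul (Real.continuous_arctan.comp_continuousOn
      (Real.continuous_exp.comp_continuousOn (ContinuousOn.neg ?_)))
    exact continuousOn_const.div (by fun_prop) fun t ht => by have := ht.1; positivity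
  refine continuousOn_tsum (fun r => continuousOn_const.mul ((hh _).add (hh _)))
    (summable_bound (Λ := π / (2 * (c + 1)) * (b - a))
      (mul_pos (lam_pos (by linarith)) (by linarith)) (8 / π)) fun r t ht => ?_
  exact term_le (by linarith [ht.1]) (by linarith [ht.2]) h1 h2 r

theorem box_vanish {a b c : Fin n → ℝ} (hc : ∀ j, 0 < c j) {x : Fin n → ℝ}
    (hx : x ∈ univ.pi fun j => Ioo (a j) (b j))
    (hs : ∑ j, rectMeasure (a j) (b j) (c j) (x j) < 1) {f : (Fin n → ℂ) → ℂ}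
    {F : (Fin n → ℤˣ) → (Fin n → ℂ) → ℂ}
    (h : Admissible (univ.pi fun j => Ioo (a j) (b j)) c f F) : gfun F x = 0 := by
  have hxa : ∀ j, a j < x j := fun j => (hx j (mem_univ _)).1
  have hxb : ∀ j, x j < b j := fun j => (hx j (mem_univ _)).2
  have hab : ∀ j, a j < b j := fun j => (hxa j).trans (hxb j)
  have hΩo : IsOpen (univ.pi fun j => Ioo (a j) (b j)) :=
    isOpen_set_pi finite_univ fun _ _ => isOpen_Ioo
  obtain ⟨t, ht0, ht⟩ : ∃ t > 0, ∑ j, rectMeasure (a j) (b j) (c j + t) (x j) < 1 := by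
    have h1 : ContinuousOn (fun t : ℝ => ∑ j, rectMeasure (a j) (b j) (c j + t) (x j)) (Icc 0 1) :=
      continuousOn_finsetSum _ fun j _ => continuousOn_rect_c (hc j) (hxa j) (hxb j)
    have h2 := ((h1 0 ⟨le_rfl, zero_le_one⟩).mono Ioc_subset_Icc_self).eventually
      (gt_mem_nhds (by simpa using hs))
    rw [nhdsWithin_Ioc_eq_nhdsGT one_pos] at h2
    obtain ⟨t, h3, h4⟩ := (h2.and self_mem_nhdsWithin).exists
    exact ⟨t, h4, h3⟩
  obtain ⟨m, hm1, hm2⟩ := exists_between ht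
  have hc' : ∀ j, 0 < c j + t := fun j => by linarith [hc j]
  choose δ hδ hδ' using fun j => edge_fb (ε := 1 - m) (c' := c j + t) (hab j) (hc j)
    (by linarith) (by linarith)
  refine vanish_of_sep hΩo (fun j => (hc j).le) h hx (hΩo.preimage continuous_reV)
    (fun z hz => hz.1) (φ := fun z => exp (-∑ j, fb (a j) (b j) (c j + t) (z j))) ?_
    (K₀ := univ.pi fun j => Icc (a j + δ j) (b j - δ j))
    (isCompact_univ_pi fun _ => isCompact_Icc) ?_ (M := Real.exp (-m)) (Real.exp_pos _).le ?_ ?_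
  · intro z hz
    refine (DifferentiableAt.cexp (DifferentiableAt.neg
      (DifferentiableAt.fun_sum fun j _ => ?_))).differentiableWithinAt
    exact DifferentiableAt.comp (g := fb (a j) (b j) (c j + t)) (f := fun z : Fin n → ℂ => z j) z
      (analyticAt_fb (hc' j) (hz j (mem_univ _)).1 (hz j (mem_univ _)).2).differentiableAt
      (differentiableAt_apply j z)
  · intro y hy j _
    have := hy j (mem_univ _)
    exact ⟨by linarith [this.1, hδ j], by linarith [this.2, hδ j]⟩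
  · intro w hw
    have ha : ∀ j, a j < (w j).re := fun j => (hw.1.1 j (mem_univ _)).1
    have hb : ∀ j, (w j).re < b j := fun j => (hw.1.1 j (mem_univ _)).2
    obtain ⟨k, hk⟩ : ∃ k, (w k).re < a k + δ k ∨ b k - δ k < (w k).re := by
      by_contra hn
      push Not at hn
      exact hw.1.2 fun j _ => hn j
    rw [norm_exp, Real.exp_le_exp, neg_re, neg_le_neg_iff, re_sum]
    have h1 := hδ' k _ (ha k) (hb k) hk (hw.2 k)
    have h2 := Finset.single_le_sum (f := fun j => (fb (a j) (b j) (c j + t) (w j)).re)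
      (fun j _ => (re_fb_mem (hc' j) (ha j) (hb j) ((hw.2 j).trans (by linarith))).1)
      (Finset.mem_univ k)
    linarith
  · rw [norm_exp, Real.exp_lt_exp, neg_re, neg_lt_neg_iff, re_sum]
    refine lt_of_eq_of_lt (Finset.sum_congr rfl fun j _ => ?_) hm1
    exact re_fb_real (hc' j) (hxa j) (hxb j)

theorem box_hull {a b c : Fin n → ℝ} (hc : ∀ j, 0 < c j) {x : Fin n → ℝ}
    (hx : x ∈ univ.pi fun j => Ioo (a j) (b j))
    (hs : 1 < ∑ j, rectMeasure (a j) (b j) (c j) (x j)) {φ : (Fin n → ℂ) → ℂ}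
    (hφ : Differentiable ℂ φ) {M : ℝ}
    (hM0 : 0 ≤ M) (hM : ∀ w ∈ tube (frontier (univ.pi fun j => Ioo (a j) (b j))) c, ‖φ w‖ ≤ M) :
    ‖φ (ofR x)‖ ≤ M := by
  have hxa : ∀ j, a j < x j := fun j => (hx j (mem_univ _)).1
  have hxb : ∀ j, x j < b j := fun j => (hx j (mem_univ _)).2
  have hab : ∀ j, a j < b j := fun j => (hxa j).trans (hxb j)
  refine cross_hull hab (fun j => (hc j).le) (F := fun j => fb (a j) (b j) (c j))
    (fun j z h1 h2 => analyticAt_fb (hc j) h1 h2)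
    (fun j z h1 h2 h3 => (re_fb_mem (hc j) h1 h2 h3).2)
    (fun j z h1 h2 h3 => re_fb_top (hc j) h1 h2 h3) (fun j => countable_fb (hab j) (hc j)) hx ?_
    hφ hM0 hM
  refine lt_of_lt_of_eq hs (Finset.sum_congr rfl fun j _ => ?_)
  exact (re_fb_real (hc j) (hxa j) (hxb j)).symm

theorem rect_tail {a b c x : ℝ} (hc : 0 < c) (h1 : a < x) (h2 : x < b) :
    |rectMeasure a b c x - (halfMeasure c (x - a) + halfMeasure c (b - x))| ≤
      8 / π * Real.exp (-(π / (2 * c) * (b - a))) * (1 - Real.exp (-(π / (2 * c) * (b - a))))⁻¹ := by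
  have hΛ : 0 < π / (2 * c) * (b - a) := mul_pos (lam_pos hc) (by linarith)
  have hsum := Summable.of_norm_bounded (summable_bound hΛ _) (term_le hc le_rfl h1 h2)
  rw [rectMeasure, hsum.tsum_eq_zero_add]
  simp only [pow_zero, Nat.cast_zero, zero_mul, add_zero, one_mul, add_sub_cancel_left]
  have h3 := (hasSum_geometric_of_lt_one (Real.exp_pos (-(π / (2 * c) * (b - a)))).le
    (Real.exp_lt_one_iff.2 (by linarith))).mul_left (8 / π * Real.exp (-(π / (2 * c) * (b - a))))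
  refine tsum_of_norm_bounded h3 fun r => (term_le hc le_rfl h1 h2 (r + 1)).trans (le_of_eq ?_)
  ring

end Pool.Agent.Lib.MP_b71113_an
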