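import Pool.Agent.Lib.MP_b71113_an.Split

/-! The Cauchy transform of `1 - s²` on `[-1,1]` and its boundary values. -/

namespace Pool.Agent.Lib.MP_b71113_an

open Set Filter Topology Complex Metric MeasureTheory

/-- `u log u`. -/
noncomputable def xl (u : ℂ) : ℂ := u * log u

theorem continuousOn_xl : ContinuousOn xl {u | 0 ≤ u.re} := by
  intro u hu
  by_cases h0 : u = 0
  · subst h0
    refine ContinuousAt.continuousWithinAt ?_
    rw [ContinuousAt, xl, zero_mul]
    have h1 : Tendsto (fun u : ℂ => |‖u‖ * Real.log ‖u‖| + ‖u‖ * Real.pi) (𝓝 0) (𝓝 0) := by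
      have : Continuous fun u : ℂ => |‖u‖ * Real.log ‖u‖| + ‖u‖ * Real.pi :=
        (Real.continuous_mul_log.comp continuous_norm).abs.add (by fun_prop)
      simpa using this.tendsto 0
    refine squeeze_zero_norm (fun u => ?_) h1
    rw [xl, norm_mul, abs_mul, abs_norm, ← mul_add]
    refine mul_le_mul_of_nonneg_left ((norm_le_abs_re_add_abs_im _).trans ?_) (norm_nonneg _)
    rw [log_re, log_im]
    linarith [abs_arg_le_pi u]
  · refine ContinuousAt.continuousWithinAt (continuousAt_id.mul (continuousAt_clog ?_))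
    have hu' : 0 ≤ u.re := hu
    rcases hu'.lt_or_eq with h | h
    · exact Or.inl h
    · exact Or.inr fun h2 => h0 (Complex.ext h.symm h2)

/-- Boundary-continuous form of the Cauchy transform in the half-plane `ε Im ζ ≥ 0`. -/
noncomputable def cs (ε : ℝ) (ζ : ℂ) : ℂ :=
  2 * ζ + (1 + ζ) * (ε * I) * xl (ε * I * (1 - ζ)) + (1 - ζ) * (ε * I) * xl (ε * I * (-1 - ζ))

/-- The Cauchy transform. -/
noncomputable def cint (ζ : ℂ) : ℂ := ∫ s in Icc (-1 : ℝ) 1, (1 - (s : ℂ) ^ 2) * (ζ - s)⁻¹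

theorem continuousOn_cs (ε : ℝ) : ContinuousOn (cs ε) {ζ | 0 ≤ ε * ζ.im} := by
  unfold cs
  refine ContinuousOn.add (ContinuousOn.add (by fun_prop) (ContinuousOn.mul (by fun_prop) ?_))
    (ContinuousOn.mul (by fun_prop) ?_)
  · refine continuousOn_xl.comp (by fun_prop) fun ζ hζ => ?_
    simpa using hζ
  · refine continuousOn_xl.comp (by fun_prop) fun ζ hζ => ?_
    simpa using hζ

theorem differentiableAt_cs {ε : ℝ} {ζ : ℂ} (h : 0 < ε * ζ.im) : DifferentiableAt ℂ (cs ε) ζ := by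
  unfold cs xl
  have h1 : DifferentiableAt ℂ (fun ζ : ℂ => log (ε * I * (1 - ζ))) ζ :=
    DifferentiableAt.clog (by fun_prop) (Or.inl (by simpa using h))
  have h2 : DifferentiableAt ℂ (fun ζ : ℂ => log (ε * I * (-1 - ζ))) ζ :=
    DifferentiableAt.clog (by fun_prop) (Or.inl (by simpa using h))
  fun_prop

theorem cint_eq {ε : ℝ} (hε : ε * ε = 1) {ζ : ℂ} (h : 0 < ε * ζ.im) : cint ζ = cs ε ζ := by
  have hε' : (ε : ℂ) * ε = 1 := by exact_mod_cast hε
  have hε0 : (ε : ℂ) ≠ 0 := fun h0 => by simp [h0] at hε'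
  have hne : ∀ s : ℝ, ζ - s ≠ 0 := fun s h0 => by
    have : ζ.im = 0 := by simpa using congrArg im h0
    simp [this] at h
  have hd : ∀ s ∈ uIcc (-1 : ℝ) 1, HasDerivAt
      (fun s : ℝ => (s : ℂ) ^ 2 / 2 + ζ * s - (1 - ζ ^ 2) * log (ε * I * (s - ζ)))
      ((1 - (s : ℂ) ^ 2) * (ζ - s)⁻¹) s := by
    intro s _
    have h1 : HasDerivAt (fun t : ℂ => ε * I * (t - ζ)) (ε * I) s := by
      simpa using ((hasDerivAt_id (s : ℂ)).sub_const ζ).const_mul (ε * I : ℂ)
    have h2 := h1.clog (Or.inl (by simpa using h))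
    have h3 : HasDerivAt (fun t : ℂ => t ^ 2 / 2 + ζ * t) (s + ζ) s := by
      have := (((hasDerivAt_id (s : ℂ)).pow 2).div_const 2).add
        ((hasDerivAt_id (s : ℂ)).const_mul ζ)
      refine HasDerivAt.congr_deriv this ?_
      simp
    have h4 := (h3.sub (h2.const_mul (1 - ζ ^ 2))).comp_ofReal
    refine HasDerivAt.congr_deriv h4 ?_
    have h5 := hne s
    have h6 : (s : ℂ) - ζ ≠ 0 := fun h0 => h5 (by linear_combination -h0)
    field_simp
    ring
  have hc : Continuous fun s : ℝ => (1 - (s : ℂ) ^ 2) * (ζ - s)⁻¹ :=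
    Continuous.mul (by fun_prop) (Continuous.inv₀ (by fun_prop) hne)
  rw [cint, integral_Icc_eq_integral_Ioc, ← intervalIntegral.integral_of_le (by norm_num),
    intervalIntegral.integral_eq_sub_of_hasDerivAt hd (hc.intervalIntegrable _ _)]
  simp only [cs, xl]
  push_cast
  have hI : (ε * I) * (ε * I) = (-1 : ℂ) := by
    linear_combination (I * I) * hε' + I_mul_I
  linear_combination (-(1 + ζ) * (1 - ζ) * log (ε * I * (1 - ζ)) -
    (1 - ζ) * (-1 - ζ) * log (ε * I * (-1 - ζ))) * hI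

theorem cs_jump : cs 1 0 - cs (-1) 0 ≠ 0 := by
  have h : cs 1 0 - cs (-1) 0 = -(2 * Real.pi * I) := by
    simp only [cs, xl]
    push_cast
    simp only [mul_zero, add_zero, sub_zero, one_mul, mul_one, zero_add, mul_neg, neg_mul, neg_neg,
      log_I, log_neg_I]
    linear_combination (2 * Real.pi * I) * I_mul_I
  rw [h]
  exact neg_ne_zero.2 two_pi_I_ne_zero

end Pool.Agent.Lib.MP_b71113_an
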