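import Pool.Agent.Lib.MP_b71113_an.Rect

/-! The hull of the cross `∂Ω + i Q` for a box `Ω`. -/

namespace Pool.Agent.Lib.MP_b71113_an

open Set Filter Topology Complex Metric

variable {n : ℕ}

theorem cross_hull {a b c : Fin n → ℝ} (hab : ∀ j, a j < b j) (hc : ∀ j, 0 ≤ c j)
    {F : Fin n → ℂ → ℂ}
    (h1 : ∀ j z, a j < z.re → z.re < b j → AnalyticAt ℂ (F j) z)
    (h2 : ∀ j z, a j < z.re → z.re < b j → |z.im| ≤ c j → (F j z).re ≤ 1)
    (h3 : ∀ j z, a j < z.re → z.re < b j → |z.im| = c j → (F j z).re = 0)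
    (h4 : ∀ j, {z | a j < z.re ∧ z.re < b j ∧ deriv (F j) z = 0}.Countable)
    {x : Fin n → ℝ} (hx : x ∈ univ.pi fun j => Ioo (a j) (b j))
    (hs : 1 < ∑ j, (F j (x j)).re) {φ : (Fin n → ℂ) → ℂ} (hφ : Differentiable ℂ φ) {M : ℝ}
    (hM0 : 0 ≤ M) (hM : ∀ w ∈ tube (frontier (univ.pi fun j => Ioo (a j) (b j))) c, ‖φ w‖ ≤ M) :
    ‖φ (ofR x)‖ ≤ M := by
  classical
  set Ω : Set (Fin n → ℝ) := univ.pi fun j => Ioo (a j) (b j) with hΩ
  have hΩo : IsOpen Ω := isOpen_set_pi finite_univ fun _ _ => isOpen_Ioo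
  have hcl : closure Ω = univ.pi fun j => Icc (a j) (b j) := by
    rw [hΩ, closure_pi_set]
    simp only [closure_Ioo (hab _).ne]
  have hclc : IsCompact (closure Ω) := by
    rw [hcl]; exact isCompact_univ_pi fun _ => isCompact_Icc
  set C : Fin n → Set ℝ := fun j => insert 0
    ((fun z => (F j z).re) '' {z | a j < z.re ∧ z.re < b j ∧ deriv (F j) z = 0}) with hC
  have hB : ((fun v : Fin n → ℝ => ∑ j, v j) '' univ.pi C).Countable :=
    (countable_univ_pi fun j => ((h4 j).image _).insert 0).image _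
  obtain ⟨s, hsB, hs1, hs2⟩ := (hB.dense_compl ℝ).exists_between hs
  set G : (Fin n → ℂ) → ℝ := fun z => ∑ j, (F j (z j)).re with hG
  have hGc : ∀ z : Fin n → ℂ, reV z ∈ Ω → ContinuousAt G z := by
    intro z hz
    refine tendsto_finsetSum _ fun j _ => ?_
    have := (h1 j (z j) (hz j (mem_univ _)).1 (hz j (mem_univ _)).2).continuousAt
    exact continuous_re.continuousAt.comp
      (ContinuousAt.comp (f := fun z : Fin n → ℂ => z j) this (continuous_apply j).continuousAt)
  have hO : IsOpen (reV ⁻¹' Ω ∩ G ⁻¹' Iio s) :=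
    ContinuousOn.isOpen_inter_preimage (fun z hz => (hGc z hz).continuousWithinAt)
      (hΩo.preimage continuous_reV) isOpen_Iio
  set L := tube (closure Ω) c \ (reV ⁻¹' Ω ∩ G ⁻¹' Iio s) with hL
  have hLc : IsCompact L := (isCompact_tube hclc c).diff hO
  have hxL : ofR x ∈ L := by
    refine ⟨ofR_mem_tube hc (subset_closure hx), fun h => ?_⟩
    have : ∑ j, (F j (x j)).re < s := h.2
    linarith
  obtain ⟨D, hD⟩ := hLc.exists_bound_of_continuousOn (f := fun z => ∑ j, ‖z j‖ ^ 2) (by fun_prop)
  have main : ∀ ε : ℝ, 0 < ε → ‖φ (ofR x)‖ ^ 2 ≤ M ^ 2 + ε ^ 2 * D := by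
    intro ε hε
    set v : (Fin n → ℂ) → EuclideanSpace ℂ (Option (Fin n)) := fun z =>
      WithLp.toLp 2 fun o => o.elim (φ z) fun j => ε * z j with hv
    have hvd : Differentiable ℂ v := by
      refine differentiable_euclidean.2 fun o => ?_
      cases o with
      | none => exact hφ
      | some j => exact Differentiable.const_mul (differentiable_apply j) (ε : ℂ)
    have hvn : ∀ z, ‖v z‖ ^ 2 = ‖φ z‖ ^ 2 + ε ^ 2 * ∑ j, ‖z j‖ ^ 2 := by
      intro z
      rw [EuclideanSpace.norm_sq_eq, Fintype.sum_option, Finset.mul_sum]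
      simp [hv, mul_pow]
    obtain ⟨p, hpL, hp⟩ := hLc.exists_isMaxOn ⟨_, hxL⟩ hvd.continuous.norm.continuousOn
    have nodisc : ∀ (γ : ℂ → Fin n → ℂ) (j : Fin n), γ 0 = p → (∀ ζ, γ ζ j = p j + ζ) →
        (∀ᶠ ζ in 𝓝 0, DifferentiableAt ℂ γ ζ) → (∀ᶠ ζ in 𝓝 0, γ ζ ∈ L) → False := by
      intro γ j e0 e1 e2 e3
      have e4 := eventually_eq_of_isLocalMax_norm (f := fun ζ => v (γ ζ)) (c := 0)
        (by filter_upwards [e2] with ζ h using (hvd _).comp ζ h)
        (by filter_upwards [e3] with ζ h; simpa [e0] using hp h)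
      have e5 : ∀ᶠ ζ : ℂ in 𝓝[≠] 0, False := by
        filter_upwards [nhdsWithin_le_nhds e4, self_mem_nhdsWithin] with ζ h hz
        have := congrArg (fun u : EuclideanSpace ℂ (Option (Fin n)) => u (some j)) h
        simp only [hv, Option.elim, e1, add_zero] at this
        have e6 := mul_left_cancel₀ (ofReal_ne_zero.2 hε.ne') this
        exact hz (by simpa using e6)
      exact e5.exists.elim fun _ h => h
    have hpn : reV p ∉ Ω := by
      intro hpΩ
      have hps : s ≤ G p := by
        by_contra hn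
        exact hpL.2 ⟨hpΩ, not_le.1 hn⟩
      have ha : ∀ j, a j < (p j).re := fun j => (hpΩ j (mem_univ _)).1
      have hb : ∀ j, (p j).re < b j := fun j => (hpΩ j (mem_univ _)).2
      have hzero : ∀ j, ¬ |(p j).im| < c j → (F j (p j)).re = 0 := fun j hj =>
        h3 j _ (ha j) (hb j) (le_antisymm (hpL.1.2 j) (not_lt.1 hj))
      have hin : ∀ (γ : ℂ → Fin n → ℂ), γ 0 = p → ContinuousAt γ 0 →
          (∀ ζ i, ¬ |(p i).im| < c i → γ ζ i = p i) → ∀ᶠ ζ in 𝓝 0, γ ζ ∈ tube (closure Ω) c := by
        intro γ e0 e1 e2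
        have e3 : ∀ᶠ ζ in 𝓝 0, reV (γ ζ) ∈ Ω :=
          (continuous_reV.continuousAt.comp e1).eventually (hΩo.mem_nhds (by simpa [e0] using hpΩ))
        have e4 : ∀ i, ∀ᶠ ζ in 𝓝 0, |(γ ζ i).im| ≤ c i := by
          intro i
          by_cases hi : |(p i).im| < c i
          · have e5 : ContinuousAt (fun ζ => |(γ ζ i).im|) 0 :=
              (continuous_im.continuousAt.comp ((continuous_apply i).continuousAt.comp e1)).abs
            filter_upwards [e5.eventually (gt_mem_nhds (by simpa [e0] using hi))] with ζ h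
              using h.le
          · exact Eventually.of_forall fun ζ => by rw [e2 ζ i hi]; exact hpL.1.2 i
        filter_upwards [e3, eventually_all.2 e4] with ζ e5 e6 using ⟨subset_closure e5, e6⟩
      by_cases hcase : ∃ k, |(p k).im| < c k ∧ deriv (F k) (p k) ≠ 0
      · obtain ⟨k, hk, hk'⟩ := hcase
        obtain ⟨j, hjk, hj⟩ : ∃ j, j ≠ k ∧ |(p j).im| < c j := by
          by_contra hn
          push Not at hn
          have e : G p = (F k (p k)).re :=
            Finset.sum_eq_single k (fun j _ hj => hzero j (not_lt.2 (hn j hj))) (by simp)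
          have := h2 k _ (ha k) (hb k) hk.le
          linarith
        have hak := h1 k _ (ha k) (hb k)
        have haj := h1 j _ (ha j) (hb j)
        set g := hak.hasStrictDerivAt.localInverse _ _ _ hk' with hg
        have hga : AnalyticAt ℂ g (F k (p k)) := hak.analyticAt_localInverse hk'
        have hg0 : g (F k (p k)) = p k := HasStrictFDerivAt.localInverse_apply_image ..
        have hgr : ∀ᶠ y in 𝓝 (F k (p k)), F k (g y) = y :=
          HasStrictDerivAt.eventually_right_inverse hak.hasStrictDerivAt hk'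
        set u : ℂ → ℂ := fun ζ => F k (p k) + F j (p j) - F j (p j + ζ) with hu
        have hu0 : u 0 = F k (p k) := by simp [hu]
        have hua : AnalyticAt ℂ u 0 := by
          refine analyticAt_const.sub ?_
          exact AnalyticAt.comp (f := fun ζ : ℂ => p j + ζ) (by simpa using haj) (by fun_prop)
        have hgu : AnalyticAt ℂ (fun ζ => g (u ζ)) 0 :=
          AnalyticAt.comp (f := u) (by rw [hu0]; exact hga) hua
        set γ : ℂ → Fin n → ℂ := fun ζ =>
          Function.update (Function.update p j (p j + ζ)) k (g (u ζ)) with hγ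
        have e0 : γ 0 = p := by simp [hγ, hu0, hg0]
        have e2 : ∀ᶠ ζ in 𝓝 0, DifferentiableAt ℂ γ ζ := by
          filter_upwards [hgu.eventually_analyticAt] with ζ hζ
          refine differentiableAt_pi.2 fun i => ?_
          by_cases hik : i = k
          · subst hik; simpa [hγ] using hζ.differentiableAt
          · by_cases hij : i = j
            · subst hij; simp only [hγ, Function.update_of_ne hik, Function.update_self]; fun_prop
            · simp [hγ, hik, hij]
        refine nodisc γ j e0 (fun ζ => by simp [hγ, hjk]) e2 ?_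
        have e3 := hin γ e0 e2.self_of_nhds.continuousAt fun ζ i hi => by
          have hik : i ≠ k := fun h => hi (h ▸ hk)
          have hij : i ≠ j := fun h => hi (h ▸ hj)
          simp [hγ, hik, hij]
        have e4 : ∀ᶠ ζ in 𝓝 0, F k (g (u ζ)) = u ζ :=
          (hua.continuousAt.tendsto.mono_right (by rw [hu0])).eventually hgr
        filter_upwards [e3, e4] with ζ e5 e6
        refine ⟨e5, fun h => ?_⟩
        have e7 : G (γ ζ) < s := h.2
        have e8 : G (γ ζ) - G p = 0 := by
          simp only [hG]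
          rw [← Finset.sum_sub_distrib, Fintype.sum_eq_add j k hjk]
          · simp only [hγ, Function.update_of_ne hjk, Function.update_self]
            rw [e6]
            simp only [hu, sub_re, add_re]
            ring
          · rintro i ⟨hij, hik⟩
            simp [hγ, hik, hij]
        linarith
      · push Not at hcase
        have hmem : G p ∈ (fun v : Fin n → ℝ => ∑ j, v j) '' univ.pi C := by
          refine ⟨fun j => (F j (p j)).re, fun j _ => ?_, rfl⟩
          by_cases hj : |(p j).im| < c j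
          · exact Or.inr ⟨p j, ⟨ha j, hb j, hcase j hj⟩, rfl⟩
          · exact Or.inl (hzero j hj)
        have hlt : s < G p := lt_of_le_of_ne hps fun h => hsB (h ▸ hmem)
        obtain ⟨j, hj⟩ : ∃ j, |(p j).im| < c j := by
          by_contra hn
          push Not at hn
          have e : G p = 0 := Finset.sum_eq_zero fun j _ => hzero j (not_lt.2 (hn j))
          linarith
        set γ : ℂ → Fin n → ℂ := fun ζ => Function.update p j (p j + ζ) with hγ
        have e0 : γ 0 = p := by simp [hγ]
        have e2 : Differentiable ℂ γ := by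
          refine differentiable_pi.2 fun i => ?_
          by_cases hij : i = j
          · subst hij; simp only [hγ, Function.update_self]; fun_prop
          · simp [hγ, hij]
        refine nodisc γ j e0 (fun ζ => by simp [hγ]) (Eventually.of_forall e2) ?_
        have e3 := hin γ e0 e2.continuous.continuousAt fun ζ i hi => by
          have hij : i ≠ j := fun h => hi (h ▸ hj)
          simp [hγ, hij]
        have e4 : ContinuousAt (fun ζ => G (γ ζ)) 0 :=
          ContinuousAt.comp (f := γ) (g := G) (x := 0) (by rw [e0]; exact hGc p hpΩ)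
            e2.continuous.continuousAt
        filter_upwards [e3, e4.eventually (lt_mem_nhds (by simpa [e0] using hlt))] with ζ e5 e6
        exact ⟨e5, fun h => absurd (show G (γ ζ) < s from h.2) (not_lt.2 e6.le)⟩
    have e1 : ‖φ p‖ ≤ M := hM p ⟨by rw [hΩo.frontier_eq]; exact ⟨hpL.1.1, hpn⟩, hpL.1.2⟩
    have e2 : ‖v (ofR x)‖ ≤ ‖v p‖ := hp hxL
    have e3 := pow_le_pow_left₀ (norm_nonneg _) e2 2
    rw [hvn, hvn] at e3
    have e4 := pow_le_pow_left₀ (norm_nonneg _) e1 2
    have e5 : ∑ j, ‖p j‖ ^ 2 ≤ D := (le_abs_self _).trans (hD p hpL)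
    have e6 : 0 ≤ ε ^ 2 * ∑ j, ‖ofR x j‖ ^ 2 := by positivity
    have e7 := mul_le_mul_of_nonneg_left e5 (sq_nonneg ε)
    linarith
  have hl : Tendsto (fun ε : ℝ => M ^ 2 + ε ^ 2 * D) (𝓝[>] 0) (𝓝 (M ^ 2)) := by
    have : Continuous fun ε : ℝ => M ^ 2 + ε ^ 2 * D := by fun_prop
    simpa using (this.tendsto 0).mono_left (nhdsWithin_le_nhds (s := Ioi 0))
  have := ge_of_tendsto hl (by filter_upwards [self_mem_nhdsWithin] with ε h using main ε h)
  exact (pow_le_pow_iff_left₀ (norm_nonneg _) hM0 two_ne_zero).1 this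

end Pool.Agent.Lib.MP_b71113_an
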