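import Mathlib

/-!
Definitions for the uniqueness problem on tube-type domains.
Points of `ℂⁿ` are functions `Fin n → ℂ`, points of `ℝⁿ` are functions `Fin n → ℝ`,
sign vectors are functions `Fin n → ℤˣ`.
-/

namespace Pool.Agent.Lib.MP_b71113_an

open Set Filter Topology

variable {n : ℕ}

/-- The real part `x` of `z = x + i y`. -/
def reV (z : Fin n → ℂ) : Fin n → ℝ := fun j => (z j).re

/-- The point `x + i 0` of `ℂⁿ`. -/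
def ofR (x : Fin n → ℝ) : Fin n → ℂ := fun j => (x j : ℂ)

/-- `D_σ(Ω,b) = {x + i y : x ∈ Ω, σ_j y_j > b_j for all j}`. -/
def Dsig (Ω : Set (Fin n → ℝ)) (b : Fin n → ℝ) (σ : Fin n → ℤˣ) : Set (Fin n → ℂ) :=
  {z | reV z ∈ Ω ∧ ∀ j, b j < ((σ j : ℤ) : ℝ) * (z j).im}

/-- `D^k_σ(Ω,b)`: the same set with the condition for `j = k` removed. -/
def Dksig (Ω : Set (Fin n → ℝ)) (b : Fin n → ℝ) (k : Fin n) (σ : Fin n → ℤˣ) :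
    Set (Fin n → ℂ) :=
  {z | reV z ∈ Ω ∧ ∀ j, j ≠ k → b j < ((σ j : ℤ) : ℝ) * (z j).im}

/-- `D(Ω,b)`, the union of the `D_σ(Ω,b)`. -/
def Dall (Ω : Set (Fin n → ℝ)) (b : Fin n → ℝ) : Set (Fin n → ℂ) := ⋃ σ, Dsig Ω b σ

/-- `D^k(Ω,b)`, the union of the `D^k_σ(Ω,b)`. -/
def Dkall (Ω : Set (Fin n → ℝ)) (b : Fin n → ℝ) (k : Fin n) : Set (Fin n → ℂ) :=
  ⋃ σ, Dksig Ω b k σ

/-- `f` is admissible for `c`, and `F σ` is the continuous extension of `f_σ` to the closure of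
`D_σ(Ω,0)`. -/
def Admissible (Ω : Set (Fin n → ℝ)) (c : Fin n → ℝ) (f : (Fin n → ℂ) → ℂ)
    (F : (Fin n → ℤˣ) → (Fin n → ℂ) → ℂ) : Prop :=
  DifferentiableOn ℂ f (Dall Ω 0) ∧
  (∀ σ, ContinuousOn (F σ) (closure (Dsig Ω 0 σ)) ∧ EqOn (F σ) f (Dsig Ω 0 σ)) ∧
  ∃ h : Fin n → (Fin n → ℂ) → ℂ, (∀ k, DifferentiableOn ℂ (h k) (Dkall Ω c k)) ∧
    ∀ z ∈ Dall Ω c, f z = ∑ k, h k z

/-- `g(x) = ∑_σ sign σ · f_σ(x)`, formed with the boundary values. -/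
noncomputable def gfun (F : (Fin n → ℤˣ) → (Fin n → ℂ) → ℂ) (x : Fin n → ℝ) : ℂ :=
  ∑ σ : Fin n → ℤˣ, (((∏ j, σ j : ℤˣ) : ℤ) : ℂ) * F σ (ofR x)

/-- `U(Ω,c)`: the union of all open `W ⊆ Ω` on which `g` vanishes for every admissible `f`. -/
def vanishingSet (Ω : Set (Fin n → ℝ)) (c : Fin n → ℝ) : Set (Fin n → ℝ) :=
  ⋃₀ {W | IsOpen W ∧ W ⊆ Ω ∧ ∀ f F, Admissible Ω c f F → ∀ x ∈ W, gfun F x = 0}

/-- `A + i Q`, where `Q = ∏ [-c_j, c_j]`. -/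
def tube (A : Set (Fin n → ℝ)) (c : Fin n → ℝ) : Set (Fin n → ℂ) :=
  {z | reV z ∈ A ∧ ∀ j, |(z j).im| ≤ c j}

/-- The real points of the holomorphic hull of `∂Ω + i Q`: those `x ∈ Ω` with
`|φ(x)| ≤ sup {|φ(w)| : w ∈ ∂Ω + i Q}` for every entire function `φ` on `ℂⁿ` that tends to `0`
at infinity in `closure Ω + i Q` (for bounded `Ω` the last condition is empty). -/
def hullSet (Ω : Set (Fin n → ℝ)) (c : Fin n → ℝ) : Set (Fin n → ℝ) :=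
  {x | x ∈ Ω ∧ ∀ φ : (Fin n → ℂ) → ℂ, Differentiable ℂ φ →
    Tendsto φ (cocompact (Fin n → ℂ) ⊓ 𝓟 (tube (closure Ω) c)) (𝓝 0) →
    ∀ M : ℝ, 0 ≤ M → (∀ w ∈ tube (frontier Ω) c, ‖φ w‖ ≤ M) → ‖φ (ofR x)‖ ≤ M}

end Pool.Agent.Lib.MP_b71113_an
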