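import Pool.Agent.Lib.MP_b71113_an.Shift

/-! The functional `φ ↦ ∫ χ g φ` is carried by `supp dχ + i Q'`. -/

namespace Pool.Agent.Lib.MP_b71113_an

open Set Filter Topology MeasureTheory Complex

variable {n : ℕ}

/-- Test functions: holomorphic near `supp χ + i Q'`, bounded by `B` on `supp dχ + i Q'`. -/
def Test (χ : (Fin n → ℝ) → ℝ) (c' : Fin n → ℝ) (φ : (Fin n → ℂ) → ℂ) (O : Set (Fin n → ℂ))
    (B : ℝ) : Prop :=
  IsOpen O ∧ DifferentiableOn ℂ φ O ∧ tube (tsupport χ) c' ⊆ O ∧ 0 ≤ B ∧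
    ∀ w ∈ tube {x | fderiv ℝ χ x ≠ 0} c', ‖φ w‖ ≤ B

/-- Functionals carried by `supp dχ + i Q'`. -/
def Bdd (χ : (Fin n → ℝ) → ℝ) (c' : Fin n → ℝ) (T : ((Fin n → ℂ) → ℂ) → ℂ) : Prop :=
  ∃ C : ℝ, ∀ φ O B, Test χ c' φ O B → ‖T φ‖ ≤ C * B

theorem Bdd.add {χ : (Fin n → ℝ) → ℝ} {c' : Fin n → ℝ} {T S : ((Fin n → ℂ) → ℂ) → ℂ}
    (hT : Bdd χ c' T) (hS : Bdd χ c' S) : Bdd χ c' fun φ => T φ + S φ := by
  obtain ⟨C, hC⟩ := hT
  obtain ⟨D, hD⟩ := hS
  refine ⟨C + D, fun φ O B h => (norm_add_le _ _).trans ?_⟩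
  have := hC φ O B h
  have := hD φ O B h
  linarith

theorem Bdd.const_mul {χ : (Fin n → ℝ) → ℝ} {c' : Fin n → ℝ} {T : ((Fin n → ℂ) → ℂ) → ℂ}
    (hT : Bdd χ c' T) (a : ℂ) : Bdd χ c' fun φ => a * T φ := by
  obtain ⟨C, hC⟩ := hT
  refine ⟨‖a‖ * C, fun φ O B h => ?_⟩
  rw [norm_mul, mul_assoc]
  exact mul_le_mul_of_nonneg_left (hC φ O B h) (norm_nonneg _)

theorem Bdd.sum {χ : (Fin n → ℝ) → ℝ} {c' : Fin n → ℝ} {ι : Type} (s : Finset ι)
    {T : ι → ((Fin n → ℂ) → ℂ) → ℂ} (hT : ∀ i, Bdd χ c' (T i)) :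
    Bdd χ c' fun φ => ∑ i ∈ s, T i φ := by
  classical
  induction s using Finset.induction_on with
  | empty => exact ⟨0, fun φ O B _ => by simp⟩
  | insert a s ha ih =>
    simp only [Finset.sum_insert ha]
    exact (hT a).add ih

theorem Bdd.congr {χ : (Fin n → ℝ) → ℝ} {c' : Fin n → ℝ} {T S : ((Fin n → ℂ) → ℂ) → ℂ}
    (hT : Bdd χ c' T) (h : ∀ φ O B, Test χ c' φ O B → S φ = T φ) : Bdd χ c' S := by
  obtain ⟨C, hC⟩ := hT
  exact ⟨C, fun φ O B ht => by rw [h φ O B ht]; exact hC φ O B ht⟩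

theorem pt_mem_tube {A : Set (Fin n → ℝ)} {c x y : Fin n → ℝ} (hx : x ∈ A)
    (hy : ∀ j, |y j| ≤ c j) : pt x y ∈ tube A c :=
  ⟨by simpa using hx, fun j => by simpa using hy j⟩

theorem isCompact_seg {K : Set (Fin n → ℝ)} (hK : IsCompact K) (y v : Fin n → ℝ) :
    IsCompact ((fun p : (Fin n → ℝ) × ℝ => pt p.1 (y + p.2 • v)) '' (K ×ˢ Icc (0 : ℝ) 1)) :=
  (hK.prod isCompact_Icc).image (continuous_pt.comp (continuous_fst.prodMk (by fun_prop)))

/-- Shifting the contour inside the domain of a holomorphic factor `u`. -/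
theorem bdd_shift_le {χ : (Fin n → ℝ) → ℝ} (hχ : ContDiff ℝ 1 χ) (hc : HasCompactSupport χ)
    {c' : Fin n → ℝ} {u : (Fin n → ℂ) → ℂ} {V : Set (Fin n → ℂ)} (hV : IsOpen V)
    (hu : DifferentiableOn ℂ u V) (y v : Fin n → ℝ)
    (hin : ∀ x ∈ tsupport χ, ∀ s ∈ Icc (0 : ℝ) 1, pt x (y + s • v) ∈ V)
    (hy : ∀ s ∈ Icc (0 : ℝ) 1, ∀ j, |(y + s • v) j| ≤ c' j) {A : ℝ}
    (hA : ∀ x ∈ tsupport χ, ∀ s ∈ Icc (0 : ℝ) 1, ‖u (pt x (y + s • v))‖ ≤ A)
    {φ : (Fin n → ℂ) → ℂ} {O : Set (Fin n → ℂ)} {B : ℝ} (h : Test χ c' φ O B) :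
    ‖(∫ x, (χ x : ℂ) * (u (pt x (y + v)) * φ (pt x (y + v)))) -
      ∫ x, (χ x : ℂ) * (u (pt x y) * φ (pt x y))‖ ≤ A * B * ∫ x, |fderiv ℝ χ x v| := by
  obtain ⟨hO, hφ, hsub, hB0, hB⟩ := h
  refine shift (G := fun z => u z * φ z) hχ hc (hV.inter hO)
    ((hu.mono inter_subset_left).mul (hφ.mono inter_subset_right)) y v
    (fun x hx s hs => ⟨hin x hx s hs, hsub (pt_mem_tube hx (hy s hs))⟩) ?_
  intro x hx s hs
  have hx' : x ∈ tsupport χ := support_fderiv_subset ℝ hx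
  rw [norm_mul]
  have h1 := hA x hx' s hs
  exact mul_le_mul h1 (hB _ (pt_mem_tube hx (hy s hs))) (norm_nonneg _)
    ((norm_nonneg _).trans h1)

theorem bdd_shift {χ : (Fin n → ℝ) → ℝ} (hχ : ContDiff ℝ 1 χ) (hc : HasCompactSupport χ)
    {c' : Fin n → ℝ} {u : (Fin n → ℂ) → ℂ} {V : Set (Fin n → ℂ)} (hV : IsOpen V)
    (hu : DifferentiableOn ℂ u V) (y v : Fin n → ℝ)
    (hin : ∀ x ∈ tsupport χ, ∀ s ∈ Icc (0 : ℝ) 1, pt x (y + s • v) ∈ V)
    (hy : ∀ s ∈ Icc (0 : ℝ) 1, ∀ j, |(y + s • v) j| ≤ c' j) :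
    Bdd χ c' fun φ => (∫ x, (χ x : ℂ) * (u (pt x (y + v)) * φ (pt x (y + v)))) -
      ∫ x, (χ x : ℂ) * (u (pt x y) * φ (pt x y)) := by
  obtain ⟨A, hA⟩ := (isCompact_seg hc y v).exists_bound_of_continuousOn (f := u)
    (hu.continuousOn.mono (by rintro _ ⟨p, hp, rfl⟩; exact hin _ hp.1 _ hp.2))
  refine ⟨A * ∫ x, |fderiv ℝ χ x v|, fun φ O B h => ?_⟩
  have := bdd_shift_le hχ hc hV hu y v hin hy (A := A)
    (fun x hx s hs => hA _ ⟨(x, s), ⟨hx, hs⟩, rfl⟩) h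
  linarith

/-- The real vector `σ`. -/
def sv (σ : Fin n → ℤˣ) (j : Fin n) : ℝ := ((σ j : ℤ) : ℝ)

theorem sv_sq (σ : Fin n → ℤˣ) (j : Fin n) : sv σ j * sv σ j = 1 := by
  unfold sv
  rcases Int.units_eq_one_or (σ j) with h | h <;> simp [h]

theorem abs_sv (σ : Fin n → ℤˣ) (j : Fin n) : |sv σ j| = 1 := by
  unfold sv
  rcases Int.units_eq_one_or (σ j) with h | h <;> simp [h]

theorem isOpen_Dsig {Ω : Set (Fin n → ℝ)} (hΩ : IsOpen Ω) (b : Fin n → ℝ) (σ : Fin n → ℤˣ) :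
    IsOpen (Dsig Ω b σ) := by
  have : Dsig Ω b σ = reV ⁻¹' Ω ∩ ⋂ j, {z | b j < ((σ j : ℤ) : ℝ) * (z j).im} := by
    ext z; simp [Dsig]
  rw [this]
  refine (hΩ.preimage continuous_reV).inter (isOpen_iInter_of_finite fun j => ?_)
  exact isOpen_lt continuous_const (by fun_prop)

theorem isOpen_Dksig {Ω : Set (Fin n → ℝ)} (hΩ : IsOpen Ω) (b : Fin n → ℝ) (k : Fin n)
    (σ : Fin n → ℤˣ) : IsOpen (Dksig Ω b k σ) := by
  have : Dksig Ω b k σ =
      reV ⁻¹' Ω ∩ ⋂ j, ⋂ (_ : j ≠ k), {z | b j < ((σ j : ℤ) : ℝ) * (z j).im} := by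
    ext z; simp [Dksig]
  rw [this]
  refine (hΩ.preimage continuous_reV).inter (isOpen_iInter_of_finite fun j =>
    isOpen_iInter_of_finite fun _ => ?_)
  exact isOpen_lt continuous_const (by fun_prop)

theorem pt_mem_closure {Ω : Set (Fin n → ℝ)} {σ : Fin n → ℤˣ} {x y : Fin n → ℝ} (hx : x ∈ Ω)
    (hy : ∀ j, 0 ≤ sv σ j * y j) : pt x y ∈ closure (Dsig Ω 0 σ) := by
  have hc : Continuous fun t : ℝ => pt x (y + t • sv σ) :=
    continuous_pt.comp (continuous_const.prodMk (by fun_prop))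
  have ht : Tendsto (fun t : ℝ => pt x (y + t • sv σ)) (𝓝[>] 0) (𝓝 (pt x y)) := by
    have := (hc.tendsto 0).mono_left (nhdsWithin_le_nhds (s := Ioi 0))
    simpa using this
  refine mem_closure_of_tendsto ht ?_
  filter_upwards [self_mem_nhdsWithin] with t ht
  refine ⟨by simpa using hx, fun j => ?_⟩
  have h1 := hy j
  have h2 := sv_sq σ j
  have h3 : (0 : ℝ) < t := ht
  simp only [pt_im, Pi.add_apply, Pi.smul_apply, smul_eq_mul, Pi.zero_apply]
  change 0 < sv σ j * _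
  nlinarith

theorem continuousOn_F {Ω : Set (Fin n → ℝ)} {σ : Fin n → ℤˣ} {F : (Fin n → ℂ) → ℂ}
    (hF : ContinuousOn F (closure (Dsig Ω 0 σ))) : ContinuousOn (fun x => F (ofR x)) Ω :=
  hF.comp continuous_ofR.continuousOn fun x hx => by
    rw [← pt_zero]; exact pt_mem_closure hx fun j => by simp

theorem continuousOn_gfun {Ω : Set (Fin n → ℝ)} {c : Fin n → ℝ} {f : (Fin n → ℂ) → ℂ}
    {F : (Fin n → ℤˣ) → (Fin n → ℂ) → ℂ} (h : Admissible Ω c f F) :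
    ContinuousOn (gfun F) Ω :=
  continuousOn_finsetSum _ fun σ _ => continuousOn_const.mul (continuousOn_F (h.2.1 σ).1)

/-- Moving `f_σ` from the real space to the corner `σ c'`. -/
theorem bdd_start {χ : (Fin n → ℝ) → ℝ} (hχ : ContDiff ℝ 1 χ) (hc : HasCompactSupport χ)
    {Ω : Set (Fin n → ℝ)} (hΩ : IsOpen Ω) (hχΩ : tsupport χ ⊆ Ω)
    {c' : Fin n → ℝ} (hc' : ∀ j, 0 < c' j) {σ : Fin n → ℤˣ} {f F : (Fin n → ℂ) → ℂ}
    (hf : DifferentiableOn ℂ f (Dsig Ω 0 σ)) (hF : ContinuousOn F (closure (Dsig Ω 0 σ)))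
    (hFf : EqOn F f (Dsig Ω 0 σ)) :
    Bdd χ c' fun φ => (∫ x, (χ x : ℂ) * (f (pt x (sv σ * c')) * φ (pt x (sv σ * c')))) -
      ∫ x, (χ x : ℂ) * (F (ofR x) * φ (ofR x)) := by
  set y : Fin n → ℝ := sv σ * c' with hy
  have hcl : ∀ x ∈ tsupport χ, ∀ s ∈ Icc (0 : ℝ) 1, pt x (s • y) ∈ closure (Dsig Ω 0 σ) := by
    intro x hx s hs
    refine pt_mem_closure (hχΩ hx) fun j => ?_
    have h2 := sv_sq σ j
    have h3 := mul_nonneg hs.1 (hc' j).le
    simp only [hy, Pi.smul_apply, Pi.mul_apply, smul_eq_mul]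
    nlinarith
  have hop : ∀ x ∈ tsupport χ, ∀ s : ℝ, 0 < s → pt x (s • y) ∈ Dsig Ω 0 σ := by
    intro x hx s hs
    refine ⟨by simpa using hχΩ hx, fun j => ?_⟩
    have h2 := sv_sq σ j
    have h3 := mul_pos hs (hc' j)
    simp only [hy, pt_im, Pi.smul_apply, Pi.mul_apply, smul_eq_mul, Pi.zero_apply]
    change 0 < sv σ j * _
    nlinarith
  have hab : ∀ s ∈ Icc (0 : ℝ) 1, ∀ j, |(s • y) j| ≤ c' j := by
    intro s hs j
    simp only [hy, Pi.smul_apply, Pi.mul_apply, smul_eq_mul, abs_mul, abs_sv, one_mul,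
      abs_of_nonneg hs.1, abs_of_pos (hc' j)]
    nlinarith [hs.2, hc' j]
  obtain ⟨A, hA⟩ := (isCompact_seg hc 0 y).exists_bound_of_continuousOn (f := F)
    (hF.mono (by rintro _ ⟨p, hp, rfl⟩; simpa using hcl _ hp.1 _ hp.2))
  have hA' : ∀ x ∈ tsupport χ, ∀ s ∈ Icc (0 : ℝ) 1, ‖F (pt x (s • y))‖ ≤ |A| := fun x hx s hs =>
    (hA _ ⟨(x, s), ⟨hx, hs⟩, by simp⟩).trans (le_abs_self _)
  refine ⟨|A| * ∫ x, |fderiv ℝ χ x y|, fun φ O B h => ?_⟩
  have hseg : ∀ ε s : ℝ, ε • y + s • (1 - ε) • y = (ε + s * (1 - ε)) • y := by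
    intro ε s; rw [smul_smul, add_smul]
  have hFd : DifferentiableOn ℂ F (Dsig Ω 0 σ) := hf.congr hFf
  have hε : ∀ ε ∈ Ioc (0 : ℝ) 1, ‖(∫ x, (χ x : ℂ) * (f (pt x y) * φ (pt x y))) -
      ∫ x, (χ x : ℂ) * (F (pt x (ε • y)) * φ (pt x (ε • y)))‖ ≤
      (|A| * ∫ x, |fderiv ℝ χ x y|) * B := by
    intro ε hε
    have hm : ∀ s ∈ Icc (0 : ℝ) 1, ε + s * (1 - ε) ∈ Ioc (0 : ℝ) 1 := fun s hs =>
      ⟨by nlinarith [hε.1, hε.2, hs.1, hs.2], by nlinarith [hε.1, hε.2, hs.1, hs.2]⟩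
    have := bdd_shift_le hχ hc (isOpen_Dsig hΩ 0 σ) hFd (ε • y) ((1 - ε) • y)
      (fun x hx s hs => by rw [hseg]; exact hop x hx _ (hm s hs).1)
      (fun s hs => by rw [hseg]; exact hab _ (Ioc_subset_Icc_self (hm s hs))) (A := |A|)
      (fun x hx s hs => by rw [hseg]; exact hA' x hx _ (Ioc_subset_Icc_self (hm s hs))) h
    have e1 : ε • y + (1 - ε) • y = y := by rw [← add_smul]; simp
    rw [e1] at this
    have e2 : ∫ x, (χ x : ℂ) * (F (pt x y) * φ (pt x y)) =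
        ∫ x, (χ x : ℂ) * (f (pt x y) * φ (pt x y)) := by
      congr 1
      funext x
      by_cases hx : x ∈ tsupport χ
      · have := hop x hx 1 one_pos
        rw [one_smul] at this
        rw [hFf this]
      · simp [image_eq_zero_of_notMem_tsupport hx]
    rw [e2] at this
    refine this.trans ?_
    have e3 : ∫ x, |fderiv ℝ χ x ((1 - ε) • y)| = (1 - ε) * ∫ x, |fderiv ℝ χ x y| := by
      rw [← integral_const_mul]
      congr 1
      funext x
      rw [map_smul, smul_eq_mul, abs_mul, abs_of_nonneg (by linarith [hε.2])]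
    rw [e3]
    have h1 : 0 ≤ ∫ x, |fderiv ℝ χ x y| := integral_nonneg fun x => abs_nonneg _
    have h2 := mul_nonneg (mul_nonneg (abs_nonneg A) h.2.2.2.1) h1
    nlinarith [hε.1]
  obtain ⟨hO, hφ, hsub, hB0, hB⟩ := h
  have hχc : Continuous fun x => (χ x : ℂ) := continuous_ofReal.comp hχ.continuous
  have z0 : ∀ x, x ∉ tsupport χ → (χ x : ℂ) = 0 := fun x hx => by
    simp [image_eq_zero_of_notMem_tsupport hx]
  have hprod : ContinuousOn (fun z => F z * φ z)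
      ((fun p : (Fin n → ℝ) × ℝ => pt p.1 (0 + p.2 • y)) '' (tsupport χ ×ˢ Icc (0 : ℝ) 1)) := by
    refine (hF.mono ?_).mul (hφ.continuousOn.mono ?_)
    · rintro _ ⟨p, hp, rfl⟩; simpa using hcl _ hp.1 _ hp.2
    · rintro _ ⟨p, hp, rfl⟩; simpa using hsub (pt_mem_tube hp.1 (hab _ hp.2))
  obtain ⟨A', hA2⟩ := (isCompact_seg hc 0 y).exists_bound_of_continuousOn hprod
  have hlim : Tendsto (fun ε : ℝ => ∫ x, (χ x : ℂ) * (F (pt x (ε • y)) * φ (pt x (ε • y))))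
      (𝓝[Icc 0 1] 0) (𝓝 (∫ x, (χ x : ℂ) * (F (ofR x) * φ (ofR x)))) := by
    refine tendsto_integral_filter_of_dominated_convergence (fun x => ‖(χ x : ℂ)‖ * A') ?_ ?_ ?_ ?_
    · filter_upwards [self_mem_nhdsWithin] with ε hε
      refine (integrable_cut hc hχc z0 ?_).aestronglyMeasurable
      have hpt : Continuous fun x : Fin n → ℝ => pt x (ε • y) :=
        continuous_pt.comp (continuous_id.prodMk continuous_const)
      exact hprod.comp hpt.continuousOn fun x hx => ⟨(x, ε), ⟨hx, hε⟩, by simp⟩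
    · filter_upwards [self_mem_nhdsWithin] with ε hε
      refine Eventually.of_forall fun x => ?_
      by_cases hx : x ∈ tsupport χ
      · rw [norm_mul]
        exact mul_le_mul_of_nonneg_left (hA2 _ ⟨(x, ε), ⟨hx, hε⟩, by simp⟩) (norm_nonneg _)
      · simp [z0 x hx]
    · refine Integrable.mul_const ?_ _
      refine (hχc.integrable_of_hasCompactSupport ?_).norm
      exact hc.comp_left (g := fun t : ℝ => (t : ℂ)) ofReal_zero
    · refine Eventually.of_forall fun x => ?_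
      by_cases hx : x ∈ tsupport χ
      · refine Tendsto.const_mul _ ?_
        have hpt : Continuous fun ε : ℝ => pt x (ε • y) :=
          continuous_pt.comp (continuous_const.prodMk (by fun_prop))
        have := hprod.comp hpt.continuousOn (s := Icc 0 1)
          (fun ε hε => ⟨(x, ε), ⟨hx, hε⟩, by simp⟩) 0 ⟨le_rfl, zero_le_one⟩
        simpa [ContinuousWithinAt, pt_zero, Function.comp_def] using this
      · simp [z0 x hx]
  have hlim' := ((tendsto_const_nhds (x := ∫ x, (χ x : ℂ) * (f (pt x y) * φ (pt x y)))).sub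
    (hlim.mono_left (nhdsWithin_mono _ Ioc_subset_Icc_self))).norm
  have : (𝓝[Ioc (0 : ℝ) 1] 0).NeBot := by
    rw [nhdsWithin_Ioc_eq_nhdsGT one_pos]; infer_instance
  refine le_of_tendsto hlim' ?_
  filter_upwards [self_mem_nhdsWithin] with ε h using hε ε h

/-- The sign of `σ` as a complex number. -/
noncomputable def sgn (σ : Fin n → ℤˣ) : ℂ := (((∏ j, σ j : ℤˣ) : ℤ) : ℂ)

/-- Changing the `k`-th sign. -/
def flip (k : Fin n) (σ : Fin n → ℤˣ) : Fin n → ℤˣ := Function.update σ k (-σ k)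

theorem flip_flip (k : Fin n) (σ : Fin n → ℤˣ) : flip k (flip k σ) = σ := by
  simp [flip]

theorem sgn_flip (k : Fin n) (σ : Fin n → ℤˣ) : sgn (flip k σ) = -sgn σ := by
  have : ∏ j, flip k σ j = -∏ j, σ j := by
    unfold flip
    rw [Finset.prod_update_of_mem (Finset.mem_univ k),
      ← Finset.mul_prod_erase Finset.univ σ (Finset.mem_univ k), Finset.sdiff_singleton_eq_erase,
      neg_mul]
  simp [sgn, this]

theorem sum_flip (k : Fin n) (J : (Fin n → ℤˣ) → ℂ) :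
    ∑ σ, sgn σ * J σ = (1 / 2 : ℂ) * ∑ σ, sgn σ * (J σ - J (flip k σ)) := by
  have h : ∑ σ, sgn σ * J (flip k σ) = -∑ σ, sgn σ * J σ := by
    rw [← Finset.sum_neg_distrib]
    refine Fintype.sum_equiv (Function.Involutive.toPerm (flip k) (flip_flip k)) _ _ fun σ => ?_
    simp [sgn_flip]
  simp only [mul_sub, Finset.sum_sub_distrib, h]
  ring

theorem bdd_gfun {χ : (Fin n → ℝ) → ℝ} (hχ : ContDiff ℝ 1 χ) (hc : HasCompactSupport χ)
    {Ω : Set (Fin n → ℝ)} (hΩ : IsOpen Ω) (hχΩ : tsupport χ ⊆ Ω)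
    {c c' : Fin n → ℝ} (hc0 : ∀ j, 0 ≤ c j) (hcc : ∀ j, c j < c' j) {f : (Fin n → ℂ) → ℂ}
    {F : (Fin n → ℤˣ) → (Fin n → ℂ) → ℂ} (h : Admissible Ω c f F) :
    Bdd χ c' fun φ => ∫ x, (χ x : ℂ) * (gfun F x * φ (ofR x)) := by
  have hc' : ∀ j, 0 < c' j := fun j => (hc0 j).trans_lt (hcc j)
  obtain ⟨hf, hF, hk, hhk, hsum⟩ := h
  have hχc : Continuous fun x => (χ x : ℂ) := continuous_ofReal.comp hχ.continuous
  have z0 : ∀ x, x ∉ tsupport χ → (χ x : ℂ) = 0 := fun x hx => by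
    simp [image_eq_zero_of_notMem_tsupport hx]
  have habs : ∀ (σ : Fin n → ℤˣ) (j : Fin n), |(sv σ * c' : Fin n → ℝ) j| ≤ c' j := fun σ j => by
    simp [abs_mul, abs_sv, abs_of_pos (hc' j)]
  have hcorner : ∀ σ, ∀ x ∈ tsupport χ, pt x (sv σ * c') ∈ Dsig Ω c σ := by
    intro σ x hx
    refine ⟨by simpa using hχΩ hx, fun j => ?_⟩
    have h2 := sv_sq σ j
    have h3 := hcc j
    simp only [pt_im, Pi.mul_apply]
    change c j < sv σ j * _
    rw [← mul_assoc, h2, one_mul]; exact h3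
  set J : Fin n → (Fin n → ℤˣ) → ((Fin n → ℂ) → ℂ) → ℂ := fun k σ φ =>
    ∫ x, (χ x : ℂ) * (hk k (pt x (sv σ * c')) * φ (pt x (sv σ * c'))) with hJ
  have h1 : ∀ k σ, Bdd χ c' fun φ => J k σ φ - J k (flip k σ) φ := by
    intro k σ
    have hseg : ∀ s : ℝ, ∀ j, (sv (flip k σ) * c' + s • (sv σ * c' - sv (flip k σ) * c')) j =
        if j = k then (2 * s - 1) * (sv σ j * c' j) else sv σ j * c' j := by
      intro s j
      by_cases hj : j = k
      · subst hj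
        simp [sv, flip]
        ring
      · simp [sv, flip, hj]
    have := bdd_shift hχ hc (c' := c') (isOpen_Dksig hΩ c k σ)
      ((hhk k).mono (subset_iUnion (Dksig Ω c k) σ)) (sv (flip k σ) * c')
      (sv σ * c' - sv (flip k σ) * c') ?_ ?_
    · simpa only [add_sub_cancel] using this
    · intro x hx s _
      refine ⟨by simpa using hχΩ hx, fun j hj => ?_⟩
      rw [pt_im, hseg, if_neg hj]
      change c j < sv σ j * _
      rw [← mul_assoc, sv_sq, one_mul]; exact hcc j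
    · intro s hs j
      rw [hseg]
      have := habs σ j
      simp only [Pi.mul_apply] at this
      split_ifs
      · rw [abs_mul]
        have h3 : |2 * s - 1| ≤ 1 := abs_le.2 ⟨by linarith [hs.1], by linarith [hs.2]⟩
        nlinarith [abs_nonneg (sv σ j * c' j), abs_nonneg (2 * s - 1)]
      · exact this
  have h2 : ∀ k, Bdd χ c' fun φ => ∑ σ, sgn σ * J k σ φ := by
    intro k
    refine ((Bdd.sum Finset.univ fun σ => (h1 k σ).const_mul (sgn σ)).const_mul (1 / 2)).congr ?_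
    intro φ _ _ _
    exact sum_flip k fun σ => J k σ φ
  have h3 := Bdd.sum Finset.univ h2
  have h4 := Bdd.sum Finset.univ fun σ => (bdd_start hχ hc hΩ hχΩ hc'
    (hf.mono (subset_iUnion (Dsig Ω 0) σ)) (hF σ).1 (hF σ).2).const_mul (-sgn σ)
  refine (h3.add h4).congr ?_
  rintro φ O B ⟨hO, hφ, hsub, hB0, hB⟩
  have hpt : ∀ y, Continuous fun x : Fin n → ℝ => pt x y := fun y =>
    continuous_pt.comp (continuous_id.prodMk continuous_const)
  have e1 : ∀ σ, ∫ x, (χ x : ℂ) * (f (pt x (sv σ * c')) * φ (pt x (sv σ * c'))) =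
      ∑ k, J k σ φ := by
    intro σ
    rw [← integral_finsetSum]
    · congr 1
      funext x
      by_cases hx : x ∈ tsupport χ
      · rw [hsum _ (mem_iUnion.2 ⟨σ, hcorner σ x hx⟩), Finset.sum_mul, Finset.mul_sum]
      · simp [z0 x hx]
    · intro k _
      refine integrable_cut hc hχc z0 (ContinuousOn.mul ?_ ?_)
      · refine (hhk k).continuousOn.comp (hpt _).continuousOn fun x hx => ?_
        exact mem_iUnion.2 ⟨σ, (hcorner σ x hx).1, fun j _ => (hcorner σ x hx).2 j⟩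
      · exact hφ.continuousOn.comp (hpt _).continuousOn fun x hx =>
          hsub (pt_mem_tube hx (habs σ))
  have e2 : ∫ x, (χ x : ℂ) * (gfun F x * φ (ofR x)) =
      ∑ σ, sgn σ * ∫ x, (χ x : ℂ) * (F σ (ofR x) * φ (ofR x)) := by
    simp_rw [← integral_const_mul]
    rw [← integral_finsetSum]
    · congr 1
      funext x
      simp only [gfun, Finset.sum_mul, Finset.mul_sum, sgn]
      refine Finset.sum_congr rfl fun σ _ => by ring
    · intro σ _
      refine Integrable.const_mul (integrable_cut hc hχc z0 (ContinuousOn.mul ?_ ?_)) _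
      · exact (continuousOn_F (hF σ).1).mono hχΩ
      · refine hφ.continuousOn.comp continuous_ofR.continuousOn fun x hx => ?_
        rw [← pt_zero]
        exact hsub (pt_mem_tube hx fun j => by simpa using (hc' j).le)
  rw [e2]
  simp_rw [e1]
  rw [Finset.sum_comm, ← Finset.sum_add_distrib]
  refine Finset.sum_congr rfl fun σ _ => ?_
  rw [← Finset.mul_sum]
  ring

end Pool.Agent.Lib.MP_b71113_an
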