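import Pool.Agent.Lib.MP_b71113_an.Lower

/-! Splitting a functional carried by `∂Ω + i Q` into `n` holomorphic pieces (convex `Ω`). -/

namespace Pool.Agent.Lib.MP_b71113_an

open Set Filter Topology Complex Metric BoundedContinuousFunction

variable {n : ℕ}

/-- The Cauchy kernel. -/
noncomputable def ker (z w : Fin n → ℂ) : ℂ := ∏ j, (z j - w j)⁻¹

theorem exists_functional {A X : Type} [AddCommGroup A] [Module ℂ A] [NormedAddCommGroup X]
    [NormedSpace ℂ X] (T : A →ₗ[ℂ] X) (l : A →ₗ[ℂ] ℂ) (C : ℝ) (h : ∀ a, ‖l a‖ ≤ C * ‖T a‖) :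
    ∃ Λ : X →L[ℂ] ℂ, ∀ a, Λ (T a) = l a := by
  have hk : LinearMap.ker T ≤ LinearMap.ker l := by
    intro a ha
    have h1 := h a
    rw [LinearMap.mem_ker.1 ha, norm_zero, mul_zero] at h1
    exact LinearMap.mem_ker.2 (norm_le_zero_iff.1 h1)
  set l' : LinearMap.range T →ₗ[ℂ] ℂ :=
    ((LinearMap.ker T).liftQ l hk).comp T.quotKerEquivRange.symm.toLinearMap with hl'
  have h1 : ∀ a, l' ⟨T a, LinearMap.mem_range_self T a⟩ = l a := by
    intro a
    simp [hl', LinearMap.quotKerEquivRange_symm_apply_image]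
  have h2 : ∀ x, ‖l' x‖ ≤ C * ‖x‖ := by
    rintro ⟨_, a, rfl⟩
    exact (congrArg norm (h1 a)).le.trans (h a)
  obtain ⟨g, hg, -⟩ := exists_extension_norm_eq (LinearMap.range T) (l'.mkContinuous C h2)
  exact ⟨g, fun a => (hg ⟨T a, LinearMap.mem_range_self T a⟩).trans (h1 a)⟩

section Disc

variable {ι : Type} [TopologicalSpace ι] [DiscreteTopology ι]

open Classical in
/-- A bounded function as an element of the Banach algebra of bounded functions. -/
noncomputable def res (u : ι → ℂ) : ι →ᵇ ℂ :=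
  if h : ∃ C, ∀ i, ‖u i‖ ≤ C then ofNormedAddCommGroupDiscrete u h.choose h.choose_spec else 0

theorem res_apply {u : ι → ℂ} (h : ∃ C, ∀ i, ‖u i‖ ≤ C) (i : ι) : res u i = u i := by
  simp [res, h]

/-- The inverse of an affine form. -/
noncomputable def rinv (α : ι → Fin n → ℂ) (β : ι → ℂ) (z : Fin n → ℂ) : ι →ᵇ ℂ :=
  res fun i => (∑ j, α i j * z j - β i)⁻¹

theorem rinv_apply {α : ι → Fin n → ℂ} {β : ι → ℂ} {z : Fin n → ℂ} {δ : ℝ} (hδ : 0 < δ)
    (h : ∀ i, δ ≤ ‖∑ j, α i j * z j - β i‖) (i : ι) :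
    rinv α β z i = (∑ j, α i j * z j - β i)⁻¹ := by
  refine res_apply ⟨δ⁻¹, fun i => ?_⟩ i
  rw [norm_inv]
  exact inv_anti₀ hδ (h i)

theorem differentiableAt_rinv {α : ι → Fin n → ℂ} (hα : ∀ i j, ‖α i j‖ ≤ 1) {β : ι → ℂ}
    {z₀ : Fin n → ℂ} {δ : ℝ} (hδ : 0 < δ) (h : ∀ i, δ ≤ ‖∑ j, α i j * z₀ j - β i‖) :
    DifferentiableAt ℂ (rinv α β) z₀ := by
  set R₀ := rinv α β z₀ with hR₀
  set A : (Fin n → ℂ) → ι →ᵇ ℂ := fun z =>
    1 + (∑ j, (z j - z₀ j) • res fun i => α i j) * R₀ with hA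
  have hAd : Differentiable ℂ A := by
    refine Differentiable.const_add _ (Differentiable.mul_const ?_ _)
    refine Differentiable.fun_sum fun j _ => ?_
    exact Differentiable.smul_const (by fun_prop) _
  have hA0 : A z₀ = 1 := by simp [hA]
  have hu : ∀ᶠ z in 𝓝 z₀, IsUnit (A z) :=
    hAd.continuous.continuousAt.eventually (Units.isOpen.mem_nhds (by rw [hA0]; exact isUnit_one))
  have hd : DifferentiableAt ℂ (fun z => R₀ * Ring.inverse (A z)) z₀ := by
    refine DifferentiableAt.const_mul ?_ _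
    exact (differentiableAt_inverse (𝕜 := ℂ) (by rw [hA0]; exact isUnit_one)).comp z₀ (hAd z₀)
  refine hd.congr_of_eventuallyEq ?_
  filter_upwards [hu] with z hz
  have hpt : ∀ i, (R₀ * Ring.inverse (A z)) i = (∑ j, α i j * z j - β i)⁻¹ := by
    intro i
    have h0 : ∑ j, α i j * z₀ j - β i ≠ 0 := norm_pos_iff.1 (hδ.trans_le (h i))
    have h1 : A z i * (Ring.inverse (A z)) i = 1 := by
      have := congrArg (fun u : ι →ᵇ ℂ => u i) (Ring.mul_inverse_cancel _ hz)
      simpa using this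
    have h2 : A z i = (∑ j, α i j * z j - β i) * (∑ j, α i j * z₀ j - β i)⁻¹ := by
      have h3 : ∀ j, (res fun i => α i j) i = α i j := fun j => res_apply ⟨1, fun i => hα i j⟩ i
      simp only [hA, BoundedContinuousFunction.add_apply, BoundedContinuousFunction.mul_apply,
        BoundedContinuousFunction.coe_one, Pi.one_apply, BoundedContinuousFunction.sum_apply,
        BoundedContinuousFunction.smul_apply, h3, hR₀, rinv_apply hδ h, smul_eq_mul]
      have h4 : ∑ j, (z j - z₀ j) * α i j = ∑ j, α i j * z j - ∑ j, α i j * z₀ j := by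
        rw [← Finset.sum_sub_distrib]
        exact Finset.sum_congr rfl fun j _ => by ring
      rw [h4]
      field_simp
      ring
    rw [BoundedContinuousFunction.mul_apply, hR₀, rinv_apply hδ h]
    refine eq_inv_of_mul_eq_one_right ?_
    rw [← mul_assoc, ← h2, h1]
  ext i
  rw [hpt i]
  refine res_apply ⟨‖R₀ * Ring.inverse (A z)‖, fun i => ?_⟩ i
  rw [← hpt i]
  exact norm_coe_le_norm _ i

end Disc

theorem exists_normal {Ω : Set (Fin n → ℝ)} (hΩ : IsOpen Ω) (hconv : Convex ℝ Ω)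
    {b : Fin n → ℝ} (hb : b ∈ frontier Ω) :
    ∃ a : Fin n → ℝ, (∀ j, |a j| ≤ 1) ∧
      ∀ x r, 0 < r → ball x r ⊆ Ω → r ≤ ∑ j, a j * b j - ∑ j, a j * x j := by
  have hbn : b ∉ Ω := by rw [hΩ.frontier_eq] at hb; exact hb.2
  obtain ⟨l, hl⟩ := geometric_hahn_banach_open_point hconv hΩ hbn
  obtain ⟨x₁, hx₁⟩ : Ω.Nonempty := closure_nonempty_iff.1 ⟨b, frontier_subset_closure hb⟩
  have hl0 : l ≠ 0 := by
    rintro rfl
    simpa using hl x₁ hx₁
  have hN : 0 < ‖l‖ := norm_pos_iff.2 hl0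
  have hsum : ∀ x : Fin n → ℝ, l x = ∑ j, l (Pi.single j 1) * x j := by
    intro x
    conv_lhs => rw [← Finset.univ_sum_single x, map_sum]
    refine Finset.sum_congr rfl fun j _ => ?_
    have : (Pi.single j (x j) : Fin n → ℝ) = x j • (Pi.single j 1 : Fin n → ℝ) := by
      rw [← Pi.single_smul, smul_eq_mul, mul_one]
    rw [this, map_smul, smul_eq_mul, mul_comm]
  refine ⟨fun j => l (Pi.single j 1) / ‖l‖, fun j => ?_, fun x r hr hx => ?_⟩
  · rw [abs_div, abs_of_pos hN, div_le_one hN]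
    have := l.le_opNorm (Pi.single j 1)
    rwa [Pi.norm_single, norm_one, mul_one, Real.norm_eq_abs] at this
  · have e : ∀ y : Fin n → ℝ, ∑ j, l (Pi.single j 1) / ‖l‖ * y j = l y / ‖l‖ := by
      intro y
      rw [hsum y, Finset.sum_div]
      exact Finset.sum_congr rfl fun j _ => by ring
    rw [e, e, ← sub_div, le_div_iff₀ hN]
    have hd : 0 < l b - l x := sub_pos.2 (hl x (hx (mem_ball_self hr)))
    have h1 : ∀ v : Fin n → ℝ, ‖v‖ < r → l v < l b - l x := by
      intro v hv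
      have := hl (x + v) (hx (by simpa [mem_ball, dist_eq_norm] using hv))
      rw [map_add] at this
      linarith
    have h2 : ‖l‖ ≤ (l b - l x) / r := by
      refine ContinuousLinearMap.opNorm_le_of_unit_norm (div_pos hd hr).le fun v hv => ?_
      rw [le_div_iff₀ hr]
      refine le_of_forall_lt_imp_le_of_dense fun t ht => ?_
      by_contra hn
      have hlv : 0 < ‖l v‖ := by
        by_contra h0
        have : ‖l v‖ = 0 := le_antisymm (not_lt.1 h0) (norm_nonneg _)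
        rw [this, zero_mul] at ht
        exact hn (by linarith)
      have ht0 : 0 < t := hd.trans (not_le.1 hn)
      have hs : t / ‖l v‖ < r := by rw [div_lt_iff₀ hlv]; linarith
      have hs0 : 0 < t / ‖l v‖ := div_pos ht0 hlv
      have h3 := h1 ((t / ‖l v‖) • v) (by rw [norm_smul, hv, mul_one, Real.norm_of_nonneg hs0.le]; exact hs)
      have h4 := h1 (-((t / ‖l v‖) • v))
        (by rw [norm_neg, norm_smul, hv, mul_one, Real.norm_of_nonneg hs0.le]; exact hs)
      rw [map_neg] at h4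
      rw [map_smul, smul_eq_mul] at h3 h4
      have h5 : |t / ‖l v‖ * l v| = t := by
        rw [abs_mul, abs_of_pos hs0, ← Real.norm_eq_abs]; field_simp
      have h6 : |t / ‖l v‖ * l v| < l b - l x := abs_lt.2 ⟨by linarith, h3⟩
      exact hn (by linarith)
    rw [le_div_iff₀ hr] at h2
    linarith

theorem lt_abs_of_sig {σ : Fin n → ℤˣ} {j : Fin n} {b t : ℝ} (h : b < ((σ j : ℤ) : ℝ) * t) :
    b < |t| := by
  refine h.trans_le ((le_abs_self _).trans ?_)
  have := abs_sv σ j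
  unfold sv at this
  rw [abs_mul, this, one_mul]

theorem le_norm_sub {z w : ℂ} {c : ℝ} (hw : |w.im| ≤ c) : |z.im| - c ≤ ‖z - w‖ := by
  have h1 := abs_im_le_norm (z - w)
  have h2 := abs_sub_abs_le_abs_sub z.im w.im
  rw [sub_im] at h1
  linarith

/-- A function of `z` that is a bounded functional of the Cauchy kernel on `∂Ω + i Q` splits. -/
theorem exists_split {Ω : Set (Fin n → ℝ)} (hΩ : IsOpen Ω) (hconv : Convex ℝ Ω)
    {c : Fin n → ℝ} (f : (Fin n → ℂ) → ℂ) (C : ℝ)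
    (hf : ∀ (s : Finset (Fin n → ℂ)) (α : (Fin n → ℂ) → ℂ), (∀ z ∈ s, ∀ j, c j < |(z j).im|) →
      ∀ M, 0 ≤ M → (∀ w ∈ tube (frontier Ω) c, ‖∑ z ∈ s, α z * ker z w‖ ≤ M) →
      ‖∑ z ∈ s, α z * f z‖ ≤ C * M) :
    ∃ h : Fin n → (Fin n → ℂ) → ℂ, (∀ k, DifferentiableOn ℂ (h k) (Dkall Ω c k)) ∧
      ∀ z ∈ Dall Ω c, f z = ∑ k, h k z := by
  classical
  let ι := {w // w ∈ tube (frontier Ω) c}
  let _ : TopologicalSpace ι := ⊥
  have _ : DiscreteTopology ι := ⟨rfl⟩
  choose a ha1 ha2 using fun i : ι => exists_normal hΩ hconv i.2.1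
  set R : Fin n → (Fin n → ℂ) → ι →ᵇ ℂ := fun j =>
    rinv (fun _ => Pi.single j 1) fun i => i.1 j with hR
  set Ra : (Fin n → ℂ) → ι →ᵇ ℂ :=
    rinv (fun i j => (a i j : ℂ)) fun i => ∑ j, (a i j : ℂ) * i.1 j with hRa
  have e1 : ∀ (j : Fin n) (z : Fin n → ℂ), ∑ l, (Pi.single j 1 : Fin n → ℂ) l * z l = z j := by
    intro j z
    simp [Pi.single_apply]
  have b1 : ∀ (j : Fin n) (z : Fin n → ℂ) (i : ι),
      |(z j).im| - c j ≤ ‖∑ l, (Pi.single j 1 : Fin n → ℂ) l * z l - i.1 j‖ := by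
    intro j z i
    rw [e1]; exact le_norm_sub (i.2.2 j)
  have hRapp : ∀ j z, c j < |(z j).im| → ∀ i, R j z i = (z j - i.1 j)⁻¹ := by
    intro j z hz i
    rw [hR, rinv_apply (sub_pos.2 hz) (b1 j z), e1]
  have hRd : ∀ j z, c j < |(z j).im| → DifferentiableAt ℂ (R j) z := by
    intro j z hz
    refine differentiableAt_rinv (fun _ l => ?_) (sub_pos.2 hz) (b1 j z)
    rw [Pi.single_apply]
    split_ifs <;> simp
  have b2 : ∀ z : Fin n → ℂ, reV z ∈ Ω → ∃ δ > 0, ∀ i : ι,
      δ ≤ ‖∑ j, (a i j : ℂ) * z j - ∑ j, (a i j : ℂ) * i.1 j‖ := by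
    intro z hz
    obtain ⟨r, hr, hb⟩ := Metric.isOpen_iff.1 hΩ _ hz
    refine ⟨r, hr, fun i => (ha2 i _ r hr hb).trans ?_⟩
    refine le_trans ?_ (abs_re_le_norm _)
    refine le_trans (le_of_eq ?_) (neg_le_abs _)
    simp [reV]
  set Z := {z : Fin n → ℂ // ∀ j, c j < |(z j).im|} with hZ
  obtain ⟨Λ, hΛ⟩ := exists_functional
    (Finsupp.linearCombination ℂ fun z : Z => ∏ j, R j z.1)
    (Finsupp.linearCombination ℂ fun z : Z => f z.1) C (fun α => by
      have := hf (α.support.map (Function.Embedding.subtype _))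
        (fun z => if h : ∀ j, c j < |(z j).im| then α ⟨z, h⟩ else 0) ?_
        ‖Finsupp.linearCombination ℂ (fun z : Z => ∏ j, R j z.1) α‖ (norm_nonneg _) ?_
      · rw [Finset.sum_map] at this
        rw [Finsupp.linearCombination_apply, Finsupp.sum]
        refine le_trans (le_of_eq ?_) this
        congr 1
        refine Finset.sum_congr rfl fun z _ => ?_
        simp [z.2]
      · intro z hz
        obtain ⟨y, _, rfl⟩ := Finset.mem_map.1 hz
        exact y.2
      · intro w hw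
        refine le_trans (le_of_eq ?_) (norm_coe_le_norm _ (⟨w, hw⟩ : ι))
        congr 1
        rw [Finset.sum_map, Finsupp.linearCombination_apply, Finsupp.sum,
          BoundedContinuousFunction.sum_apply]
        refine Finset.sum_congr rfl fun z _ => ?_
        simp [z.2, ker, BoundedContinuousFunction.prod_apply, hRapp _ _ (z.2 _)])
  refine ⟨fun k z => Λ (res (fun i => (a i k : ℂ)) * Ra z * ∏ j ∈ Finset.univ.erase k, R j z),
    fun k z hz => ?_, fun z hz => ?_⟩
  · obtain ⟨σ, hz⟩ := mem_iUnion.1 hz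
    obtain ⟨δ, hδ, hb⟩ := b2 z hz.1
    refine DifferentiableAt.differentiableWithinAt (Λ.differentiableAt.comp z ?_)
    refine DifferentiableAt.mul (DifferentiableAt.const_mul ?_ _) ?_
    · exact differentiableAt_rinv (fun i j => by simpa using ha1 i j) hδ hb
    · exact (HasFDerivAt.finsetProd fun j hj =>
        (hRd j z (lt_abs_of_sig (hz.2 j (Finset.ne_of_mem_erase hj)))).hasFDerivAt).differentiableAt
  · obtain ⟨σ, hz⟩ := mem_iUnion.1 hz
    obtain ⟨δ, hδ, hb⟩ := b2 z hz.1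
    have hz' : ∀ j, c j < |(z j).im| := fun j => lt_abs_of_sig (hz.2 j)
    have h1 := hΛ (Finsupp.single ⟨z, hz'⟩ 1)
    simp only [Finsupp.linearCombination_single, one_smul] at h1
    rw [← h1, ← map_sum]
    congr 1
    ext i
    have h2 : ∀ k, (res fun i => (a i k : ℂ)) i = a i k := fun k =>
      res_apply ⟨1, fun i => by simpa using ha1 i k⟩ i
    have h3 : ∑ j, (a i j : ℂ) * z j - ∑ j, (a i j : ℂ) * i.1 j ≠ 0 :=
      norm_pos_iff.1 (hδ.trans_le (hb i))
    have h4 : ∀ k, z k - i.1 k ≠ 0 := fun k =>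
      norm_pos_iff.1 ((sub_pos.2 (hz' k)).trans_le (le_norm_sub (i.2.2 k)))
    simp only [BoundedContinuousFunction.sum_apply, BoundedContinuousFunction.mul_apply,
      BoundedContinuousFunction.prod_apply, h2, hRa, rinv_apply hδ hb, hRapp _ _ (hz' _)]
    have h5 : ∀ k, ∏ j ∈ Finset.univ.erase k, (z j - i.1 j)⁻¹ =
        (z k - i.1 k) * ∏ j, (z j - i.1 j)⁻¹ := by
      intro k
      rw [← Finset.mul_prod_erase Finset.univ _ (Finset.mem_univ k), ← mul_assoc,
        mul_inv_cancel₀ (h4 k), one_mul]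
    simp only [h5]
    have h6 : ∀ k, (a i k : ℂ) * (∑ j, (a i j : ℂ) * z j - ∑ j, (a i j : ℂ) * i.1 j)⁻¹ *
        ((z k - i.1 k) * ∏ j, (z j - i.1 j)⁻¹) =
        ((∑ j, (a i j : ℂ) * z j - ∑ j, (a i j : ℂ) * i.1 j)⁻¹ * ∏ j, (z j - i.1 j)⁻¹) *
          ((a i k : ℂ) * z k - (a i k : ℂ) * i.1 k) := fun k => by ring
    simp only [h6]
    rw [← Finset.mul_sum, Finset.sum_sub_distrib]
    field_simp

end Pool.Agent.Lib.MP_b71113_an
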