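import Pool.Agent.Lib.MP_b71113_an.Estimate

/-! The lower bound: `g` vanishes at every point that is separated from `∂Ω + i Q`. -/

namespace Pool.Agent.Lib.MP_b71113_an

open Set Filter Topology MeasureTheory Complex Metric

variable {n : ℕ}

theorem tube_eq_image (K : Set (Fin n → ℝ)) (c : Fin n → ℝ) :
    tube K c = (fun p : (Fin n → ℝ) × (Fin n → ℝ) => pt p.1 p.2) '' (K ×ˢ Icc (-c) c) := by
  ext z
  constructor
  · intro hz
    exact ⟨(reV z, fun j => (z j).im), ⟨hz.1, fun j => (abs_le.1 (hz.2 j)).1,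
      fun j => (abs_le.1 (hz.2 j)).2⟩, pt_reV z⟩
  · rintro ⟨p, hp, rfl⟩
    exact pt_mem_tube hp.1 fun j => abs_le.2 ⟨hp.2.1 j, hp.2.2 j⟩

theorem isCompact_tube {K : Set (Fin n → ℝ)} (hK : IsCompact K) (c : Fin n → ℝ) :
    IsCompact (tube K c) := by
  rw [tube_eq_image]
  exact (hK.prod isCompact_Icc).image continuous_pt

theorem tube_mono {A B : Set (Fin n → ℝ)} {c d : Fin n → ℝ} (h : A ⊆ B) (hcd : ∀ j, c j ≤ d j) :
    tube A c ⊆ tube B d := fun _ hz => ⟨h hz.1, fun j => (hz.2 j).trans (hcd j)⟩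

theorem ofR_mem_tube {A : Set (Fin n → ℝ)} {c x : Fin n → ℝ} (hc : ∀ j, 0 ≤ c j) (hx : x ∈ A) :
    ofR x ∈ tube A c := ⟨by simpa using hx, fun j => by simpa using hc j⟩

theorem star_mem_tube {A : Set (Fin n → ℝ)} {c : Fin n → ℝ} {z : Fin n → ℂ} (hz : z ∈ tube A c) :
    star z ∈ tube A c := by
  refine ⟨?_, fun j => by simpa using hz.2 j⟩
  have : reV (star z) = reV z := by funext j; simp [reV]
  rw [this]; exact hz.1

theorem star_ofR (x : Fin n → ℝ) : star (ofR x) = ofR x := by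
  funext j; simp [ofR]

theorem tube_thick {K : Set (Fin n → ℝ)} (hK : IsCompact K) {c : Fin n → ℝ} (hc : ∀ j, 0 ≤ c j)
    {V : Set (Fin n → ℂ)} (hV : IsOpen V) (h : tube K c ⊆ V) :
    ∃ δ > 0, tube K (fun j => c j + δ) ⊆ V := by
  obtain ⟨δ, hδ, hs⟩ := (isCompact_tube hK c).exists_cthickening_subset_open hV h
  refine ⟨δ, hδ, fun z hz => hs ?_⟩
  refine mem_cthickening_of_dist_le z (pt (reV z) fun j => max (-c j) (min (c j) (z j).im)) δ _
    (pt_mem_tube hz.1 fun j => ?_) ?_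
  · have := hc j
    exact abs_le.2 ⟨le_max_left _ _, max_le (by linarith) (min_le_left _ _)⟩
  · refine (dist_pi_le_iff hδ.le).2 fun j => ?_
    have h1 : z j - pt (reV z) (fun j => max (-c j) (min (c j) (z j).im)) j =
        (((z j).im - max (-c j) (min (c j) (z j).im) : ℝ) : ℂ) * I := by
      apply Complex.ext <;> simp [pt, reV]
    rw [dist_eq_norm, h1, norm_mul, norm_I, mul_one, norm_real, Real.norm_eq_abs]
    have h2 := abs_le.1 (hz.2 j)
    have h3 := hc j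
    rw [abs_le]
    rcases le_total (c j) (z j).im with h4 | h4
    · rw [min_eq_left h4, max_eq_right (by linarith)]; constructor <;> linarith [h2.2]
    · rw [min_eq_right h4]
      rcases le_total (-c j) (z j).im with h5 | h5
      · rw [max_eq_right h5]; constructor <;> linarith
      · rw [max_eq_left h5]; constructor <;> linarith [h2.1]

/-- A peak function argument. -/
theorem zero_of_peak {K : Set (Fin n → ℝ)} (hK : IsCompact K) {x₀ : Fin n → ℝ}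
    (hx₀ : x₀ ∈ interior K) {p : (Fin n → ℝ) → ℝ} (hp : ContinuousOn p K) (hp0 : ∀ x ∈ K, 0 ≤ p x)
    (hp1 : p x₀ = 1) (hlt : ∀ x ∈ K, x ≠ x₀ → p x < 1) {g : (Fin n → ℝ) → ℂ}
    (hg : ContinuousOn g K) {C θ : ℝ} (hθ0 : 0 ≤ θ) (hθ : θ < 1)
    (h : ∀ m : ℕ, ‖∫ x in K, p x ^ m • g x‖ ≤ C * θ ^ m) : g x₀ = 0 := by
  have hlim := tendsto_setIntegral_pow_smul_of_unique_maximum_of_isCompact_of_continuousOn
    (μ := volume) hK hp (by rw [hp1]; exact hlt) hp0 (by rw [hp1]; exact one_pos)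
    (subset_closure hx₀) hg
  obtain ⟨t, hθt, ht1⟩ := exists_between hθ
  have ht0 : 0 < t := hθ0.trans_lt hθt
  have hKn : K ∈ 𝓝 x₀ := mem_interior_iff_mem_nhds.1 hx₀
  have hev : ∀ᶠ x in 𝓝 x₀, x ∈ K ∧ t < p x :=
    Eventually.and hKn ((hp.continuousAt hKn).eventually (lt_mem_nhds (by rw [hp1]; exact ht1)))
  obtain ⟨r, hr, hb⟩ := Metric.eventually_nhds_iff_ball.1 hev
  have hI : ∀ m : ℕ, IntegrableOn (fun x => p x ^ m) K := fun m =>
    (hp.pow m).integrableOn_compact hK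
  have hsub : ball x₀ r ⊆ K := fun x hx => (hb x hx).1
  have hvol : 0 < volume.real (ball x₀ r) :=
    ENNReal.toReal_pos (measure_ball_pos _ _ hr).ne' measure_ball_lt_top.ne
  have hlow : ∀ m : ℕ, t ^ m * volume.real (ball x₀ r) ≤ ∫ x in K, p x ^ m := by
    intro m
    calc t ^ m * volume.real (ball x₀ r) = ∫ _ in ball x₀ r, t ^ m := by simp [mul_comm]
      _ ≤ ∫ x in ball x₀ r, p x ^ m := by
        refine setIntegral_mono_on (integrableOn_const measure_ball_lt_top.ne)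
          ((hI m).mono_set hsub) measurableSet_ball fun x hx => ?_
        exact pow_le_pow_left₀ ht0.le (hb x hx).2.le _
      _ ≤ ∫ x in K, p x ^ m := by
        refine setIntegral_mono_set (hI m) ?_ (Eventually.of_forall hsub)
        filter_upwards [ae_restrict_mem hK.measurableSet] with x hx using pow_nonneg (hp0 x hx) m
  have hz : Tendsto (fun m : ℕ => (∫ x in K, p x ^ m)⁻¹ • ∫ x in K, p x ^ m • g x) atTop (𝓝 0) := by
    have h1 : Tendsto (fun m : ℕ => |C| / volume.real (ball x₀ r) * (θ / t) ^ m) atTop (𝓝 0) := by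
      have := (tendsto_pow_atTop_nhds_zero_of_lt_one (div_nonneg hθ0 ht0.le)
        ((div_lt_one ht0).2 hθt)).const_mul (|C| / volume.real (ball x₀ r))
      simpa using this
    refine squeeze_zero_norm (fun m => ?_) h1
    have h2 : 0 < t ^ m * volume.real (ball x₀ r) := by positivity
    have h3 := hlow m
    rw [norm_smul, norm_inv, Real.norm_of_nonneg (h2.le.trans h3)]
    have h4 : ‖∫ x in K, p x ^ m • g x‖ ≤ |C| * θ ^ m :=
      (h m).trans (mul_le_mul_of_nonneg_right (le_abs_self C) (pow_nonneg hθ0 m))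
    calc (∫ x in K, p x ^ m)⁻¹ * ‖∫ x in K, p x ^ m • g x‖
        ≤ (t ^ m * volume.real (ball x₀ r))⁻¹ * (|C| * θ ^ m) := by gcongr
      _ = |C| / volume.real (ball x₀ r) * (θ / t) ^ m := by
        rw [div_pow]; field_simp
  exact tendsto_nhds_unique hlim hz

theorem re_sq_ge {u : ℂ} (hu : ‖u‖ ≤ 1 / 4) : 1 / 2 ≤ ((u - 1) ^ 2).re := by
  have h1 := abs_le.1 ((abs_re_le_norm u).trans hu)
  have h2 := abs_le.1 ((abs_im_le_norm u).trans hu)
  simp only [sq, mul_re, sub_re, one_re, sub_im, one_im, sub_zero]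
  nlinarith [h1.1, h1.2, h2.1, h2.2]

/-- `g` vanishes at a point separated from the ends of `Ω + i Q` by a holomorphic function. -/
theorem vanish_of_sep {Ω : Set (Fin n → ℝ)} (hΩ : IsOpen Ω) {c : Fin n → ℝ} (hc0 : ∀ j, 0 ≤ c j)
    {f : (Fin n → ℂ) → ℂ} {F : (Fin n → ℤˣ) → (Fin n → ℂ) → ℂ} (h : Admissible Ω c f F)
    {x₀ : Fin n → ℝ} (hx₀ : x₀ ∈ Ω) {O : Set (Fin n → ℂ)} (hO : IsOpen O) (hsub : tube Ω c ⊆ O)
    {φ : (Fin n → ℂ) → ℂ} (hφ : DifferentiableOn ℂ φ O) {K₀ : Set (Fin n → ℝ)}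
    (hK₀ : IsCompact K₀) (hK₀Ω : K₀ ⊆ Ω) {M : ℝ} (hM0 : 0 ≤ M)
    (hM : ∀ w ∈ tube (Ω \ K₀) c, ‖φ w‖ ≤ M) (hlt : M < ‖φ (ofR x₀)‖) : gfun F x₀ = 0 := by
  have hxK : x₀ ∈ K₀ := by
    by_contra hn
    exact absurd (hM _ (ofR_mem_tube hc0 ⟨hx₀, hn⟩)) (not_le.2 hlt)
  obtain ⟨K₁, hK₁, hK₀₁, hK₁Ω⟩ := exists_compact_between hK₀ hΩ hK₀Ω
  obtain ⟨χ, hχ', hc, hχΩ, hχ1, hχ01⟩ := exists_bump hK₁ hΩ hK₁Ω
  have hχ : ContDiff ℝ 1 χ := hχ'.of_le (by exact_mod_cast le_top)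
  set S := tsupport χ \ interior K₁ with hS
  have hSc : IsCompact S := IsCompact.diff hc isOpen_interior
  have hSΩ : S ⊆ Ω \ K₀ := fun x hx => ⟨hχΩ hx.1, fun h0 => hx.2 (hK₀₁ h0)⟩
  have hdS : {x | fderiv ℝ χ x ≠ 0} ⊆ S := by
    intro x hx
    refine ⟨support_fderiv_subset ℝ hx, fun hi => hx ?_⟩
    have : χ =ᶠ[𝓝 x] fun _ => 1 := by
      filter_upwards [mem_interior_iff_mem_nhds.1 hi] with y hy using hχ1 y hy
    rw [this.fderiv_eq]; simp
  set a := φ (ofR x₀) with ha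
  have ha0 : 0 < ‖a‖ := hM0.trans_lt hlt
  have ha0' : a ≠ 0 := norm_pos_iff.1 ha0
  obtain ⟨k, hk⟩ := exists_pow_lt_of_lt_one (show (0 : ℝ) < 1 / 4 by norm_num)
    ((div_lt_one ha0).2 hlt)
  set φ₂ : (Fin n → ℂ) → ℂ := fun z => (φ z / a) ^ k with hφ₂
  have hφ₂d : DifferentiableOn ℂ φ₂ O := by
    simp only [hφ₂, div_eq_mul_inv]
    exact (hφ.mul_const a⁻¹).pow k
  have hφ₂1 : φ₂ (ofR x₀) = 1 := by simp [hφ₂, ← ha, ha0']
  have hsmall : tube S c ⊆ O ∩ φ₂ ⁻¹' ball 0 (1 / 4) := by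
    intro w hw
    have hw' := tube_mono hSΩ (fun _ => le_rfl) hw
    refine ⟨hsub (tube_mono sdiff_subset (fun _ => le_rfl) hw'), ?_⟩
    rw [mem_preimage, mem_ball_zero_iff, hφ₂, norm_pow, norm_div]
    refine lt_of_le_of_lt ?_ hk
    gcongr
    exact hM w hw'
  obtain ⟨δ₁, hδ₁, h₁⟩ := tube_thick hc hc0 hO ((tube_mono hχΩ fun _ => le_rfl).trans hsub)
  obtain ⟨δ₂, hδ₂, h₂⟩ := tube_thick hSc hc0
    (hφ₂d.continuousOn.isOpen_inter_preimage hO isOpen_ball) hsmall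
  set c' : Fin n → ℝ := fun j => c j + min δ₁ δ₂ with hc'
  have hcc : ∀ j, c j < c' j := fun j => by simp [hc', hδ₁, hδ₂]
  have h₁' : tube (tsupport χ) c' ⊆ O :=
    (tube_mono Subset.rfl fun j => by simp [hc']).trans h₁
  have h₂' : ∀ w ∈ tube S c', ‖φ₂ w‖ ≤ 1 / 4 := fun w hw => by
    have := (h₂ (tube_mono Subset.rfl (fun j => by simp [hc']) hw)).2
    rw [mem_preimage, mem_ball_zero_iff] at this
    exact this.le
  obtain ⟨C, hC⟩ := bdd_gfun hχ hc hΩ hχΩ hc0 hcc h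
  set O' := O ∩ star ⁻¹' O with hO'
  have hO'o : IsOpen O' := hO.inter (hO.preimage continuous_star)
  set Φ : (Fin n → ℂ) → ℂ := fun z => (φ₂ z + star (φ₂ (star z))) / 2 with hΦ
  have hΦd : DifferentiableOn ℂ Φ O' := by
    simp only [hΦ, div_eq_mul_inv]
    refine DifferentiableOn.mul_const ((hφ₂d.mono inter_subset_left).add fun z hz => ?_) _
    have := (hφ₂d.differentiableAt (hO.mem_nhds hz.2)).star_star
    rw [star_star] at this
    exact this.differentiableWithinAt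
  have hΦr : ∀ x, Φ (ofR x) = ((φ₂ (ofR x)).re : ℂ) := by
    intro x
    simp only [hΦ, star_ofR]
    apply Complex.ext <;> simp
  set κ : ℝ := 2 * (∑ j, c' j ^ 2 + 1) with hκ
  have hκ0 : 0 ≤ κ := by positivity
  set Ψ : (Fin n → ℂ) → ℂ := fun z =>
    exp (-(κ * (Φ z - 1) ^ 2) - ∑ j, (z j - x₀ j) ^ 2) with hΨ
  have hΨd : DifferentiableOn ℂ Ψ O' := by
    refine DifferentiableOn.cexp (DifferentiableOn.sub ?_ ?_)
    · exact (((hΦd.sub_const 1).pow 2).const_mul _).neg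
    · exact Differentiable.differentiableOn (by fun_prop)
  set p : (Fin n → ℝ) → ℝ := fun x =>
    Real.exp (-(κ * ((φ₂ (ofR x)).re - 1) ^ 2) - ∑ j, (x j - x₀ j) ^ 2) with hp
  have hΨp : ∀ x, Ψ (ofR x) = (p x : ℂ) := by
    intro x
    simp only [hΨ, hp, hΦr]
    push_cast
    simp [ofR]
  have hΨs : ∀ w ∈ tube S c', ‖Ψ w‖ ≤ Real.exp (-1) := by
    intro w hw
    have e1 : ‖Φ w‖ ≤ 1 / 4 := by
      have h3 := h₂' w hw
      have h4 := h₂' _ (star_mem_tube hw)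
      have h5 := norm_add_le (φ₂ w) (star (φ₂ (star w)))
      rw [norm_star] at h5
      simp only [hΦ, norm_div, Complex.norm_ofNat]
      linarith
    have e2 := re_sq_ge e1
    have e3 : -∑ j, c' j ^ 2 ≤ (∑ j, (w j - x₀ j) ^ 2).re := by
      rw [re_sum, ← Finset.sum_neg_distrib]
      refine Finset.sum_le_sum fun j _ => ?_
      have h3 := hw.2 j
      have h4 : (w j).im ^ 2 ≤ c' j ^ 2 := sq_le_sq' (abs_le.1 h3).1 (abs_le.1 h3).2
      simp only [sq, mul_re, sub_re, ofReal_re, sub_im, ofReal_im, sub_zero] at h4 ⊢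
      nlinarith [mul_self_nonneg ((w j).re - x₀ j)]
    rw [hΨ, norm_exp, Real.exp_le_exp, sub_re, neg_re, re_ofReal_mul]
    have e4 := mul_le_mul_of_nonneg_left e2 hκ0
    have e5 : κ * (1 / 2) = ∑ j, c' j ^ 2 + 1 := by rw [hκ]; ring
    linarith
  have hχx : χ x₀ = 1 := hχ1 _ (interior_subset (hK₀₁ hxK))
  have hint : x₀ ∈ interior (tsupport χ) := by
    refine interior_mono ?_ (hK₀₁ hxK)
    intro x hx
    exact subset_tsupport _ (by simp [hχ1 x hx])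
  have hreal : ∀ x ∈ tsupport χ, ofR x ∈ O := fun x hx => hsub (ofR_mem_tube hc0 (hχΩ hx))
  have key := zero_of_peak hc hint (p := p) (g := fun x => (χ x : ℂ) * gfun F x) (C := C)
    (θ := Real.exp (-1)) ?_ (fun x _ => (Real.exp_pos _).le) ?_ ?_ ?_ (Real.exp_pos _).le
    (Real.exp_lt_one_iff.2 (by norm_num)) ?_
  · simpa [hχx] using key
  · have h3 : ContinuousOn (fun x => (φ₂ (ofR x)).re) (tsupport χ) :=
      continuous_re.comp_continuousOn (hφ₂d.continuousOn.comp continuous_ofR.continuousOn hreal)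
    refine Real.continuous_exp.comp_continuousOn (ContinuousOn.sub ?_ (by fun_prop))
    exact (continuousOn_const.mul ((h3.sub continuousOn_const).pow 2)).neg
  · simp [hp, hφ₂1]
  · intro x _ hx
    rw [hp, Real.exp_lt_one_iff]
    obtain ⟨j, hj⟩ := Function.ne_iff.1 hx
    have h3 : 0 < ∑ j, (x j - x₀ j) ^ 2 :=
      Finset.sum_pos' (fun i _ => sq_nonneg _)
        ⟨j, Finset.mem_univ _, sq_pos_of_ne_zero (sub_ne_zero.2 hj)⟩
    have h4 : 0 ≤ κ * ((φ₂ (ofR x)).re - 1) ^ 2 := by positivity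
    linarith
  · exact (continuous_ofReal.comp hχ.continuous).continuousOn.mul
      ((continuousOn_gfun h).mono hχΩ)
  · intro m
    have ht : Test χ c' (fun z => Ψ z ^ m) O' (Real.exp (-1) ^ m) := by
      refine ⟨hO'o, hΨd.pow m, fun w hw => ⟨h₁' hw, h₁' (star_mem_tube hw)⟩, by positivity,
        fun w hw => ?_⟩
      rw [norm_pow]
      exact pow_le_pow_left₀ (norm_nonneg _) (hΨs w (tube_mono hdS (fun _ => le_rfl) hw)) m
    have h3 := hC _ _ _ ht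
    have h4 : ∫ x in tsupport χ, p x ^ m • ((χ x : ℂ) * gfun F x) =
        ∫ x, (χ x : ℂ) * (gfun F x * Ψ (ofR x) ^ m) := by
      rw [setIntegral_eq_integral_of_forall_compl_eq_zero]
      · congr 1
        funext x
        rw [hΨp, real_smul]
        push_cast
        ring
      · intro x hx
        simp [image_eq_zero_of_notMem_tsupport hx]
    rw [h4]
    exact h3

/-- Separation by a function that is continuous up to the boundary and small at infinity. -/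
theorem vanish_of_sep_closure {Ω : Set (Fin n → ℝ)} (hΩ : IsOpen Ω) {c : Fin n → ℝ}
    (hc0 : ∀ j, 0 ≤ c j)
    {f : (Fin n → ℂ) → ℂ} {F : (Fin n → ℤˣ) → (Fin n → ℂ) → ℂ} (h : Admissible Ω c f F)
    {x₀ : Fin n → ℝ} (hx₀ : x₀ ∈ Ω) {O : Set (Fin n → ℂ)} (hO : IsOpen O) (hsub : tube Ω c ⊆ O)
    {φ : (Fin n → ℂ) → ℂ} (hφ : DifferentiableOn ℂ φ O)
    (hφc : ContinuousOn φ (tube (closure Ω) c))
    (hφ0 : Tendsto φ (cocompact (Fin n → ℂ) ⊓ 𝓟 (tube (closure Ω) c)) (𝓝 0))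
    {M : ℝ} (hM0 : 0 ≤ M)
    (hM : ∀ w ∈ tube (frontier Ω) c, ‖φ w‖ ≤ M) (hlt : M < ‖φ (ofR x₀)‖) : gfun F x₀ = 0 := by
  obtain ⟨M', hM1, hM2⟩ := exists_between hlt
  have hM'0 : 0 < M' := hM0.trans_lt hM1
  have hcl : IsClosed (tube (closure Ω) c) := by
    have : tube (closure Ω) c = reV ⁻¹' closure Ω ∩ ⋂ j, {z | |(z j).im| ≤ c j} := by
      ext z; simp [tube]
    rw [this]
    exact (isClosed_closure.preimage continuous_reV).inter
      (isClosed_iInter fun j => isClosed_le (by fun_prop) continuous_const)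
  set T := tube (closure Ω) c ∩ (fun z => ‖φ z‖) ⁻¹' Ici M' with hT
  have hTcl : IsClosed T := hφc.norm.preimage_isClosed_of_isClosed hcl isClosed_Ici
  have hev : ∀ᶠ z in cocompact (Fin n → ℂ) ⊓ 𝓟 (tube (closure Ω) c), ‖φ z‖ < M' :=
    hφ0.norm.eventually (gt_mem_nhds (by simpa using hM'0))
  rw [eventually_inf_principal] at hev
  obtain ⟨L, hL, hLs⟩ := mem_cocompact.1 hev
  have hTc : IsCompact T := by
    refine hL.of_isClosed_subset hTcl fun z hz => ?_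
    by_contra hn
    exact absurd (hLs hn hz.1) (not_lt.2 hz.2)
  refine vanish_of_sep hΩ hc0 h hx₀ hO hsub hφ (hTc.image continuous_reV) ?_ hM'0.le ?_ hM2
  · rintro _ ⟨z, hz, rfl⟩
    by_contra hn
    have h1 : reV z ∈ frontier Ω := by
      rw [hΩ.frontier_eq]; exact ⟨hz.1.1, hn⟩
    have h2 := hM z ⟨h1, hz.1.2⟩
    have h3 : M' ≤ ‖φ z‖ := hz.2
    linarith
  · intro w hw
    by_contra hn
    exact hw.1.2 ⟨w, ⟨⟨subset_closure hw.1.1, hw.2⟩, (not_le.1 hn).le⟩, rfl⟩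

theorem vanish_of_not_hull {Ω : Set (Fin n → ℝ)} (hΩ : IsOpen Ω) {c : Fin n → ℝ}
    (hc0 : ∀ j, 0 ≤ c j)
    {f : (Fin n → ℂ) → ℂ} {F : (Fin n → ℤˣ) → (Fin n → ℂ) → ℂ} (h : Admissible Ω c f F)
    {x₀ : Fin n → ℝ} (hx₀ : x₀ ∈ Ω) (hn : x₀ ∉ hullSet Ω c) : gfun F x₀ = 0 := by
  by_contra hg
  refine hn ⟨hx₀, fun φ hφ hφ0 M hM0 hM => ?_⟩
  by_contra hlt
  exact hg (vanish_of_sep_closure hΩ hc0 h hx₀ isOpen_univ (subset_univ _) hφ.differentiableOn
    hφ.continuous.continuousOn hφ0 hM0 hM (not_le.1 hlt))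

/-- If `g` always vanishes off `H`, it vanishes off the closure of the interior of `H`. -/
theorem lower_of_vanish {Ω H : Set (Fin n → ℝ)} (hΩ : IsOpen Ω) {c : Fin n → ℝ}
    (hH : ∀ f F, Admissible Ω c f F → ∀ x ∈ Ω, x ∉ H → gfun F x = 0) :
    Ω \ closure (interior H) ⊆ vanishingSet Ω c := by
  have hW : IsOpen (Ω \ closure (interior H)) := hΩ.sdiff isClosed_closure
  refine subset_sUnion_of_mem ⟨hW, sdiff_subset, fun f F h x hx => ?_⟩
  by_contra hg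
  have h1 : ∀ᶠ y in 𝓝 x, gfun F y ≠ 0 :=
    ((continuousOn_gfun h).continuousAt (hΩ.mem_nhds hx.1)).eventually_ne hg
  have h2 : H ∈ 𝓝 x := by
    filter_upwards [h1, hΩ.mem_nhds hx.1] with y hy hyΩ
    by_contra hn
    exact hy (hH f F h y hyΩ hn)
  exact hx.2 (subset_closure (mem_interior_iff_mem_nhds.2 h2))

theorem lower_bound {Ω : Set (Fin n → ℝ)} (hΩ : IsOpen Ω) {c : Fin n → ℝ} (hc0 : ∀ j, 0 ≤ c j) :
    Ω \ closure (interior (hullSet Ω c)) ⊆ vanishingSet Ω c :=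
  lower_of_vanish hΩ fun _ _ h _ hx hn => vanish_of_not_hull hΩ hc0 h hx hn

theorem Admissible.mono {Ω Ω' : Set (Fin n → ℝ)} (hs : Ω ⊆ Ω') {c : Fin n → ℝ}
    {f : (Fin n → ℂ) → ℂ} {F : (Fin n → ℤˣ) → (Fin n → ℂ) → ℂ} (h : Admissible Ω' c f F) :
    Admissible Ω c f F := by
  have h1 : ∀ b σ, Dsig Ω b σ ⊆ Dsig Ω' b σ := fun b σ z hz => ⟨hs hz.1, hz.2⟩
  have h2 : ∀ b k σ, Dksig Ω b k σ ⊆ Dksig Ω' b k σ := fun b k σ z hz => ⟨hs hz.1, hz.2⟩
  obtain ⟨hf, hF, hk, hhk, hsum⟩ := h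
  exact ⟨hf.mono (iUnion_mono (h1 0)),
    fun σ => ⟨(hF σ).1.mono (closure_mono (h1 0 σ)), (hF σ).2.mono (h1 0 σ)⟩, hk,
    fun k => (hhk k).mono (iUnion_mono (h2 c k)), fun z hz => hsum z (iUnion_mono (h1 c) hz)⟩

theorem vanishingSet_mono {Ω Ω' : Set (Fin n → ℝ)} (hs : Ω ⊆ Ω') (c : Fin n → ℝ) :
    vanishingSet Ω c ⊆ vanishingSet Ω' c := by
  rintro x ⟨W, ⟨h1, h2, h3⟩, hx⟩
  exact ⟨W, ⟨h1, h2.trans hs, fun f F h => h3 f F (h.mono hs)⟩, hx⟩

theorem vanishingSet_subset (Ω : Set (Fin n → ℝ)) (c : Fin n → ℝ) : vanishingSet Ω c ⊆ Ω := by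
  rintro x ⟨W, ⟨_, h2, _⟩, hx⟩
  exact h2 hx

theorem isOpen_vanishingSet (Ω : Set (Fin n → ℝ)) (c : Fin n → ℝ) : IsOpen (vanishingSet Ω c) :=
  isOpen_sUnion fun _ h => h.1

end Pool.Agent.Lib.MP_b71113_an
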