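import Pool.Agent.Lib.MP_b71113_an.Cauchy

/-! The upper bound for convex `Ω`. -/

namespace Pool.Agent.Lib.MP_b71113_an

open Set Filter Topology Complex Metric MeasureTheory

variable {n : ℕ}

/-- The hull of `∂Ω + i Q` with respect to combinations of Cauchy kernels. -/
def KerHull (Ω : Set (Fin n → ℝ)) (c : Fin n → ℝ) (x : Fin n → ℝ) : Prop :=
  ∀ (s : Finset (Fin n → ℂ)) (α : (Fin n → ℂ) → ℂ), (∀ z ∈ s, ∀ j, c j < |(z j).im|) →
    ∀ M, 0 ≤ M → (∀ w ∈ tube (frontier Ω) c, ‖∑ z ∈ s, α z * ker z w‖ ≤ M) →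
      ‖∑ z ∈ s, α z * ker z (ofR x)‖ ≤ M

theorem exists_admissible {Ω : Set (Fin n → ℝ)} (hΩ : IsOpen Ω) (hconv : Convex ℝ Ω)
    {c : Fin n → ℝ} (hc0 : ∀ j, 0 ≤ c j) {p : Fin n → ℝ} {r : ℝ} (hr : 0 < r)
    (hH : ∀ x ∈ closedBall p r, KerHull Ω c x) :
    ∃ f F, Admissible Ω c f F ∧ gfun F p ≠ 0 := by
  classical
  have hr' : (r : ℂ) ≠ 0 := ofReal_ne_zero.2 hr.ne'
  set ζ : (Fin n → ℂ) → Fin n → ℂ := fun z j => (z j - p j) / r with hζ
  have hζim : ∀ z j, (ζ z j).im = (z j).im / r := fun z j => by simp [hζ, div_ofReal_im]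
  set f : (Fin n → ℂ) → ℂ := fun z => ∏ j, (r : ℂ)⁻¹ * cint (ζ z j) with hf
  set F : (Fin n → ℤˣ) → (Fin n → ℂ) → ℂ := fun σ z => ∏ j, (r : ℂ)⁻¹ * cs (sv σ j) (ζ z j) with hF
  have hpos : ∀ σ, ∀ z ∈ Dsig Ω 0 σ, ∀ j, 0 < sv σ j * (ζ z j).im := by
    intro σ z hz j
    rw [hζim, ← mul_div_assoc]
    exact div_pos (hz.2 j) hr
  have hEq : ∀ σ, EqOn (F σ) f (Dsig Ω 0 σ) := fun σ z hz =>
    Finset.prod_congr rfl fun j _ => by rw [cint_eq (sv_sq σ j) (hpos σ z hz j)]
  have hζd : ∀ j, Differentiable ℂ fun z => ζ z j := fun j => by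
    simp only [hζ, div_eq_mul_inv]; fun_prop
  refine ⟨f, F, ⟨?_, fun σ => ⟨?_, hEq σ⟩, ?_⟩, ?_⟩
  · intro z hz
    obtain ⟨σ, hz⟩ := mem_iUnion.1 hz
    have h1 : DifferentiableAt ℂ (F σ) z :=
      (HasFDerivAt.finsetProd fun j _ => (((differentiableAt_cs (hpos σ z hz j)).comp z
        (hζd j z)).const_mul (r : ℂ)⁻¹).hasFDerivAt).differentiableAt
    refine (h1.congr_of_eventuallyEq ?_).differentiableWithinAt
    filter_upwards [(isOpen_Dsig hΩ 0 σ).mem_nhds hz] with y hy using (hEq σ hy).symm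
  · have hcl : closure (Dsig Ω 0 σ) ⊆ ⋂ j, {z | 0 ≤ sv σ j * (ζ z j).im} := by
      refine closure_minimal (fun z hz => mem_iInter.2 fun j => (hpos σ z hz j).le)
        (isClosed_iInter fun j => isClosed_le continuous_const ?_)
      exact continuous_const.mul (continuous_im.comp (hζd j).continuous)
    refine continuousOn_finsetProd _ fun j _ => continuousOn_const.mul ?_
    exact (continuousOn_cs (sv σ j)).comp (hζd j).continuous.continuousOn
      fun z hz => mem_iInter.1 (hcl hz) j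
  · set Kc : Set (Fin n → ℝ) := univ.pi fun _ => Icc (-1 : ℝ) 1 with hKc
    have hKcc : IsCompact Kc := isCompact_univ_pi fun _ => isCompact_Icc
    refine exists_split hΩ hconv f (volume.real Kc) fun s α hs M hM0 hM => ?_
    have hrep : ∀ z, f z = ∫ t in Kc, (∏ j, (1 - (t j : ℂ) ^ 2)) * ker z (ofR (p + r • t)) := by
      intro z
      have h1 : ∀ t : Fin n → ℝ, (∏ j, (1 - (t j : ℂ) ^ 2)) * ker z (ofR (p + r • t)) =
          ∏ j, (r : ℂ)⁻¹ * ((1 - (t j : ℂ) ^ 2) * (ζ z j - t j)⁻¹) := by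
        intro t
        rw [ker, ← Finset.prod_mul_distrib]
        refine Finset.prod_congr rfl fun j _ => ?_
        have h2 : z j - ofR (p + r • t) j = r * (ζ z j - t j) := by
          simp only [hζ, ofR, Pi.add_apply, Pi.smul_apply, smul_eq_mul]
          push_cast
          field_simp
          ring
        rw [h2, mul_inv]
        ring
      simp_rw [h1]
      rw [hKc, volume_pi, Measure.restrict_pi_pi, integral_fintype_prod_eq_prod
        (fun j (u : ℝ) => (r : ℂ)⁻¹ * ((1 - (u : ℂ) ^ 2) * (ζ z j - u)⁻¹))]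
      refine Finset.prod_congr rfl fun j _ => ?_
      rw [integral_const_mul, cint]
    have hcont : ∀ z ∈ s, Continuous fun t : Fin n → ℝ =>
        α z * ((∏ j, (1 - (t j : ℂ) ^ 2)) * ker z (ofR (p + r • t))) := by
      intro z hz
      refine continuous_const.mul (Continuous.mul (by fun_prop) ?_)
      refine continuous_finsetProd _ fun j _ => Continuous.inv₀ (by unfold ofR; fun_prop) ?_
      intro t h0
      have h1 : (z j).im = 0 := by simpa using congrArg im h0
      have h2 := hs z hz j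
      rw [h1, abs_zero] at h2
      exact absurd (hc0 j) (not_le.2 h2)
    simp_rw [hrep, ← integral_const_mul]
    rw [← integral_finsetSum _ fun z hz => (hcont z hz).continuousOn.integrableOn_compact hKcc,
      mul_comm]
    refine norm_setIntegral_le_of_norm_le_const hKcc.measure_lt_top fun t ht => ?_
    have h1 : ∑ z ∈ s, α z * ((∏ j, (1 - (t j : ℂ) ^ 2)) * ker z (ofR (p + r • t))) =
        (∏ j, (1 - (t j : ℂ) ^ 2)) * ∑ z ∈ s, α z * ker z (ofR (p + r • t)) := by
      rw [Finset.mul_sum]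
      exact Finset.sum_congr rfl fun z _ => by ring
    have h2 : ‖∏ j, (1 - (t j : ℂ) ^ 2)‖ ≤ 1 := by
      rw [norm_prod]
      refine Finset.prod_le_one (fun j _ => norm_nonneg _) fun j _ => ?_
      have h3 := ht j (mem_univ _)
      have h4 : (1 - (t j : ℂ) ^ 2) = ((1 - t j ^ 2 : ℝ) : ℂ) := by push_cast; rfl
      rw [h4, norm_real, Real.norm_eq_abs, abs_le]
      constructor <;> nlinarith [h3.1, h3.2, sq_nonneg (t j)]
    have h3 : p + r • t ∈ closedBall p r := by
      rw [mem_closedBall, dist_eq_norm, add_sub_cancel_left, norm_smul, Real.norm_of_nonneg hr.le]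
      refine mul_le_of_le_one_right hr.le ((pi_norm_le_iff_of_nonneg zero_le_one).2 fun j => ?_)
      exact abs_le.2 (ht j (mem_univ _))
    rw [h1, norm_mul]
    have h4 := hH _ h3 s α hs M hM0 hM
    nlinarith [norm_nonneg (∏ j, (1 - (t j : ℂ) ^ 2)),
      norm_nonneg (∑ z ∈ s, α z * ker z (ofR (p + r • t)))]
  · have h0 : ∀ j, ζ (ofR p) j = 0 := fun j => by simp [hζ, ofR]
    have h1 : gfun F p = ∏ _j : Fin n, ∑ u : ℤˣ,
        ((u : ℤ) : ℂ) * ((r : ℂ)⁻¹ * cs ((u : ℤ) : ℝ) 0) := by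
      rw [Fintype.prod_sum]
      refine Finset.sum_congr rfl fun σ _ => ?_
      simp only [hF, h0, sv, Finset.prod_mul_distrib]
      push_cast
      rfl
    rw [h1]
    refine Finset.prod_ne_zero_iff.2 fun j _ => ?_
    rw [UnitsInt.univ, Finset.sum_pair (by decide)]
    have h2 := mul_ne_zero (inv_ne_zero hr') cs_jump
    intro h3
    apply h2
    simp only [Units.val_one, Int.cast_one, one_mul, Units.val_neg, Int.cast_neg] at h3
    linear_combination h3

theorem upper_of_ker {Ω H : Set (Fin n → ℝ)} (hΩ : IsOpen Ω) (hconv : Convex ℝ Ω)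
    {c : Fin n → ℝ} (hc0 : ∀ j, 0 ≤ c j) (hH : ∀ x ∈ H, KerHull Ω c x) :
    vanishingSet Ω c ⊆ Ω \ closure (interior H) := by
  rintro x ⟨W, ⟨h1, h2, h3⟩, hx⟩
  refine ⟨h2 hx, fun hcl => ?_⟩
  obtain ⟨p, hpW, hpH⟩ := mem_closure_iff.1 hcl W h1 hx
  obtain ⟨r, hr, hb⟩ := nhds_basis_closedBall.mem_iff.1 (mem_interior_iff_mem_nhds.1 hpH)
  obtain ⟨f, F, hadm, hg⟩ := exists_admissible hΩ hconv hc0 hr fun y hy => hH y (hb hy)
  exact hg (h3 f F hadm p hpW)

/-- Entire approximations of `1 / u`. -/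
noncomputable def ent (τ : ℝ) (u : ℂ) : ℂ := -dslope (fun u : ℂ => exp (τ * I * u)) 0 u

theorem differentiable_ent (τ : ℝ) : Differentiable ℂ (ent τ) := by
  have h : DifferentiableOn ℂ (dslope (fun u : ℂ => exp (τ * I * u)) 0) univ :=
    (differentiableOn_dslope univ_mem).2 (Differentiable.differentiableOn (by fun_prop))
  exact (differentiableOn_univ.1 h).neg

theorem ent_eq (τ : ℝ) {u : ℂ} (hu : u ≠ 0) : ent τ u = (1 + -exp (τ * I * u)) * u⁻¹ := by
  rw [ent, dslope_of_ne _ hu, slope_def_field]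
  simp only [mul_zero, exp_zero, sub_zero]
  field_simp
  ring

/-- Entire approximations of the Cauchy kernel. -/
noncomputable def kerT (T : ℝ) (z w : Fin n → ℂ) : ℂ := ∏ j, ent (T * (z j).im) (z j - w j)

theorem differentiable_kerT (T : ℝ) (z : Fin n → ℂ) : Differentiable ℂ (kerT T z) := fun w =>
  (HasFDerivAt.finsetProd fun j _ => (((differentiable_ent (T * (z j).im)).comp
    (f := fun w : Fin n → ℂ => z j - w j) (by fun_prop)) w).hasFDerivAt).differentiableAt

theorem kerT_est {c : Fin n → ℝ} {z : Fin n → ℂ}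
    (hz : ∀ j, c j < |(z j).im|) {T : ℝ} (hT : 0 ≤ T) {w : Fin n → ℂ}
    (hw : ∀ j, |(w j).im| ≤ c j) :
    ‖kerT T z w - ker z w‖ ≤
      (Real.exp (∑ j, Real.exp (-(T * (|(z j).im| * (|(z j).im| - c j))))) - 1) * ‖ker z w‖ := by
  have hne : ∀ j, z j - w j ≠ 0 := fun j =>
    norm_pos_iff.1 ((sub_pos.2 (hz j)).trans_le (le_norm_sub (hw j)))
  have h1 : kerT T z w - ker z w =
      (∏ j, (1 + -exp ((T * (z j).im : ℝ) * I * (z j - w j))) - 1) * ker z w := by
    simp only [kerT, ent_eq _ (hne _), Finset.prod_mul_distrib, ker]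
    ring
  rw [h1, norm_mul]
  refine mul_le_mul_of_nonneg_right ((Finset.norm_prod_one_add_sub_one_le _ _).trans ?_)
    (norm_nonneg _)
  gcongr with j
  rw [norm_neg, norm_exp, Real.exp_le_exp]
  have h2 : (((T * (z j).im : ℝ) : ℂ) * I * (z j - w j)).re =
      -(T * ((z j).im * ((z j).im - (w j).im))) := by
    simp; ring
  rw [h2, neg_le_neg_iff]
  refine mul_le_mul_of_nonneg_left ?_ hT
  have h3 : (z j).im * (w j).im ≤ |(z j).im| * c j :=
    (le_abs_self _).trans (by rw [abs_mul]; exact mul_le_mul_of_nonneg_left (hw j) (abs_nonneg _))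
  have h4 := abs_mul_abs_self (z j).im
  nlinarith

theorem ker_est {c : Fin n → ℝ} {z : Fin n → ℂ} (hz : ∀ j, c j < |(z j).im|) :
    ∃ D, 0 ≤ D ∧ ∀ w : Fin n → ℂ, (∀ j, |(w j).im| ≤ c j) →
      ‖ker z w‖ ≤ D ∧ ∀ k, ‖ker z w‖ ≤ D * ‖z k - w k‖⁻¹ := by
  classical
  refine ⟨∏ j, max 1 (|(z j).im| - c j)⁻¹, Finset.prod_nonneg fun j _ => by positivity,
    fun w hw => ?_⟩
  have h1 : ∀ j, ‖(z j - w j)⁻¹‖ ≤ max 1 (|(z j).im| - c j)⁻¹ := fun j => by
    rw [norm_inv]
    exact (inv_anti₀ (sub_pos.2 (hz j)) (le_norm_sub (hw j))).trans (le_max_right _ _)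
  refine ⟨?_, fun k => ?_⟩
  · rw [ker, norm_prod]
    exact Finset.prod_le_prod (fun j _ => norm_nonneg _) fun j _ => h1 j
  · rw [ker, norm_prod, ← Finset.mul_prod_erase Finset.univ _ (Finset.mem_univ k), mul_comm,
      norm_inv]
    refine mul_le_mul_of_nonneg_right ?_ (by positivity)
    rw [← Finset.mul_prod_erase Finset.univ _ (Finset.mem_univ k)]
    refine le_trans (Finset.prod_le_prod (fun j _ => norm_nonneg _) fun j _ => h1 j) ?_
    exact le_mul_of_one_le_left (Finset.prod_nonneg fun j _ => by positivity) (le_max_left _ _)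

theorem tendsto_ker (hn : 0 < n) {c : Fin n → ℝ} {z : Fin n → ℂ} (hz : ∀ j, c j < |(z j).im|)
    (A : Set (Fin n → ℝ)) :
    Tendsto (fun w => ‖ker z w‖) (cocompact (Fin n → ℂ) ⊓ 𝓟 (tube A c)) (𝓝 0) := by
  obtain ⟨D, hD0, hD⟩ := ker_est hz
  have : Nonempty (Fin n) := ⟨⟨0, hn⟩⟩
  have h1 : Tendsto (fun w : Fin n → ℂ => D * ‖z - w‖⁻¹) (cocompact (Fin n → ℂ)) (𝓝 0) := by
    have h2 : Tendsto (fun w : Fin n → ℂ => ‖z - w‖) (cocompact (Fin n → ℂ)) atTop := by
      exact (tendsto_dist_left_cocompact_atTop z).congr fun w => dist_eq_norm _ _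
    simpa using h2.inv_tendsto_atTop.const_mul D
  refine squeeze_zero' (Eventually.of_forall fun w => norm_nonneg _) ?_ (h1.mono_left inf_le_left)
  rw [eventually_inf_principal]
  refine Eventually.of_forall fun w hw => ?_
  obtain ⟨k, hk⟩ := (IsGreatest.pi_norm (z - w)).1
  have h3 : ‖z - w‖ = ‖z k - w k‖ := hk.symm
  rw [h3]
  exact (hD w hw.2).2 k

theorem kerHull_of_hull (hn : 0 < n) {Ω : Set (Fin n → ℝ)} {c : Fin n → ℝ} (hc0 : ∀ j, 0 ≤ c j)
    {x : Fin n → ℝ} (hx : x ∈ hullSet Ω c) : KerHull Ω c x := by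
  intro s α hs M hM0 hM
  choose! D hD0 hD using fun z (hz : z ∈ s) => ker_est (hs z hz)
  set e : (Fin n → ℂ) → ℝ → ℝ := fun z T =>
    Real.exp (∑ j, Real.exp (-(T * (|(z j).im| * (|(z j).im| - c j))))) - 1 with he
  have he0 : ∀ z T, 0 ≤ e z T := fun z T =>
    sub_nonneg.2 (Real.one_le_exp (Finset.sum_nonneg fun j _ => (Real.exp_pos _).le))
  set E : ℝ → ℝ := fun T => ∑ z ∈ s, ‖α z‖ * (e z T * D z) with hE
  have hE0 : ∀ T, 0 ≤ E T := fun T => Finset.sum_nonneg fun z hz =>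
    mul_nonneg (norm_nonneg _) (mul_nonneg (he0 z T) (hD0 z hz))
  have hElim : Tendsto E atTop (𝓝 0) := by
    have h1 : ∀ z ∈ s, Tendsto (fun T => ‖α z‖ * (e z T * D z)) atTop (𝓝 0) := by
      intro z hz
      have h2 : ∀ j, Tendsto (fun T : ℝ => Real.exp (-(T * (|(z j).im| * (|(z j).im| - c j)))))
          atTop (𝓝 0) := fun j => by
        have h3 := hs z hz j
        have h4 : 0 < |(z j).im| * (|(z j).im| - c j) :=
          mul_pos ((hc0 j).trans_lt h3) (sub_pos.2 h3)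
        exact Real.tendsto_exp_neg_atTop_nhds_zero.comp (tendsto_id.atTop_mul_const h4)
      have h3 := tendsto_finsetSum Finset.univ fun j _ => h2 j
      have h4 := ((((Real.continuous_exp.tendsto _).comp h3).sub_const 1).mul_const
        (D z)).const_mul ‖α z‖
      simpa [he] using h4
    simpa [hE] using tendsto_finsetSum s h1
  have happ : ∀ T, 0 ≤ T → ∀ w : Fin n → ℂ, (∀ j, |(w j).im| ≤ c j) →
      ‖∑ z ∈ s, α z * kerT T z w - ∑ z ∈ s, α z * ker z w‖ ≤ E T := by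
    intro T hT w hw
    rw [← Finset.sum_sub_distrib]
    refine (norm_sum_le _ _).trans (Finset.sum_le_sum fun z hz => ?_)
    rw [← mul_sub, norm_mul]
    refine mul_le_mul_of_nonneg_left ((kerT_est (hs z hz) hT hw).trans ?_) (norm_nonneg _)
    exact mul_le_mul_of_nonneg_left (hD z hz w hw).1 (he0 z T)
  have hb : ∀ T, 0 ≤ T → ‖∑ z ∈ s, α z * ker z (ofR x)‖ ≤ M + 2 * E T := by
    intro T hT
    have h1 := hx.2 (fun w => ∑ z ∈ s, α z * kerT T z w)
      (Differentiable.fun_sum fun z _ => (differentiable_kerT T z).const_mul _) ?_ (M + E T)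
      (add_nonneg hM0 (hE0 T)) ?_
    · have h2 := happ T hT (ofR x) fun j => by simpa using hc0 j
      have h3 := norm_sub_norm_le (∑ z ∈ s, α z * ker z (ofR x)) (∑ z ∈ s, α z * kerT T z (ofR x))
      rw [norm_sub_rev] at h3
      linarith
    · have h2 : ∀ z ∈ s, Tendsto (fun w => α z * kerT T z w)
          (cocompact (Fin n → ℂ) ⊓ 𝓟 (tube (closure Ω) c)) (𝓝 0) := by
        intro z hz
        have h3 := (tendsto_ker hn (hs z hz) (closure Ω)).const_mul (e z T + 1)
        rw [mul_zero] at h3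
        have h4 : Tendsto (fun w => kerT T z w)
            (cocompact (Fin n → ℂ) ⊓ 𝓟 (tube (closure Ω) c)) (𝓝 0) := by
          refine squeeze_zero_norm' ?_ h3
          rw [eventually_inf_principal]
          refine Eventually.of_forall fun w hw => ?_
          have h5 := kerT_est (hs z hz) hT hw.2
          have h6 := norm_sub_norm_le (kerT T z w) (ker z w)
          simp only [he]
          linarith
        simpa using h4.const_mul (α z)
      simpa using tendsto_finsetSum s h2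
    · intro w hw
      have h2 := happ T hT w hw.2
      have h3 := norm_sub_norm_le (∑ z ∈ s, α z * kerT T z w) (∑ z ∈ s, α z * ker z w)
      have h4 := hM w hw
      linarith
  have hl : Tendsto (fun T => M + 2 * E T) atTop (𝓝 M) := by
    simpa using (hElim.const_mul 2).const_add M
  refine ge_of_tendsto hl ?_
  filter_upwards [eventually_ge_atTop 0] with T hT using hb T hT

theorem upper_bound (hn : 0 < n) {Ω : Set (Fin n → ℝ)} (hΩ : IsOpen Ω) (hconv : Convex ℝ Ω)
    {c : Fin n → ℝ} (hc0 : ∀ j, 0 ≤ c j) :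
    vanishingSet Ω c ⊆ Ω \ closure (interior (hullSet Ω c)) :=
  upper_of_ker hΩ hconv hc0 fun _ hx => kerHull_of_hull hn hc0 hx

theorem convex_formula (hn : 0 < n) {Ω : Set (Fin n → ℝ)} (hΩ : IsOpen Ω) (hconv : Convex ℝ Ω)
    {c : Fin n → ℝ} (hc0 : ∀ j, 0 ≤ c j) :
    vanishingSet Ω c = Ω \ closure (interior (hullSet Ω c)) :=
  (upper_bound hn hΩ hconv hc0).antisymm (lower_bound hΩ hc0)

theorem general_bounds (hn : 0 < n) {Ω : Set (Fin n → ℝ)} (hΩ : IsOpen Ω)
    {c : Fin n → ℝ} (hc0 : ∀ j, 0 ≤ c j) :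
    Ω \ closure (interior (hullSet Ω c)) ⊆ vanishingSet Ω c ∧
      vanishingSet Ω c ⊆ Ω \ closure (interior (hullSet (convexHull ℝ Ω) c)) :=
  ⟨lower_bound hΩ hc0, fun _ hx => ⟨vanishingSet_subset Ω c hx,
    (upper_bound hn hΩ.convexHull (convex_convexHull ℝ Ω) hc0
      (vanishingSet_mono (subset_convexHull ℝ Ω) c hx)).2⟩⟩

end Pool.Agent.Lib.MP_b71113_an
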