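import Pool.Agent.Lib.MP_b71113_an.Upper

namespace Pool.Agent.Lib.MP_b71113_an.HullFormulaOld

open Pool.Agent.Lib.MP_b71113_an

/-- Two-sided bound for `U(Ω,c)` by holomorphic hulls, with equality for convex `Ω`. -/
theorem result (n : ℕ) (hn : 1 < n) (Ω : Set (Fin n → ℝ)) (hΩ : IsOpen Ω) (c : Fin n → ℝ)
    (hc : ∀ j, 0 ≤ c j) :
    Ω \ closure (interior (hullSet Ω c)) ⊆ vanishingSet Ω c ∧
    vanishingSet Ω c ⊆ Ω \ closure (interior (hullSet (convexHull ℝ Ω) c)) ∧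
    (Convex ℝ Ω → vanishingSet Ω c = Ω \ closure (interior (hullSet Ω c))) :=
  ⟨(general_bounds (by omega) hΩ hc).1, (general_bounds (by omega) hΩ hc).2,
    fun h => convex_formula (by omega) hΩ h hc⟩

end Pool.Agent.Lib.MP_b71113_an.HullFormulaOld
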