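import Pool.Agent.Lib.MP_b71113_an.Box

/-! The explicit formula for products of arbitrary open intervals. -/

namespace Pool.Agent.Lib.MP_b71113_an

open Set Filter Topology Complex Metric
open scoped Real

variable {n : ℕ}

/-- Truncated left end. -/
noncomputable def lo (a : EReal) (R : ℝ) : ℝ := if a = ⊥ then -R else a.toReal

/-- Truncated right end. -/
noncomputable def hi (b : EReal) (R : ℝ) : ℝ := if b = ⊤ then R else b.toReal

theorem lt_iff_toReal {a : EReal} (h1 : a ≠ ⊥) (h2 : a ≠ ⊤) (x : ℝ) :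
    a < (x : EReal) ↔ a.toReal < x := by
  conv_lhs => rw [← EReal.coe_toReal h2 h1]
  exact EReal.coe_lt_coe_iff

theorem gt_iff_toReal {a : EReal} (h1 : a ≠ ⊥) (h2 : a ≠ ⊤) (x : ℝ) :
    (x : EReal) < a ↔ x < a.toReal := by
  conv_lhs => rw [← EReal.coe_toReal h2 h1]
  exact EReal.coe_lt_coe_iff

theorem lt_of_lo {a : EReal} (h2 : a ≠ ⊤) {R x : ℝ} (h : lo a R < x) : a < (x : EReal) := by
  by_cases h1 : a = ⊥
  · rw [h1]; exact EReal.bot_lt_coe x
  · rw [lo, if_neg h1] at h; exact (lt_iff_toReal h1 h2 x).2 h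

theorem lt_of_hi {b : EReal} (h1 : b ≠ ⊥) {R x : ℝ} (h : x < hi b R) : (x : EReal) < b := by
  by_cases h2 : b = ⊤
  · rw [h2]; exact EReal.coe_lt_top x
  · rw [hi, if_neg h2] at h; exact (gt_iff_toReal h1 h2 x).2 h

theorem lo_lt {a : EReal} {R x : ℝ} (h : a < (x : EReal)) (hR : |x| < R) : lo a R < x := by
  unfold lo
  split_ifs with h1
  · exact (abs_lt.1 hR).1
  · exact (lt_iff_toReal h1 (ne_top_of_lt h) x).1 h

theorem lt_hi {b : EReal} {R x : ℝ} (h : (x : EReal) < b) (hR : |x| < R) : x < hi b R := by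
  unfold hi
  split_ifs with h1
  · exact (abs_lt.1 hR).2
  · exact (gt_iff_toReal (ne_bot_of_gt h) h1 x).1 h

theorem tendsto_half {c : ℝ} (hc : 0 < c) : Tendsto (halfMeasure c) atTop (𝓝 0) := by
  have h1 : Tendsto (fun t : ℝ => π * t / (2 * c)) atTop atTop :=
    (tendsto_id.const_mul_atTop Real.pi_pos).atTop_div_const (by linarith)
  have h2 := (Real.tendsto_exp_neg_atTop_nhds_zero.comp h1).const_mul (4 / π)
  rw [mul_zero] at h2
  exact squeeze_zero (half_nonneg c) (half_le c) h2

theorem tendsto_rect_aux {c x u : ℝ} (hc : 0 < c) {l h : ℝ → ℝ}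
    (h1 : ∀ᶠ R in atTop, l R < x ∧ x < h R) (h2 : Tendsto (fun R => h R - l R) atTop atTop)
    (h3 : Tendsto (fun R => halfMeasure c (x - l R) + halfMeasure c (h R - x)) atTop (𝓝 u)) :
    Tendsto (fun R => rectMeasure (l R) (h R) c x) atTop (𝓝 u) := by
  have h4 := Real.tendsto_exp_neg_atTop_nhds_zero.comp (h2.const_mul_atTop (lam_pos hc))
  have h5 := (h4.const_mul (8 / π)).mul (((tendsto_const_nhds (x := (1 : ℝ))).sub h4).inv₀ (by simp))
  simp only [mul_zero, zero_mul] at h5
  have h6 : Tendsto (fun R => rectMeasure (l R) (h R) c x -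
      (halfMeasure c (x - l R) + halfMeasure c (h R - x))) atTop (𝓝 0) := by
    refine squeeze_zero_norm' ?_ h5
    filter_upwards [h1] with R hR using rect_tail hc hR.1 hR.2
  simpa using h6.add h3

theorem tendsto_rect {a b : EReal} {c x : ℝ} (hc : 0 < c) (h1 : a < (x : EReal))
    (h2 : (x : EReal) < b) :
    Tendsto (fun R => rectMeasure (lo a R) (hi b R) c x) atTop (𝓝 (sideMeasure a b c x)) := by
  have h0 : ∀ᶠ R in atTop, lo a R < x ∧ x < hi b R := by
    filter_upwards [eventually_gt_atTop |x|] with R hR using ⟨lo_lt h1 hR, lt_hi h2 hR⟩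
  have e1 : Tendsto (fun R : ℝ => halfMeasure c (x - -R)) atTop (𝓝 0) :=
    (tendsto_half hc).comp (by simpa using tendsto_atTop_add_const_left atTop x tendsto_id)
  have e2 : Tendsto (fun R : ℝ => halfMeasure c (R - x)) atTop (𝓝 0) :=
    (tendsto_half hc).comp (tendsto_atTop_add_const_right atTop (-x) tendsto_id)
  by_cases ha : a = ⊥ <;> by_cases hb : b = ⊤
  · refine tendsto_rect_aux hc h0 ?_ ?_ <;> simp only [lo, hi, sideMeasure, if_pos ha, if_pos hb]
    · simpa using tendsto_id.atTop_add_atTop (tendsto_id (x := (atTop : Filter ℝ)))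
    · simpa using e1.add e2
  · refine tendsto_rect_aux hc h0 ?_ ?_ <;> simp only [lo, hi, sideMeasure, if_pos ha, if_neg hb]
    · simpa using tendsto_atTop_add_const_left atTop b.toReal tendsto_id
    · simpa using e1.add_const (halfMeasure c (b.toReal - x))
  · refine tendsto_rect_aux hc h0 ?_ ?_ <;> simp only [lo, hi, sideMeasure, if_neg ha, if_pos hb]
    · exact tendsto_atTop_add_const_right atTop (-a.toReal) tendsto_id
    · simpa using e2.const_add (halfMeasure c (x - a.toReal))
  · simp only [lo, hi, sideMeasure, if_neg ha, if_neg hb]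
    exact tendsto_const_nhds

theorem continuous_half (c : ℝ) : Continuous (halfMeasure c) := by
  unfold halfMeasure
  exact continuous_const.mul (Real.continuous_arctan.comp (by fun_prop))

theorem half_lt {c s t : ℝ} (hc : 0 < c) (h : s < t) : halfMeasure c t < halfMeasure c s := by
  refine mul_lt_mul_of_pos_left (Real.arctan_lt_arctan_iff.2 (Real.exp_lt_exp.2 ?_))
    (div_pos (by norm_num) Real.pi_pos)
  rw [neg_lt_neg_iff]
  exact div_lt_div_of_pos_right (mul_lt_mul_of_pos_left h Real.pi_pos) (by linarith)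

theorem continuousAt_side {a b : EReal} {c x : ℝ} (hc : 0 < c) (h1 : a < (x : EReal))
    (h2 : (x : EReal) < b) : ContinuousAt (sideMeasure a b c) x := by
  unfold sideMeasure
  split_ifs with ha hb hb
  · exact continuousAt_const
  · exact ((continuous_half c).comp (by fun_prop)).continuousAt
  · exact ((continuous_half c).comp (by fun_prop)).continuousAt
  · exact (continuousOn_rect hc).continuousAt (Ioo_mem_nhds
      ((lt_iff_toReal ha (ne_top_of_lt h1) x).1 h1) ((gt_iff_toReal (ne_bot_of_gt h2) hb x).1 h2))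

theorem side_not_max {a b : EReal} {c x : ℝ} (hc : 0 < c) (h1 : a < (x : EReal))
    (h2 : (x : EReal) < b) (h : ∀ᶠ t in 𝓝 x, sideMeasure a b c t ≤ sideMeasure a b c x) :
    sideMeasure a b c x = 0 := by
  by_cases ha : a = ⊥ <;> by_cases hb : b = ⊤
  · simp [sideMeasure, ha, hb]
  · simp only [sideMeasure, if_pos ha, if_neg hb] at h
    obtain ⟨t, h3, h4⟩ := ((h.filter_mono (nhdsWithin_le_nhds (s := Ioi x))).and
      self_mem_nhdsWithin).exists
    exact absurd (half_lt hc (show b.toReal - t < b.toReal - x by linarith [show x < t from h4]))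
      (not_lt.2 h3)
  · simp only [sideMeasure, if_neg ha, if_pos hb] at h
    obtain ⟨t, h3, h4⟩ := ((h.filter_mono (nhdsWithin_le_nhds (s := Iio x))).and
      self_mem_nhdsWithin).exists
    exact absurd (half_lt hc (show t - a.toReal < x - a.toReal by linarith [show t < x from h4]))
      (not_lt.2 h3)
  · simp only [sideMeasure, if_neg ha, if_neg hb] at h
    exact absurd h (rect_not_max hc ((lt_iff_toReal ha (ne_top_of_lt h1) x).1 h1)
      ((gt_iff_toReal (ne_bot_of_gt h2) hb x).1 h2))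

theorem prod_formula (hn : 0 < n) (a b : Fin n → EReal) {c : Fin n → ℝ} (hc : ∀ j, 0 < c j) :
    vanishingSet {x | ∀ j, a j < (x j : EReal) ∧ (x j : EReal) < b j} c =
      {x | (∀ j, a j < (x j : EReal) ∧ (x j : EReal) < b j) ∧
        ∑ j, sideMeasure (a j) (b j) (c j) (x j) < 1} := by
  classical
  set Ω : Set (Fin n → ℝ) := {x | ∀ j, a j < (x j : EReal) ∧ (x j : EReal) < b j} with hΩ
  have hΩo : IsOpen Ω := by
    have : Ω = ⋂ j, {x : Fin n → ℝ | a j < (x j : EReal)} ∩ {x | (x j : EReal) < b j} := by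
      ext x; simp [hΩ]
    rw [this]
    have hco : ∀ j, Continuous fun x : Fin n → ℝ => (x j : EReal) := fun j =>
      continuous_coe_real_ereal.comp (continuous_apply j)
    exact isOpen_iInter_of_finite fun j =>
      (isOpen_lt continuous_const (hco j)).inter (isOpen_lt (hco j) continuous_const)
  have hΩc : Convex ℝ Ω := by
    have : Ω = univ.pi fun j => {t : ℝ | a j < (t : EReal) ∧ (t : EReal) < b j} := by
      ext x; simp [hΩ]
    rw [this]
    refine convex_pi fun j _ => OrdConnected.convex ⟨fun s hs t ht u hu => ⟨?_, ?_⟩⟩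
    · exact hs.1.trans_le (EReal.coe_le_coe_iff.2 hu.1)
    · exact (EReal.coe_le_coe_iff.2 hu.2).trans_lt ht.2
  set S : (Fin n → ℝ) → ℝ := fun x => ∑ j, sideMeasure (a j) (b j) (c j) (x j) with hS
  have hSc : ContinuousOn S Ω := fun x hx => ContinuousAt.continuousWithinAt
    (tendsto_finsetSum _ fun j _ => ContinuousAt.comp (f := fun x : Fin n → ℝ => x j)
      (continuousAt_side (hc j) (hx j).1 (hx j).2) (continuous_apply j).continuousAt)
  set B : ℝ → Set (Fin n → ℝ) := fun R => univ.pi fun j => Ioo (lo (a j) R) (hi (b j) R) with hB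
  have hmem : ∀ x ∈ Ω, ∀ R, ‖x‖ < R → x ∈ B R := fun x hx R hR j _ =>
    ⟨lo_lt (hx j).1 ((norm_le_pi_norm x j).trans_lt hR),
      lt_hi (hx j).2 ((norm_le_pi_norm x j).trans_lt hR)⟩
  have hsub : ∀ x ∈ Ω, ∀ R, B R ⊆ Ω := fun x hx R y hy j =>
    ⟨lt_of_lo (ne_top_of_lt (hx j).1) (hy j (mem_univ _)).1,
      lt_of_hi (ne_bot_of_gt (hx j).2) (hy j (mem_univ _)).2⟩
  have hlim : ∀ x ∈ Ω, Tendsto (fun R => ∑ j, rectMeasure (lo (a j) R) (hi (b j) R) (c j) (x j))
      atTop (𝓝 (S x)) := fun x hx =>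
    tendsto_finsetSum _ fun j _ => tendsto_rect (hc j) (hx j).1 (hx j).2
  have hhull : ∀ x ∈ Ω, 1 < S x → x ∈ hullSet Ω c := by
    intro x hx hs
    refine ⟨hx, fun φ hφ hφ0 M hM0 hM => le_of_forall_pos_le_add fun ε hε => ?_⟩
    have hev : ∀ᶠ z in cocompact (Fin n → ℂ) ⊓ 𝓟 (tube (closure Ω) c), ‖φ z‖ < ε :=
      hφ0.norm.eventually (gt_mem_nhds (by simpa using hε))
    rw [eventually_inf_principal] at hev
    obtain ⟨L, hL, hLs⟩ := mem_cocompact.1 hev
    obtain ⟨D, hD⟩ := hL.exists_bound_of_continuousOn continuous_reV.continuousOn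
    obtain ⟨R, ⟨hR1, hR2⟩, hR3⟩ := ((((hlim x hx).eventually (lt_mem_nhds hs)).and
      (eventually_gt_atTop ‖x‖)).and (eventually_gt_atTop D)).exists
    refine box_hull hc (hmem x hx R hR2) hR1 hφ (by linarith) fun w hw => ?_
    have hBo : IsOpen (B R) := isOpen_set_pi finite_univ fun _ _ => isOpen_Ioo
    have hw1 : reV w ∈ frontier (B R) := hw.1
    rw [hBo.frontier_eq] at hw1
    have hw2 : reV w ∈ closure Ω := closure_mono (hsub x hx R) hw1.1
    by_cases hwΩ : reV w ∈ Ω
    · have h1 : w ∉ L := fun h => hw1.2 (hmem _ hwΩ R ((hD w h).trans_lt hR3))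
      have h2 : ‖φ w‖ < ε := hLs h1 ⟨hw2, hw.2⟩
      linarith
    · have := hM w ⟨by rw [hΩo.frontier_eq]; exact ⟨hw2, hwΩ⟩, hw.2⟩
      linarith
  refine Subset.antisymm (fun x hxU => ?_) ?_
  · obtain ⟨hx, hxc⟩ := upper_bound hn hΩo hΩc (fun j => (hc j).le) hxU
    have hle : ∀ᶠ y in 𝓝 x, S y ≤ 1 := by
      filter_upwards [isClosed_closure.isOpen_compl.mem_nhds hxc, hΩo.mem_nhds hx] with y h1 h2
      by_contra h3
      refine h1 (subset_closure (mem_interior_iff_mem_nhds.2 ?_))
      filter_upwards [(hSc.continuousAt (hΩo.mem_nhds h2)).eventually (lt_mem_nhds (not_le.1 h3)),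
        hΩo.mem_nhds h2] with z h4 h5 using hhull z h5 h4
    refine ⟨hx, lt_of_le_of_ne hle.self_of_nhds fun h1 => ?_⟩
    have h0 : ∀ j, sideMeasure (a j) (b j) (c j) (x j) = 0 := by
      intro j
      refine side_not_max (hc j) (hx j).1 (hx j).2 ?_
      have h2 : Tendsto (fun t => Function.update x j t) (𝓝 (x j)) (𝓝 x) :=
        Continuous.tendsto' (continuous_const.update j continuous_id) _ _ (by simp)
      filter_upwards [h2.eventually hle] with t ht
      have h3 : S (Function.update x j t) - S x =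
          sideMeasure (a j) (b j) (c j) t - sideMeasure (a j) (b j) (c j) (x j) := by
        simp only [hS]
        rw [← Finset.sum_sub_distrib, Finset.sum_eq_single j (fun i _ hi => by simp [hi]) (by simp)]
        simp
      have h4 : S x = 1 := h1
      linarith
    simp [h0] at h1
  · refine subset_sUnion_of_mem ⟨hSc.isOpen_inter_preimage hΩo isOpen_Iio, fun x hx => hx.1,
      fun f F h x hx => ?_⟩
    obtain ⟨R, hR1, hR2⟩ := (((hlim x hx.1).eventually (gt_mem_nhds hx.2)).and
      (eventually_gt_atTop ‖x‖)).exists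
    exact box_vanish hc (hmem x hx.1 R hR2) hR1 (h.mono (hsub x hx.1 R))

end Pool.Agent.Lib.MP_b71113_an
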