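import Pool.Agent.Lib.MP_b71113_an.Upper

/-! The harmonic measure of the vertical sides of the rectangle `(0,Λ) × (-π/2, π/2)`. -/

namespace Pool.Agent.Lib.MP_b71113_an

open Set Filter Topology Complex Metric
open scoped Real

/-- Harmonic measure (real part) of the vertical side of a half-strip. -/
noncomputable def aa (s : ℂ) : ℂ := 4 / π * arctan (exp (-s))

theorem quot_eq (q : ℂ) : (1 + q * I) / (1 - q * I) =
    (((normSq (1 - q * I))⁻¹ : ℝ) : ℂ) * ⟨1 - normSq q, 2 * q.re⟩ := by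
  have h1 : (1 + q * I) * (starRingEnd ℂ) (1 - q * I) = ⟨1 - normSq q, 2 * q.re⟩ := by
    apply Complex.ext <;> simp [normSq_apply] <;> ring
  rw [← h1, div_eq_mul_inv, Complex.inv_def]
  push_cast
  ring

theorem arg_quot (q : ℂ) : arg ((1 + q * I) / (1 - q * I)) = arg ⟨1 - normSq q, 2 * q.re⟩ := by
  by_cases h : 1 - q * I = 0
  · have h1 : q = -I := by linear_combination (I) * h + q * I_mul_I
    rw [h, div_zero, h1]
    congr 1
    apply Complex.ext <;> simp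
  · rw [quot_eq, arg_real_mul _ (inv_pos.2 (normSq_pos.2 h))]

theorem normSq_exp_neg (s : ℂ) : normSq (exp (-s)) = Real.exp (-s.re) ^ 2 := by
  rw [normSq_eq_norm_sq, norm_exp, neg_re]

theorem re_exp_neg (s : ℂ) : (exp (-s)).re = Real.exp (-s.re) * Real.cos s.im := by
  rw [exp_re, neg_re, neg_im, Real.cos_neg]

theorem re_aa (s : ℂ) : (aa s).re =
    2 / π * arg ⟨1 - Real.exp (-s.re) ^ 2, 2 * (Real.exp (-s.re) * Real.cos s.im)⟩ := by
  rw [← normSq_exp_neg, ← re_exp_neg, ← arg_quot, ← log_im, aa, arctan]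
  have : (4 / π : ℂ) = ((4 / π : ℝ) : ℂ) := by push_cast; rfl
  rw [this, re_ofReal_mul]
  simp
  ring

theorem exp_sq_le {x : ℝ} (hx : 0 ≤ x) : 0 ≤ 1 - Real.exp (-x) ^ 2 := by
  have h1 : Real.exp (-x) ≤ 1 := Real.exp_le_one_iff.2 (by linarith)
  nlinarith [Real.exp_pos (-x)]

theorem exp_sq_lt {x : ℝ} (hx : 0 < x) : 0 < 1 - Real.exp (-x) ^ 2 := by
  have h1 : Real.exp (-x) < 1 := Real.exp_lt_one_iff.2 (by linarith)
  nlinarith [Real.exp_pos (-x)]

theorem re_aa_mem {s : ℂ} (h1 : 0 ≤ s.re) (h2 : |s.im| ≤ π / 2) :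
    0 ≤ (aa s).re ∧ (aa s).re ≤ 1 := by
  have hc : 0 ≤ Real.cos s.im := Real.cos_nonneg_of_mem_Icc (abs_le.1 h2)
  have hπ := Real.pi_pos
  rw [re_aa]
  constructor
  · refine mul_nonneg (by positivity) (arg_nonneg_iff.2 ?_)
    have := Real.exp_pos (-s.re)
    positivity
  · have := arg_le_pi_div_two_iff.2 (Or.inl (show 0 ≤ (⟨1 - Real.exp (-s.re) ^ 2,
      2 * (Real.exp (-s.re) * Real.cos s.im)⟩ : ℂ).re from exp_sq_le h1))
    rw [div_mul_eq_mul_div, div_le_one hπ]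
    linarith

theorem re_aa_top {s : ℂ} (h1 : 0 ≤ s.re) (h2 : |s.im| = π / 2) : (aa s).re = 0 := by
  have hc : Real.cos s.im = 0 := by rw [← Real.cos_abs, h2, Real.cos_pi_div_two]
  rw [re_aa, arg_eq_zero_iff.2 ⟨exp_sq_le h1, by simp [hc]⟩, mul_zero]

theorem re_aa_side {s : ℂ} (h1 : s.re = 0) (h2 : |s.im| < π / 2) : (aa s).re = 1 := by
  have hc : 0 < Real.cos s.im := Real.cos_pos_of_mem_Ioo (abs_lt.1 h2)
  rw [re_aa, arg_eq_pi_div_two_iff.2 ⟨by simp [h1], by simp [h1, hc]⟩]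
  have := Real.pi_pos
  field_simp

theorem re_aa_congr {s t : ℂ} (h1 : s.re = t.re) (h2 : s.im = -t.im) : (aa s).re = (aa t).re := by
  rw [re_aa, re_aa, h1, h2, Real.cos_neg]

theorem differentiableAt_aa {s : ℂ} (h : 0 < s.re ∨ |s.im| < π / 2) : DifferentiableAt ℂ aa s := by
  have key : 0 < 1 - normSq (exp (-s)) ∨ 0 < (exp (-s)).re := by
    rcases h with h | h
    · left; rw [normSq_exp_neg]; exact exp_sq_lt h
    · right; rw [re_exp_neg]
      exact mul_pos (Real.exp_pos _) (Real.cos_pos_of_mem_Ioo (abs_lt.1 h))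
  have hne : 1 - exp (-s) * I ≠ 0 := by
    intro h0
    have h1 : exp (-s) = -I := by linear_combination (I) * h0 + exp (-s) * I_mul_I
    rw [h1] at key
    simp at key
  have hsl : (1 + exp (-s) * I) / (1 - exp (-s) * I) ∈ slitPlane := by
    rw [quot_eq]
    have hp := inv_pos.2 (normSq_pos.2 hne)
    rcases key with k | k
    · left; rw [re_ofReal_mul]; exact mul_pos hp k
    · right; rw [im_ofReal_mul]; exact (mul_pos hp (by simpa using k)).ne'
  unfold aa arctan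
  have hq : DifferentiableAt ℂ (fun s : ℂ => (1 + exp (-s) * I) / (1 - exp (-s) * I)) s :=
    DifferentiableAt.div (by fun_prop) (by fun_prop) hne
  exact ((hq.clog hsl).const_mul _).const_mul _

theorem norm_arctan_le {q : ℂ} (h : ‖q‖ < 1) : ‖arctan q‖ ≤ ‖q‖ * (1 - ‖q‖)⁻¹ := by
  have h1 := (hasSum_geometric_of_lt_one (norm_nonneg q) h).mul_left ‖q‖
  refine (hasSum_arctan h).norm_le_of_bounded h1 fun k => ?_
  rw [norm_div, norm_mul, norm_pow, norm_neg, norm_one, one_pow, one_mul, norm_pow,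
    Complex.norm_natCast]
  have h2 : ‖q‖ ^ (2 * k + 1) ≤ ‖q‖ * ‖q‖ ^ k := by
    rw [pow_succ']
    exact mul_le_mul_of_nonneg_left
      (pow_le_pow_of_le_one (norm_nonneg q) h.le (by omega)) (norm_nonneg q)
  refine le_trans (div_le_self (by positivity) ?_) h2
  exact_mod_cast Nat.succ_le_succ (Nat.zero_le _)

theorem norm_aa_le {δ Λ : ℝ} (hδ : 0 < δ) (hΛ : 0 < Λ) {s : ℂ} (hs : δ ≤ s.re) (r : ℕ) :
    ‖(-1 : ℂ) ^ r * aa (s + r * Λ)‖ ≤
      4 / π * (1 - Real.exp (-δ))⁻¹ * Real.exp (-Λ) ^ r := by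
  have hπ := Real.pi_pos
  have h0 : Real.exp (-δ) < 1 := Real.exp_lt_one_iff.2 (by linarith)
  have hr : (0 : ℝ) ≤ r * Λ := by positivity
  have h1 : ‖exp (-(s + r * Λ))‖ = Real.exp (-(s.re + r * Λ)) := by
    rw [norm_exp]; simp
  have h2 : ‖exp (-(s + r * Λ))‖ ≤ Real.exp (-δ) := by
    rw [h1, Real.exp_le_exp]; linarith
  have h3 : ‖exp (-(s + r * Λ))‖ ≤ Real.exp (-Λ) ^ r := by
    rw [h1, ← Real.exp_nat_mul, Real.exp_le_exp]; linarith
  have h4 := norm_arctan_le (h2.trans_lt h0)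
  have h5 : ‖(4 / π : ℂ)‖ = 4 / π := by
    rw [norm_div, norm_real, Real.norm_of_nonneg hπ.le]; simp
  rw [norm_mul, norm_pow, norm_neg, norm_one, one_pow, one_mul, aa, norm_mul, h5, mul_assoc]
  refine mul_le_mul_of_nonneg_left (h4.trans ?_) (by positivity)
  rw [mul_comm]
  refine mul_le_mul (inv_anti₀ (by linarith) (by linarith)) h3 (norm_nonneg _) ?_
  exact inv_nonneg.2 (by linarith)

theorem summable_bound {Λ : ℝ} (hΛ : 0 < Λ) (C : ℝ) :
    Summable fun r : ℕ => C * Real.exp (-Λ) ^ r :=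
  (summable_geometric_of_lt_one (Real.exp_pos _).le
    (Real.exp_lt_one_iff.2 (by linarith))).mul_left C

/-- Alternating sum of images. -/
noncomputable def ss (Λ : ℝ) (s : ℂ) : ℂ := ∑' r : ℕ, (-1 : ℂ) ^ r * aa (s + r * Λ)

theorem summable_ss {Λ : ℝ} (hΛ : 0 < Λ) {s : ℂ} (hs : 0 < s.re) :
    Summable fun r : ℕ => (-1 : ℂ) ^ r * aa (s + r * Λ) :=
  Summable.of_norm_bounded (summable_bound hΛ _) (norm_aa_le hs hΛ le_rfl)

theorem differentiableAt_ss {Λ : ℝ} (hΛ : 0 < Λ) {s : ℂ} (hs : 0 < s.re) :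
    DifferentiableAt ℂ (ss Λ) s := by
  have hU : IsOpen {t : ℂ | s.re / 2 < t.re} := isOpen_lt continuous_const continuous_re
  have h := differentiableOn_tsum_of_summable_norm
    (F := fun (r : ℕ) (t : ℂ) => (-1 : ℂ) ^ r * aa (t + r * Λ)) (summable_bound hΛ _)
    (fun r t ht => ?_) hU fun r t ht => norm_aa_le (half_pos hs) hΛ (le_of_lt ht) r
  · exact h.differentiableAt (hU.mem_nhds (show s.re / 2 < s.re by linarith))
  · refine DifferentiableAt.differentiableWithinAt (DifferentiableAt.const_mul ?_ _)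
    refine (differentiableAt_aa (Or.inl ?_)).comp t (by fun_prop)
    have h1 : s.re / 2 < t.re := ht
    have hr : (0 : ℝ) ≤ r * Λ := by positivity
    simp
    linarith

theorem re_ss {Λ : ℝ} (hΛ : 0 < Λ) {s : ℂ} (hs : 0 < s.re) :
    (ss Λ s).re = ∑' r : ℕ, (-1 : ℝ) ^ r * (aa (s + r * Λ)).re := by
  rw [ss, re_tsum (summable_ss hΛ hs)]
  congr 1
  funext r
  have : (-1 : ℂ) ^ r = (((-1 : ℝ) ^ r : ℝ) : ℂ) := by push_cast; rfl
  rw [this, re_ofReal_mul]

theorem re_ss_top {Λ : ℝ} (hΛ : 0 < Λ) {s : ℂ} (hs : 0 < s.re) (h2 : |s.im| = π / 2) :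
    (ss Λ s).re = 0 := by
  rw [re_ss hΛ hs]
  have : ∀ r : ℕ, (aa (s + r * Λ)).re = 0 := fun r => by
    have hr : (0 : ℝ) ≤ r * Λ := by positivity
    exact re_aa_top (by simp; linarith) (by simpa using h2)
  simp [this]

theorem re_ss_congr {Λ : ℝ} (hΛ : 0 < Λ) {s t : ℂ} (hs : 0 < s.re) (h1 : s.re = t.re)
    (h2 : s.im = -t.im) : (ss Λ s).re = (ss Λ t).re := by
  rw [re_ss hΛ hs, re_ss hΛ (h1 ▸ hs)]
  congr 1
  funext r
  rw [re_aa_congr (t := t + r * Λ) (by simp [h1]) (by simp [h2])]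

theorem ss_rec {Λ : ℝ} (hΛ : 0 < Λ) {s : ℂ} (hs : 0 < s.re) : ss Λ s = aa s - ss Λ (Λ + s) := by
  rw [ss, (summable_ss hΛ hs).tsum_eq_zero_add, ss, sub_eq_add_neg, ← tsum_neg]
  congr 1
  · simp
  · congr 1
    funext r
    have : s + ((r + 1 : ℕ) : ℂ) * Λ = Λ + s + r * Λ := by push_cast; ring
    rw [this, pow_succ]
    ring

/-- The holomorphic function whose real part is the harmonic measure of the vertical sides. -/
noncomputable def gg (Λ : ℝ) (s : ℂ) : ℂ := ss Λ s + ss Λ (Λ - s)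

theorem gg_symm (Λ : ℝ) (s : ℂ) : gg Λ (Λ - s) = gg Λ s := by
  simp [gg, add_comm]

theorem differentiableAt_gg {Λ : ℝ} {s : ℂ} (h1 : 0 < s.re) (h2 : s.re < Λ) :
    DifferentiableAt ℂ (gg Λ) s := by
  have hΛ := h1.trans h2
  refine (differentiableAt_ss hΛ h1).add ?_
  exact (differentiableAt_ss hΛ (s := Λ - s) (by simpa using h2)).comp s (by fun_prop)

theorem re_gg_top {Λ : ℝ} {s : ℂ} (h1 : 0 < s.re) (h2 : s.re < Λ) (h3 : |s.im| = π / 2) :
    (gg Λ s).re = 0 := by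
  have hΛ := h1.trans h2
  rw [gg, add_re, re_ss_top hΛ h1 h3, re_ss_top hΛ (by simpa using h2) (by simpa using h3),
    add_zero]

theorem re_gg_congr {Λ : ℝ} {s t : ℂ} (h1 : 0 < s.re) (h2 : s.re < Λ) (h3 : s.re = t.re)
    (h4 : s.im = -t.im) : (gg Λ s).re = (gg Λ t).re := by
  have hΛ := h1.trans h2
  rw [gg, gg, add_re, add_re, re_ss_congr hΛ h1 h3 h4,
    re_ss_congr hΛ (s := Λ - s) (t := Λ - t) (by simpa using h2) (by simp [h3]) (by simp [h4])]

theorem near_side {u : ℂ → ℝ} {y₁ y₂ m : ℝ}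
    (hc : ∀ y ∈ Icc y₁ y₂, ContinuousAt u (y * I)) (hm : ∀ y ∈ Icc y₁ y₂, u (y * I) < m) :
    ∃ δ > 0, ∀ s : ℂ, |s.re| < δ → s.im ∈ Icc y₁ y₂ → u s < m := by
  have h : ∀ᶠ x : ℝ in 𝓝 0, ∀ y ∈ Icc y₁ y₂, u (x + y * I) < m := by
    refine isCompact_Icc.eventually_forall_of_forall_eventually fun y hy => ?_
    have h1 : ContinuousAt (fun p : ℝ × ℝ => u (p.1 + p.2 * I)) (0, y) := by
      refine ContinuousAt.comp (f := fun p : ℝ × ℝ => (p.1 : ℂ) + p.2 * I) ?_ (by fun_prop)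
      simpa using hc y hy
    exact h1.eventually (gt_mem_nhds (by simpa using hm y hy))
  obtain ⟨δ, hδ, h2⟩ := Metric.eventually_nhds_iff.1 h
  refine ⟨δ, hδ, fun s hs hy => ?_⟩
  have := h2 (y := s.re) (by simpa [Real.dist_eq] using hs) s.im hy
  rwa [re_add_im] at this

theorem rest_small {Λ : ℝ} (hΛ : 0 < Λ) {ε : ℝ} (hε : 0 < ε) :
    ∃ δ > 0, ∀ s : ℂ, 0 < s.re → s.re < δ → |s.im| ≤ π / 2 →
      |(gg Λ s).re - (aa s).re| < ε := by
  have hc : ∀ y ∈ Icc (-(π / 2)) (π / 2),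
      ContinuousAt (fun s => |(ss Λ (Λ - s)).re - (ss Λ (Λ + s)).re|) ((y : ℝ) * I) := by
    intro y _
    have h1 := ((differentiableAt_ss hΛ (s := Λ - y * I) (by simpa using hΛ)).comp (y * I : ℂ)
      (f := fun s : ℂ => Λ - s) (by fun_prop)).continuousAt
    have h2 := ((differentiableAt_ss hΛ (s := Λ + y * I) (by simpa using hΛ)).comp (y * I : ℂ)
      (f := fun s : ℂ => Λ + s) (by fun_prop)).continuousAt
    exact ((continuous_re.continuousAt.comp h1).sub (continuous_re.continuousAt.comp h2)).abs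
  obtain ⟨δ, hδ, h⟩ := near_side (m := ε) hc fun y _ => by
    rw [re_ss_congr hΛ (s := Λ - y * I) (t := Λ + y * I) (by simpa using hΛ) (by simp) (by simp)]
    simpa using hε
  refine ⟨δ, hδ, fun s h1 h2 h3 => ?_⟩
  have := h s (by rwa [abs_of_pos h1]) (abs_le.1 h3)
  rw [gg, ss_rec hΛ h1, add_re, sub_re]
  refine lt_of_eq_of_lt ?_ this
  congr 1
  ring

theorem edge_two {Λ : ℝ} {P : ℝ → Prop} {η δ : ℝ}
    (h : ∀ s : ℂ, 0 < s.re → s.re < δ → |s.im| ≤ η → P (gg Λ s).re) (s : ℂ)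
    (h1 : 0 < s.re) (h2 : s.re < Λ) (h3 : s.re < δ ∨ Λ - δ < s.re) (h4 : |s.im| ≤ η) :
    P (gg Λ s).re := by
  rcases h3 with h3 | h3
  · exact h s h1 h3 h4
  · rw [← gg_symm]
    exact h _ (by simpa using h2) (by simp; linarith) (by simpa using h4)

theorem edge_bounds {Λ : ℝ} (hΛ : 0 < Λ) {ε : ℝ} (hε : 0 < ε) :
    ∃ δ > 0, ∀ s : ℂ, 0 < s.re → s.re < Λ → (s.re < δ ∨ Λ - δ < s.re) → |s.im| ≤ π / 2 →
      -ε ≤ (gg Λ s).re ∧ (gg Λ s).re ≤ 1 + ε := by
  obtain ⟨δ, hδ, h⟩ := rest_small hΛ hε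
  refine ⟨δ, hδ, edge_two (P := fun t => -ε ≤ t ∧ t ≤ 1 + ε) fun s h1 h2 h3 => ?_⟩
  have h4 := abs_lt.1 (h s h1 h2 h3)
  have h5 := re_aa_mem h1.le h3
  constructor <;> linarith [h4.1, h4.2, h5.1, h5.2]

theorem edge_one {Λ : ℝ} (hΛ : 0 < Λ) {ε η : ℝ} (hε : 0 < ε) (hη : η < π / 2) :
    ∃ δ > 0, ∀ s : ℂ, 0 < s.re → s.re < Λ → (s.re < δ ∨ Λ - δ < s.re) → |s.im| ≤ η →
      1 - ε ≤ (gg Λ s).re := by
  obtain ⟨δ, hδ, h⟩ := rest_small hΛ (half_pos hε)
  have h0 : ∀ y ∈ Icc (-η) η, |((y : ℝ) * I : ℂ).im| < π / 2 := fun y hy => by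
    simpa using (abs_le.2 hy).trans_lt hη
  obtain ⟨δ', hδ', h'⟩ := near_side (u := fun s => -(aa s).re) (y₁ := -η) (y₂ := η)
    (m := -(1 - ε / 2))
    (fun y hy =>
      (continuous_re.continuousAt.comp (differentiableAt_aa (Or.inr (h0 y hy))).continuousAt).neg)
    fun y hy => by rw [re_aa_side (by simp) (h0 y hy)]; linarith
  refine ⟨min δ δ', lt_min hδ hδ', edge_two (P := fun t => 1 - ε ≤ t) fun s h1 h2 h3 => ?_⟩
  have h4 := abs_lt.1 (h s h1 (h2.trans_le (min_le_left _ _)) (h3.trans hη.le))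
  have h5 := h' s (by rw [abs_of_pos h1]; exact h2.trans_le (min_le_right _ _)) (abs_le.1 h3)
  linarith [h4.1]

/-- Maximum principle in a rectangle with control near the vertical sides. -/
theorem rect_max {Φ : ℂ → ℂ} {Λ y₁ y₂ m : ℝ} (hy : y₁ < y₂)
    (hd : ∀ s : ℂ, 0 < s.re → s.re < Λ → DifferentiableAt ℂ Φ s)
    (hh : ∀ s : ℂ, 0 < s.re → s.re < Λ → (s.im = y₁ ∨ s.im = y₂) → (Φ s).re ≤ m)
    (hv : ∀ ε > 0, ∃ δ > 0, ∀ s : ℂ, 0 < s.re → s.re < Λ → (s.re < δ ∨ Λ - δ < s.re) →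
      s.im ∈ Icc y₁ y₂ → (Φ s).re ≤ m + ε)
    {s : ℂ} (h1 : 0 < s.re) (h2 : s.re < Λ) (h3 : s.im ∈ Icc y₁ y₂) : (Φ s).re ≤ m := by
  refine le_of_forall_pos_le_add fun ε hε => ?_
  obtain ⟨δ, hδ, h⟩ := hv ε hε
  by_cases hs : s.re < δ ∨ Λ - δ < s.re
  · exact h s h1 h2 hs h3
  push Not at hs
  have hlt : δ / 2 < Λ - δ / 2 := by linarith [hs.1, hs.2]
  have hcl : closure (Ioo (δ / 2) (Λ - δ / 2) ×ℂ Ioo y₁ y₂) =
      Icc (δ / 2) (Λ - δ / 2) ×ℂ Icc y₁ y₂ := by
    rw [closure_reProdIm, closure_Ioo hlt.ne, closure_Ioo hy.ne]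
  have key := norm_le_of_forall_mem_frontier_norm_le (f := fun s => exp (Φ s))
    (U := Ioo (δ / 2) (Λ - δ / 2) ×ℂ Ioo y₁ y₂) ((isBounded_Ioo _ _).reProdIm (isBounded_Ioo _ _))
    (DifferentiableOn.diffContOnCl ?_) (C := Real.exp (m + ε)) ?_ (z := s) ?_
  · rwa [norm_exp, Real.exp_le_exp] at key
  · rw [hcl]
    intro t ht
    exact (hd t (by linarith [ht.1.1]) (by linarith [ht.1.2])).cexp.differentiableWithinAt
  · intro t ht
    rw [norm_exp, Real.exp_le_exp]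
    rw [frontier_reProdIm, closure_Ioo hlt.ne, closure_Ioo hy.ne, frontier_Ioo hlt,
      frontier_Ioo hy] at ht
    rcases ht with ht | ht
    · have := hh t (by linarith [ht.1.1]) (by linarith [ht.1.2]) ht.2
      linarith
    · have h4 : t.re = δ / 2 ∨ t.re = Λ - δ / 2 := ht.1
      refine h t ?_ ?_ ?_ ht.2 <;> rcases h4 with h4 | h4 <;> rw [h4]
      · linarith
      · linarith
      · linarith
      · linarith
      · left; linarith
      · right; linarith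
  · rw [hcl]
    exact ⟨⟨by linarith [hs.1], by linarith [hs.2]⟩, h3⟩

theorem re_gg_mem {Λ : ℝ} {s : ℂ} (h1 : 0 < s.re) (h2 : s.re < Λ) (h3 : |s.im| ≤ π / 2) :
    0 ≤ (gg Λ s).re ∧ (gg Λ s).re ≤ 1 := by
  have hΛ := h1.trans h2
  have hπ := Real.pi_pos
  have htop : ∀ t : ℂ, (t.im = -(π / 2) ∨ t.im = π / 2) → |t.im| = π / 2 := by
    rintro t (h | h) <;> rw [h]
    · rw [abs_neg, abs_of_pos (by linarith)]
    · rw [abs_of_pos (by linarith)]
  constructor
  · have := rect_max (Φ := fun s => -gg Λ s) (m := 0) (y₁ := -(π / 2)) (y₂ := π / 2)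
      (by linarith) (fun s a b => (differentiableAt_gg a b).neg)
      (fun s a b c => by rw [neg_re, re_gg_top a b (htop s c)]; simp) (fun ε hε => ?_) h1 h2
      (abs_le.1 h3)
    · simpa using this
    · obtain ⟨δ, hδ, h⟩ := edge_bounds hΛ hε
      refine ⟨δ, hδ, fun s a b c d => ?_⟩
      have := (h s a b c (abs_le.2 d)).1
      rw [neg_re]; linarith
  · refine rect_max (Φ := gg Λ) (y₁ := -(π / 2)) (y₂ := π / 2)
      (by linarith) (fun s a b => differentiableAt_gg a b)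
      (fun s a b c => by rw [re_gg_top a b (htop s c)]; simp) (fun ε hε => ?_) h1 h2
      (abs_le.1 h3)
    obtain ⟨δ, hδ, h⟩ := edge_bounds hΛ hε
    exact ⟨δ, hδ, fun s a b c d => (h s a b c (abs_le.2 d)).2⟩

theorem re_gg_le_axis {Λ : ℝ} {s : ℂ} (h1 : 0 < s.re) (h2 : s.re < Λ) (h3 : |s.im| ≤ π / 2) :
    (gg Λ s).re ≤ (gg Λ s.re).re := by
  have hΛ := h1.trans h2
  have hπ := Real.pi_pos
  have key : ∀ s : ℂ, 0 < s.re → s.re < Λ → 0 < s.im → s.im ≤ π / 2 →
      (gg Λ s).re ≤ (gg Λ s.re).re := by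
    intro s h1 h2 h3 h4
    have := rect_max (Φ := fun t => gg Λ t - gg Λ (t - s.im * I)) (m := 0) (y₁ := s.im / 2)
      (y₂ := π / 2) (Λ := Λ) (by linarith) (fun t a b => ?_) (fun t a b c => ?_)
      (fun ε hε => ?_) h1 h2 ⟨by linarith, h4⟩
    · have e : s - s.im * I = s.re := by apply Complex.ext <;> simp
      rw [sub_re, e] at this
      linarith
    · refine (differentiableAt_gg a b).sub ?_
      exact (differentiableAt_gg (s := t - s.im * I) (by simpa using a) (by simpa using b)).comp t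
        (f := fun t : ℂ => t - s.im * I) (by fun_prop)
    · rw [sub_re]
      rcases c with c | c
      · rw [re_gg_congr a b (t := t - s.im * I) (by simp) (by simp; linarith)]
        simp
      · rw [re_gg_top a b (by rw [c, abs_of_pos (by linarith)])]
        have := (re_gg_mem (s := t - s.im * I) (Λ := Λ) (by simpa using a) (by simpa using b)
          (by simp only [sub_im, mul_im, ofReal_re, I_im, mul_one, ofReal_im, I_re, mul_zero,
                add_zero]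
              exact abs_le.2 ⟨by linarith, by linarith⟩)).1
        linarith
    · obtain ⟨δ, hδ, h⟩ := edge_one hΛ hε (η := π / 2 - s.im / 2) (by linarith)
      refine ⟨δ, hδ, fun t a b c d => ?_⟩
      have h5 := h (t - s.im * I) (by simpa using a) (by simpa using b) (by simpa using c)
        (by simp only [sub_im, mul_im, ofReal_re, I_im, mul_one, ofReal_im, I_re, mul_zero,
              add_zero]
            exact abs_le.2 ⟨by linarith [d.1], by linarith [d.2]⟩)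
      have h6 := (re_gg_mem a b (abs_le.2 ⟨by linarith [d.1], d.2⟩)).2
      rw [sub_re]
      linarith
  rcases lt_trichotomy s.im 0 with h | h | h
  · have h4 := key ((starRingEnd ℂ) s) (by simpa using h1) (by simpa using h2) (by simpa using h)
      (by simpa using (neg_le_abs s.im).trans h3)
    rw [re_gg_congr h1 h2 (t := (starRingEnd ℂ) s) (by simp) (by simp)]
    simpa using h4
  · have e : s = s.re := by apply Complex.ext <;> simp [h]
    rw [← e]
  · exact key s h1 h2 h ((le_abs_self _).trans h3)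

/-- The open vertical strip. -/
def vstrip (Λ : ℝ) : Set ℂ := {s | 0 < s.re ∧ s.re < Λ}

theorem isOpen_vstrip (Λ : ℝ) : IsOpen (vstrip Λ) :=
  (isOpen_lt continuous_const continuous_re).inter (isOpen_lt continuous_re continuous_const)

theorem convex_vstrip (Λ : ℝ) : Convex ℝ (vstrip Λ) :=
  (convex_halfSpace_re_gt 0).inter (convex_halfSpace_re_lt Λ)

theorem analyticOnNhd_gg (Λ : ℝ) : AnalyticOnNhd ℂ (gg Λ) (vstrip Λ) :=
  DifferentiableOn.analyticOnNhd
    (fun _ hs => (differentiableAt_gg hs.1 hs.2).differentiableWithinAt) (isOpen_vstrip Λ)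

theorem re_gg_not_const {Λ : ℝ} (hΛ : 0 < Λ) (v : ℝ) : ¬ ∀ s ∈ vstrip Λ, (gg Λ s).re = v := by
  intro h
  have hπ := Real.pi_pos
  obtain ⟨δ, hδ, h1⟩ := edge_one hΛ (ε := 1 / 2) (η := 0) (by norm_num) (by linarith)
  obtain ⟨x, hx0, hx⟩ := exists_between (lt_min hδ hΛ)
  have hx1 := hx.trans_le (min_le_left _ _)
  have hx2 := hx.trans_le (min_le_right _ _)
  have h2 := h1 x (by simpa using hx0) (by simpa using hx2) (Or.inl (by simpa using hx1)) (by simp)
  have h3 := re_gg_top (Λ := Λ) (s := x + (π / 2 : ℝ) * I) (by simpa using hx0) (by simpa using hx2)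
    (by simp only [add_im, ofReal_im, mul_im, ofReal_re, I_im, mul_one, I_re, mul_zero, add_zero,
          zero_add]
        exact abs_of_pos (by linarith))
  rw [h _ ⟨by simpa using hx0, by simpa using hx2⟩] at h2 h3
  linarith

theorem not_localMax {Λ x : ℝ} (h1 : 0 < x) (h2 : x < Λ) :
    ¬ ∀ᶠ t : ℝ in 𝓝 x, (gg Λ t).re ≤ (gg Λ x).re := by
  intro h
  have hπ := Real.pi_pos
  have hx : (x : ℂ) ∈ vstrip Λ := ⟨by simpa using h1, by simpa using h2⟩
  have hn := (isOpen_vstrip Λ).mem_nhds hx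
  have hmax : IsLocalMax (norm ∘ fun s => exp (gg Λ s)) (x : ℂ) := by
    have e1 : ∀ᶠ s : ℂ in 𝓝 (x : ℂ), (gg Λ s.re).re ≤ (gg Λ x).re :=
      (continuous_re.tendsto' (x : ℂ) x (by simp)).eventually h
    have e2 : ∀ᶠ s : ℂ in 𝓝 (x : ℂ), |s.im| < π / 2 :=
      (continuous_im.abs.tendsto (x : ℂ)).eventually (gt_mem_nhds (by simpa using hπ))
    filter_upwards [e1, e2, hn] with s a b c
    simp only [Function.comp, norm_exp, Real.exp_le_exp]
    exact (re_gg_le_axis c.1 c.2 b.le).trans a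
  have hev := eventually_eq_of_isLocalMax_norm (by
    filter_upwards [hn] with s hs using (differentiableAt_gg hs.1 hs.2).cexp) hmax
  have han : AnalyticOnNhd ℂ (fun s => exp (gg Λ s)) (vstrip Λ) := (analyticOnNhd_gg Λ).cexp
  have heq := han.eqOn_of_preconnected_of_eventuallyEq (g := fun _ => exp (gg Λ x))
    analyticOnNhd_const (convex_vstrip Λ).isPreconnected hx hev
  refine re_gg_not_const (h1.trans h2) (gg Λ x).re fun s hs => ?_
  have := congrArg norm (heq hs)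
  simpa [norm_exp] using this

theorem countable_crit {Λ : ℝ} (hΛ : 0 < Λ) :
    (vstrip Λ ∩ {s | deriv (gg Λ) s = 0}).Countable := by
  rcases (analyticOnNhd_gg Λ).deriv.eqOn_zero_or_eventually_ne_zero_of_preconnected
    (convex_vstrip Λ).isPreconnected with h | h
  · exfalso
    have hx : ((Λ / 2 : ℝ) : ℂ) ∈ vstrip Λ := ⟨by simpa using hΛ, by simpa using hΛ⟩
    refine re_gg_not_const hΛ (gg Λ ((Λ / 2 : ℝ) : ℂ)).re fun s hs => ?_
    rw [(isOpen_vstrip Λ).is_const_of_deriv_eq_zero (convex_vstrip Λ).isPreconnected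
      (analyticOnNhd_gg Λ).differentiableOn h hs hx]
  · have h1 := isDiscrete_of_codiscreteWithin (s := {s | deriv (gg Λ) s = 0}) (U := vstrip Λ) h
    rw [inter_comm]
    exact (HereditarilyLindelofSpace.isLindelof _).countable_of_isDiscrete h1

end Pool.Agent.Lib.MP_b71113_an
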