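import Pool.Agent.Lib.MP_b71113_an.Osgood

/-! Moving the contour of integration `ℝⁿ + i y` against a cut-off function. -/

namespace Pool.Agent.Lib.MP_b71113_an

open Set Filter Topology MeasureTheory Complex

variable {n : ℕ}

/-- The point `x + i y`. -/
noncomputable def pt (x y : Fin n → ℝ) : Fin n → ℂ := fun j => (x j : ℂ) + (y j : ℂ) * I

@[simp] theorem reV_pt (x y : Fin n → ℝ) : reV (pt x y) = x := by
  funext j; simp [reV, pt]

@[simp] theorem pt_im (x y : Fin n → ℝ) (j : Fin n) : (pt x y j).im = y j := by simp [pt]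

@[simp] theorem pt_re (x y : Fin n → ℝ) (j : Fin n) : (pt x y j).re = x j := by simp [pt]

theorem pt_zero (x : Fin n → ℝ) : pt x 0 = ofR x := by
  funext j; simp [ofR, pt]

@[simp] theorem reV_ofR (x : Fin n → ℝ) : reV (ofR x) = x := by
  funext j; simp [reV, ofR]

@[simp] theorem ofR_im (x : Fin n → ℝ) (j : Fin n) : (ofR x j).im = 0 := by simp [ofR]

@[simp] theorem ofR_re (x : Fin n → ℝ) (j : Fin n) : (ofR x j).re = x j := by simp [ofR]

theorem pt_reV (z : Fin n → ℂ) : pt (reV z) (fun j => (z j).im) = z := by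
  funext j; simp [reV, pt]

theorem continuous_pt : Continuous fun p : (Fin n → ℝ) × (Fin n → ℝ) => pt p.1 p.2 := by
  unfold pt; fun_prop

theorem continuous_reV : Continuous (reV : (Fin n → ℂ) → Fin n → ℝ) := by
  unfold reV; fun_prop

theorem continuous_ofR : Continuous (ofR : (Fin n → ℝ) → Fin n → ℂ) := by
  unfold ofR; fun_prop

theorem pt_add_smul_left (x y v : Fin n → ℝ) (t : ℝ) :
    pt (x + t • v) y = pt x y + (t : ℂ) • ofR v := by
  funext j; simp [pt, ofR]; ring

theorem pt_add_smul_right (x y v : Fin n → ℝ) (t : ℝ) :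
    pt x (y + t • v) = pt x y + (t : ℂ) • (I • ofR v) := by
  funext j; simp [pt, ofR]; ring

theorem integrable_cut {a b : (Fin n → ℝ) → ℂ} {K : Set (Fin n → ℝ)} (hK : IsCompact K)
    (ha : Continuous a) (h0 : ∀ x, x ∉ K → a x = 0) (hb : ContinuousOn b K) :
    Integrable (fun x => a x * b x) := by
  have h1 : IntegrableOn (fun x => a x * b x) K :=
    (ha.continuousOn.mul hb).integrableOn_compact hK
  rw [← integrableOn_univ]
  refine h1.of_forall_sdiff_eq_zero MeasurableSet.univ fun x hx => ?_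
  simp [h0 x hx.2]

theorem hasDerivAt_line {G : (Fin n → ℂ) → ℂ} {z w : Fin n → ℂ} {s : ℝ}
    (hG : DifferentiableAt ℂ G (z + (s : ℂ) • w)) :
    HasDerivAt (fun t : ℝ => G (z + (t : ℂ) • w)) (fderiv ℂ G (z + (s : ℂ) • w) w) s := by
  have h1 : HasDerivAt (fun t : ℂ => z + t • w) w (s : ℂ) := by
    simpa using ((hasDerivAt_id (s : ℂ)).smul_const w).const_add z
  have h2 := hG.hasFDerivAt.comp_hasDerivAt (s : ℂ) h1
  exact h2.comp_ofReal

/-- Integration by parts in the real directions. -/
theorem parts {χ : (Fin n → ℝ) → ℝ} (hχ : ContDiff ℝ 1 χ) (hc : HasCompactSupport χ)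
    {G : (Fin n → ℂ) → ℂ} {O : Set (Fin n → ℂ)} (hO : IsOpen O) (hG : DifferentiableOn ℂ G O)
    (y v : Fin n → ℝ) (hin : ∀ x ∈ tsupport χ, pt x y ∈ O) :
    ∫ x, (χ x : ℂ) * fderiv ℂ G (pt x y) (ofR v) =
      - ∫ x, ((fderiv ℝ χ x v : ℝ) : ℂ) * G (pt x y) := by
  have hpt : Continuous fun x : Fin n → ℝ => pt x y :=
    continuous_pt.comp (continuous_id.prodMk continuous_const)
  have hGc : ContinuousOn (fun x => G (pt x y)) (tsupport χ) :=
    hG.continuousOn.comp hpt.continuousOn hin
  have hG'c : ContinuousOn (fun x => fderiv ℂ G (pt x y) (ofR v)) (tsupport χ) := by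
    have := (differentiableOn_fderiv_of_isOpen hO hG).continuousOn.comp hpt.continuousOn hin
    exact this.clm_apply continuousOn_const
  have hχc : Continuous fun x => (χ x : ℂ) := continuous_ofReal.comp hχ.continuous
  have hχ'c : Continuous fun x => ((fderiv ℝ χ x v : ℝ) : ℂ) :=
    continuous_ofReal.comp ((hχ.continuous_fderiv one_ne_zero).clm_apply continuous_const)
  have z0 : ∀ x, x ∉ tsupport χ → (χ x : ℂ) = 0 := fun x hx => by
    simp [image_eq_zero_of_notMem_tsupport hx]
  have z1 : ∀ x, x ∉ tsupport χ → ((fderiv ℝ χ x v : ℝ) : ℂ) = 0 := fun x hx => by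
    have : fderiv ℝ χ x = 0 := by
      by_contra h
      exact hx (support_fderiv_subset ℝ h)
    simp [this]
  have hts : tsupport (fun x => (χ x : ℂ)) = tsupport χ := by
    unfold tsupport
    congr 1
    ext x; simp
  refine integral_bilinear_hasLineDerivAt_right_eq_neg_left_of_integrable
    (B := ContinuousLinearMap.mul ℝ ℂ) (f := fun x => (χ x : ℂ))
    (f' := fun x => ((fderiv ℝ χ x v : ℝ) : ℂ)) (g := fun x => G (pt x y))
    (g' := fun x => fderiv ℂ G (pt x y) (ofR v)) (v := v)
    (integrable_cut hc hχ'c z1 hGc) (integrable_cut hc hχc z0 hG'c)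
    (integrable_cut hc hχc z0 hGc) ?_ ?_
  · intro x _
    have h1 : HasLineDerivAt ℝ χ (fderiv ℝ χ x v) x v :=
      (hχ.differentiable one_ne_zero x).hasFDerivAt.hasLineDerivAt v
    exact HasDerivAt.ofReal_comp h1
  · intro x hx
    rw [hts] at hx
    have hd : DifferentiableAt ℂ G (pt x y + ((0 : ℝ) : ℂ) • ofR v) := by
      simpa using hG.differentiableAt (hO.mem_nhds (hin x hx))
    have := hasDerivAt_line hd
    simp only [ofReal_zero, zero_smul, add_zero] at this
    unfold HasLineDerivAt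
    simpa only [pt_add_smul_left] using this

/-- The contour shift estimate. -/
theorem shift {χ : (Fin n → ℝ) → ℝ} (hχ : ContDiff ℝ 1 χ) (hc : HasCompactSupport χ)
    {G : (Fin n → ℂ) → ℂ} {O : Set (Fin n → ℂ)} (hO : IsOpen O) (hG : DifferentiableOn ℂ G O)
    (y v : Fin n → ℝ) (hin : ∀ x ∈ tsupport χ, ∀ s ∈ Icc (0 : ℝ) 1, pt x (y + s • v) ∈ O)
    {B : ℝ} (hB : ∀ x, fderiv ℝ χ x ≠ 0 → ∀ s ∈ Icc (0 : ℝ) 1, ‖G (pt x (y + s • v))‖ ≤ B) :
    ‖(∫ x, (χ x : ℂ) * G (pt x (y + v))) - ∫ x, (χ x : ℂ) * G (pt x y)‖ ≤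
      B * ∫ x, |fderiv ℝ χ x v| := by
  have hχc : Continuous fun x => (χ x : ℂ) := continuous_ofReal.comp hχ.continuous
  have z0 : ∀ x, x ∉ tsupport χ → (χ x : ℂ) = 0 := fun x hx => by
    simp [image_eq_zero_of_notMem_tsupport hx]
  have hint : ∀ s ∈ Icc (0 : ℝ) 1, Integrable fun x => (χ x : ℂ) * G (pt x (y + s • v)) := by
    intro s hs
    refine integrable_cut hc hχc z0 ?_
    have hpt : Continuous fun x : Fin n → ℝ => pt x (y + s • v) :=
      continuous_pt.comp (continuous_id.prodMk continuous_const)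
    exact hG.continuousOn.comp hpt.continuousOn fun x hx => hin x hx s hs
  set D : ℝ → (Fin n → ℝ) → ℂ := fun s x =>
    (χ x : ℂ) * fderiv ℂ G (pt x (y + s • v)) (I • ofR v) with hD
  have hDc : ContinuousOn (Function.uncurry D) (Icc 0 1 ×ˢ tsupport χ) := by
    have hpt : Continuous fun p : ℝ × (Fin n → ℝ) => pt p.2 (y + p.1 • v) :=
      continuous_pt.comp (continuous_snd.prodMk (by fun_prop))
    have h1 := (differentiableOn_fderiv_of_isOpen hO hG).continuousOn.comp hpt.continuousOn
      (s := Icc 0 1 ×ˢ tsupport χ) fun p hp => hin p.2 hp.2 p.1 hp.1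
    exact (hχc.comp continuous_snd).continuousOn.mul (h1.clm_apply continuousOn_const)
  have hDi : Integrable (Function.uncurry D)
      ((volume.restrict (uIoc (0 : ℝ) 1)).prod (volume : Measure (Fin n → ℝ))) := by
    have h1 : IntegrableOn (Function.uncurry D) (Icc 0 1 ×ˢ tsupport χ)
        ((volume : Measure ℝ).prod (volume : Measure (Fin n → ℝ))) :=
      hDc.integrableOn_compact (isCompact_Icc.prod hc)
    have h2 : IntegrableOn (Function.uncurry D) (uIoc (0 : ℝ) 1 ×ˢ univ)
        ((volume : Measure ℝ).prod (volume : Measure (Fin n → ℝ))) := by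
      refine h1.of_forall_sdiff_eq_zero (measurableSet_uIoc.prod MeasurableSet.univ) ?_
      intro p hp
      have h3 : p.2 ∉ tsupport χ := fun h => hp.2 ⟨by
        have := uIoc_subset_uIcc hp.1.1
        rwa [uIcc_of_le zero_le_one] at this, h⟩
      simp [Function.uncurry, hD, z0 _ h3]
    rw [IntegrableOn, ← Measure.prod_restrict, Measure.restrict_univ] at h2
    exact h2
  have hftc : ∀ x, (χ x : ℂ) * G (pt x (y + v)) - (χ x : ℂ) * G (pt x y) =
      ∫ s in (0 : ℝ)..1, D s x := by
    intro x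
    by_cases hx : x ∈ tsupport χ
    · have h1 : ∀ s ∈ uIcc (0 : ℝ) 1, HasDerivAt (fun t : ℝ => (χ x : ℂ) * G (pt x (y + t • v)))
          (D s x) s := by
        intro s hs
        rw [uIcc_of_le zero_le_one] at hs
        have hd := hG.differentiableAt (hO.mem_nhds (hin x hx s hs))
        rw [pt_add_smul_right] at hd
        have := (hasDerivAt_line hd).const_mul (χ x : ℂ)
        simpa only [hD, pt_add_smul_right] using this
      have h2 : IntervalIntegrable (fun s => D s x) volume 0 1 := by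
        refine ContinuousOn.intervalIntegrable ?_
        rw [uIcc_of_le zero_le_one]
        have h3 : Continuous fun s : ℝ => (s, x) := by fun_prop
        exact hDc.comp h3.continuousOn fun s hs => ⟨hs, hx⟩
      rw [intervalIntegral.integral_eq_sub_of_hasDerivAt h1 h2]
      simp
    · simp [hD, z0 x hx]
  have h1 := hint 1 ⟨zero_le_one, le_rfl⟩
  have h0 := hint 0 ⟨le_rfl, zero_le_one⟩
  simp only [one_smul, zero_smul, add_zero] at h1 h0
  rw [← integral_sub h1 h0]
  simp_rw [hftc]
  rw [← intervalIntegral_integral_swap hDi]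
  have hbound : ∀ s ∈ uIoc (0 : ℝ) 1, ‖∫ x, D s x‖ ≤ B * ∫ x, |fderiv ℝ χ x v| := by
    intro s hs
    have hs' : s ∈ Icc (0 : ℝ) 1 := by
      have := uIoc_subset_uIcc hs
      rwa [uIcc_of_le zero_le_one] at this
    have e1 : ∫ x, D s x = I * ∫ x, (χ x : ℂ) * fderiv ℂ G (pt x (y + s • v)) (ofR v) := by
      rw [← integral_const_mul]
      congr 1
      funext x
      simp only [hD, map_smul, smul_eq_mul]
      ring
    rw [e1, parts hχ hc hO hG _ v fun x hx => hin x hx s hs', norm_mul, norm_I, one_mul, norm_neg,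
      ← integral_const_mul]
    refine norm_integral_le_of_norm_le ?_ (Eventually.of_forall fun x => ?_)
    · refine Integrable.const_mul ?_ _
      have h3 : Continuous fun x => fderiv ℝ χ x v :=
        (hχ.continuous_fderiv one_ne_zero).clm_apply continuous_const
      exact (h3.integrable_of_hasCompactSupport (hc.fderiv_apply ℝ v)).abs
    · by_cases hx : fderiv ℝ χ x = 0
      · simp [hx]
      · rw [norm_mul, norm_real, Real.norm_eq_abs, mul_comm]
        exact mul_le_mul_of_nonneg_right (hB x hx s hs') (abs_nonneg _)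
  simpa using intervalIntegral.norm_integral_le_of_norm_le_const hbound

end Pool.Agent.Lib.MP_b71113_an
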